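import Mathlib

/-!
Elementary monotonicity lemmas used in the a priori estimates for the reduced system.
-/

namespace Pool.Agent.Run7.h407

open Set Filter Topology

/-- A function with nonnegative derivative inside an interval increases over it. -/
theorem le_of_deriv_nonneg {f f' : ℝ → ℝ} {a b : ℝ} (hab : a ≤ b)
    (hf : ∀ x ∈ Icc a b, HasDerivAt f (f' x) x) (h : ∀ x ∈ Ioo a b, 0 ≤ f' x) :
    f a ≤ f b := by
  have hm : MonotoneOn f (Icc a b) := by
    apply monotoneOn_of_deriv_nonneg (convex_Icc a b)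
    · intro x hx
      exact (hf x hx).continuousAt.continuousWithinAt
    · intro x hx
      rw [interior_Icc] at hx
      exact (hf x (Ioo_subset_Icc_self hx)).differentiableAt.differentiableWithinAt
    · intro x hx
      rw [interior_Icc] at hx
      rw [(hf x (Ioo_subset_Icc_self hx)).deriv]
      exact h x hx
  exact hm (left_mem_Icc.2 hab) (right_mem_Icc.2 hab) hab

/-- Comparison of increments. -/
theorem incr_le {f f' g g' : ℝ → ℝ} {a b : ℝ} (hab : a ≤ b)
    (hf : ∀ x ∈ Icc a b, HasDerivAt f (f' x) x) (hg : ∀ x ∈ Icc a b, HasDerivAt g (g' x) x)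
    (h : ∀ x ∈ Ioo a b, f' x ≤ g' x) : f b - f a ≤ g b - g a := by
  have := le_of_deriv_nonneg (f := fun x => g x - f x) (f' := fun x => g' x - f' x) hab
    (fun x hx => (hg x hx).sub (hf x hx)) (fun x hx => sub_nonneg.2 (h x hx))
  linarith

/-- A closed condition that holds on `[0,s)` holds at `s`. -/
theorem closed_at_end {f g : ℝ → ℝ} {a b : ℝ} (hab : a < b)
    (hf : ContinuousOn f (Icc a b)) (hg : ContinuousOn g (Icc a b))
    (h : ∀ x ∈ Ico a b, f x ≤ g x) : f b ≤ g b := by
  have hcl : b ∈ closure (Ico a b) := by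
    rw [closure_Ico hab.ne]
    exact right_mem_Icc.2 hab.le
  have hsub : Ico a b ⊆ Icc a b := Ico_subset_Icc_self
  exact ContinuousWithinAt.closure_le hcl ((hf b (right_mem_Icc.2 hab.le)).mono hsub)
    ((hg b (right_mem_Icc.2 hab.le)).mono hsub) h

end Pool.Agent.Run7.h407
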