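import Mathlib
import Pool.Agent.Run7.h407.Mono

/-!
Global existence for finite-dimensional ordinary differential equations with a decreasing
coercive energy.
-/

namespace Pool.Agent.Run7.h407

open Set Filter Topology
open scoped NNReal

theorem exists_global {E : Type*} [NormedAddCommGroup E] [NormedSpace ℝ E]
    [FiniteDimensional ℝ E] (F : E → E) (hF : ContDiff ℝ 1 F) (En : E → ℝ)
    (hEn : ContDiff ℝ 1 En) (hcpt : ∀ R, IsCompact {x | En x ≤ R})
    (hdec : ∀ x, fderiv ℝ En x (F x) ≤ 0) (x₀ : E) {T : ℝ} (hT : 0 ≤ T) :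
    ∃ α : ℝ → E, α 0 = x₀ ∧ ContinuousOn α (Icc (-1) (T + 1)) ∧
      (∀ t ∈ Icc 0 T, HasDerivAt α (F (α t)) t) ∧
      ∀ t ∈ Icc 0 T, En (α t) ≤ En x₀ := by
  set ρ : E → ℝ := fun x => Real.smoothTransition (En x₀ + 2 - En x) with hρ
  have hρc : ContDiff ℝ 1 ρ := Real.smoothTransition.contDiff.comp (contDiff_const.sub hEn)
  set G : E → E := fun x => ρ x • F x with hG
  have hGc : ContDiff ℝ 1 G := hρc.smul hF
  have hGs : HasCompactSupport G := by
    apply HasCompactSupport.intro (hcpt (En x₀ + 2))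
    intro x hx
    have hx' : En x₀ + 2 < En x := by
      by_contra hcon
      exact hx (not_lt.1 hcon)
    have : ρ x = 0 := Real.smoothTransition.zero_of_nonpos (by linarith)
    rw [hG]
    simp only [this, zero_smul]
  obtain ⟨C, hC⟩ := hGc.lipschitzWith_of_hasCompactSupport hGs (by norm_num)
  obtain ⟨M, hM⟩ := hGs.exists_bound_of_continuous hGc.continuous
  have hM0 : 0 ≤ M := (norm_nonneg _).trans (hM x₀)
  obtain ⟨Mn, hMn⟩ : ∃ Mn : ℝ≥0, (Mn : ℝ) = M := ⟨⟨M, hM0⟩, rfl⟩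
  obtain ⟨Tn, hTn⟩ : ∃ Tn : ℝ≥0, (Tn : ℝ) = T + 1 := ⟨⟨T + 1, by linarith⟩, rfl⟩
  have hPL : IsPicardLindelof (fun _ : ℝ => G) (tmin := -1) (tmax := T + 1)
      ⟨0, by constructor <;> linarith⟩ x₀ (Mn * Tn) 0 Mn C := by
    refine ⟨fun t _ => hC.lipschitzOnWith, fun x _ => continuousOn_const,
      fun t _ x _ => by rw [hMn]; exact hM x, ?_⟩
    have h0 : 0 - (-1 : ℝ) ≤ T + 1 - 0 := by linarith
    have h1 : max (T + 1 - 0) (0 - (-1 : ℝ)) = T + 1 := by
      rw [max_eq_left h0, sub_zero]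
    have h2 : ((Mn * Tn : ℝ≥0) : ℝ) = M * (T + 1) := by rw [NNReal.coe_mul, hMn, hTn]
    rw [h2, NNReal.coe_zero, hMn]
    show M * max (T + 1 - 0) (0 - (-1 : ℝ)) ≤ M * (T + 1) - 0
    rw [h1]
    linarith
  obtain ⟨α, hα0, hα⟩ := hPL.exists_eq_forall_mem_Icc_hasDerivWithinAt₀
  have hα0' : α 0 = x₀ := hα0
  have hder : ∀ t ∈ Ioo (-1) (T + 1), HasDerivAt α (G (α t)) t := fun t ht =>
    (hα t (Ioo_subset_Icc_self ht)).hasDerivAt (Icc_mem_nhds ht.1 ht.2)
  have hen : ∀ t ∈ Icc 0 T, En (α t) ≤ En x₀ := by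
    intro t ht
    have := le_of_deriv_nonneg (f := fun s => -En (α s))
      (f' := fun s => -(fderiv ℝ En (α s) (G (α s)))) ht.1
      (fun x hx => by
        have h1 : HasDerivAt α (G (α x)) x := hder x ⟨by linarith [hx.1], by linarith [hx.2, ht.2]⟩
        have h2 : HasFDerivAt En (fderiv ℝ En (α x)) (α x) :=
          (hEn.differentiable (by norm_num) (α x)).hasFDerivAt
        exact (h2.comp_hasDerivAt x h1).neg)
      (fun x hx => by
        rw [hG]
        simp only [map_smul, smul_eq_mul]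
        have h1 := hdec (α x)
        have h2 : 0 ≤ ρ (α x) := Real.smoothTransition.nonneg _
        nlinarith)
    simp only [hα0'] at this
    linarith
  refine ⟨α, hα0', fun t ht => (hα t ht).continuousWithinAt, ?_, hen⟩
  intro t ht
  have h1 := hder t ⟨by linarith [ht.1], by linarith [ht.2]⟩
  have h2 : ρ (α t) = 1 := Real.smoothTransition.one_of_one_le (by linarith [hen t ht])
  have h3 : G (α t) = F (α t) := by
    rw [hG]
    simp only [h2, one_smul]
  rw [h3] at h1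
  exact h1

end Pool.Agent.Run7.h407
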