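import Mathlib

/-!
Calculus for smooth functions and compactly supported smooth fields on `ℝ³`.
-/

namespace Pool.Agent.Run7.h407

open Set Filter Topology MeasureTheory
open scoped ContDiff

/-- `ℝ³`. -/
abbrev V := Fin 3 → ℝ

/-- The partial derivative in the direction of the `j`-th coordinate. -/
noncomputable def pd (j : Fin 3) (f : V → ℝ) (x : V) : ℝ := fderiv ℝ f x (Pi.single j 1)

/-- Smooth functions. -/
abbrev Sm (f : V → ℝ) : Prop := ContDiff ℝ ∞ f

theorem Sm.diff {f : V → ℝ} (hf : Sm f) (x : V) : DifferentiableAt ℝ f x :=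
  hf.differentiable (by simp) x

theorem Sm.pd {f : V → ℝ} (hf : Sm f) (j : Fin 3) : Sm (pd j f) :=
  (hf.fderiv_right (m := ∞) (by simp)).clm_apply contDiff_const

theorem pd_congr {f g : V → ℝ} {x : V} (h : f =ᶠ[𝓝 x] g) (j : Fin 3) : pd j f x = pd j g x := by
  unfold pd
  rw [h.fderiv_eq]

theorem pd_add {f g : V → ℝ} {x : V} (hf : DifferentiableAt ℝ f x) (hg : DifferentiableAt ℝ g x)
    (j : Fin 3) : pd j (fun y => f y + g y) x = pd j f x + pd j g x := by
  unfold pd
  have h : HasFDerivAt (fun y => f y + g y) _ x := hf.hasFDerivAt.add hg.hasFDerivAt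
  rw [h.fderiv]
  simp

theorem pd_sub {f g : V → ℝ} {x : V} (hf : DifferentiableAt ℝ f x) (hg : DifferentiableAt ℝ g x)
    (j : Fin 3) : pd j (fun y => f y - g y) x = pd j f x - pd j g x := by
  unfold pd
  have h : HasFDerivAt (fun y => f y - g y) _ x := hf.hasFDerivAt.sub hg.hasFDerivAt
  rw [h.fderiv]
  simp

theorem pd_neg (f : V → ℝ) (x : V) (j : Fin 3) : pd j (fun y => -f y) x = -pd j f x := by
  unfold pd
  rw [fderiv_fun_neg]
  simp

theorem pd_mul {f g : V → ℝ} {x : V} (hf : DifferentiableAt ℝ f x) (hg : DifferentiableAt ℝ g x)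
    (j : Fin 3) : pd j (fun y => f y * g y) x = f x * pd j g x + pd j f x * g x := by
  unfold pd
  have h : HasFDerivAt (fun y => f y * g y) _ x := hf.hasFDerivAt.mul hg.hasFDerivAt
  rw [h.fderiv]
  simp only [add_apply, smul_apply, smul_eq_mul]
  ring

theorem pd_const_mul (c : ℝ) {f : V → ℝ} {x : V} (hf : DifferentiableAt ℝ f x)
    (j : Fin 3) : pd j (fun y => c * f y) x = c * pd j f x := by
  unfold pd
  have h : HasFDerivAt (fun y => c * f y) _ x := hf.hasFDerivAt.const_mul c
  rw [h.fderiv]
  simp

theorem pd_const (c : ℝ) (x : V) (j : Fin 3) : pd j (fun _ => c) x = 0 := by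
  unfold pd
  simp

theorem pd_sum {ι : Type*} {s : Finset ι} {f : ι → V → ℝ} {x : V}
    (hf : ∀ i ∈ s, DifferentiableAt ℝ (f i) x) (j : Fin 3) :
    pd j (fun y => ∑ i ∈ s, f i y) x = ∑ i ∈ s, pd j (f i) x := by
  unfold pd
  have h : HasFDerivAt (fun y => ∑ i ∈ s, f i y) _ x :=
    HasFDerivAt.fun_sum fun i hi => (hf i hi).hasFDerivAt
  rw [h.fderiv]
  simp

theorem coord_sm (i : Fin 3) : Sm (fun x : V => x i) := contDiff_apply ℝ ℝ i

theorem pd_coord (i j : Fin 3) (x : V) : pd j (fun y => y i) x = if i = j then 1 else 0 := by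
  unfold pd
  have h : HasFDerivAt (fun y : V => y i) (ContinuousLinearMap.proj (R := ℝ) (φ := fun _ => ℝ) i) x :=
    hasFDerivAt_apply i x
  rw [h.fderiv]
  simp [Pi.single_apply]

theorem pd_comm {f : V → ℝ} (hf : Sm f) (i j : Fin 3) (x : V) :
    pd i (pd j f) x = pd j (pd i f) x := by
  have h2 : ContDiff ℝ 2 f := hf.of_le (by norm_cast)
  have hs : IsSymmSndFDerivAt ℝ f x := h2.contDiffAt.isSymmSndFDerivAt (by simp)
  have hd : DifferentiableAt ℝ (fderiv ℝ f) x :=
    ((h2.fderiv_right (m := 1) (by norm_num)).differentiable one_ne_zero) x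
  have e : ∀ a b : Fin 3, pd a (pd b f) x
      = fderiv ℝ (fderiv ℝ f) x (Pi.single a 1) (Pi.single b 1) := by
    intro a b
    unfold pd
    have h3 : HasFDerivAt (fun y => fderiv ℝ f y (Pi.single b 1)) _ x :=
      hd.hasFDerivAt.clm_apply (hasFDerivAt_const (Pi.single b (1 : ℝ) : V) x)
    rw [h3.fderiv]
    simp
  rw [e, e]
  exact hs _ _

theorem pd_eq_zero {f : V → ℝ} {x : V} (hx : x ∉ tsupport f) (j : Fin 3) : pd j f x = 0 := by
  unfold pd
  have : x ∉ Function.support (fderiv ℝ f) := fun h => hx (support_fderiv_subset ℝ h)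
  rw [Function.notMem_support.1 this]
  simp

theorem pd_cs {f : V → ℝ} (hf : HasCompactSupport f) (j : Fin 3) : HasCompactSupport (pd j f) := by
  apply HasCompactSupport.intro hf.isCompact
  intro x hx
  exact pd_eq_zero hx j

theorem pd_comp_smul {f : V → ℝ} (hf : Differentiable ℝ f) (s : ℝ) (x : V) (j : Fin 3) :
    pd j (fun y => f (s • y)) x = s * pd j f (s • x) := by
  unfold pd
  have h1 : HasFDerivAt (fun y : V => s • y) (s • ContinuousLinearMap.id ℝ V) x :=
    (hasFDerivAt_id x).const_smul s
  have h : HasFDerivAt (fun y => f (s • y)) _ x := (hf (s • x)).hasFDerivAt.comp x h1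
  rw [h.fderiv]
  simp

theorem pd_comp_sub {f : V → ℝ} (hf : Differentiable ℝ f) (a : V) (x : V) (j : Fin 3) :
    pd j (fun y => f (y - a)) x = pd j f (x - a) := by
  unfold pd
  have h1 : HasFDerivAt (fun y : V => y - a) (ContinuousLinearMap.id ℝ V) x :=
    (hasFDerivAt_id x).sub_const a
  have h : HasFDerivAt (fun y => f (y - a)) _ x := (hf (x - a)).hasFDerivAt.comp x h1
  rw [h.fderiv]
  simp

theorem integrable_of_cs {f g : V → ℝ} (hf : Continuous f) (hfc : HasCompactSupport f)
    (hg : Continuous g) : Integrable (fun x => f x * g x) volume :=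
  (hf.mul hg).integrable_of_hasCompactSupport hfc.mul_right

/-- Integration by parts. -/
theorem ibp {f g : V → ℝ} (hf : Sm f) (hg : Sm g) (hfc : HasCompactSupport f) (j : Fin 3) :
    ∫ x, f x * pd j g x = -∫ x, pd j f x * g x := by
  unfold pd
  apply integral_mul_fderiv_eq_neg_fderiv_mul_of_integrable
  · exact integrable_of_cs (hf.pd j).continuous (pd_cs hfc j) hg.continuous
  · exact integrable_of_cs hf.continuous hfc (hg.pd j).continuous
  · exact integrable_of_cs hf.continuous hfc hg.continuous
  · exact fun x _ => hf.diff x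
  · exact fun x _ => hg.diff x

/-- The integral of a derivative of a compactly supported smooth function vanishes. -/
theorem integral_pd_zero {f : V → ℝ} (hf : Sm f) (hfc : HasCompactSupport f) (j : Fin 3) :
    ∫ x, pd j f x = 0 := by
  have h := ibp hf (contDiff_const (c := (1 : ℝ))) hfc j
  simp only [pd_const, mul_zero, integral_zero, mul_one] at h
  linarith

/-- Smooth compactly supported fields. -/
structure CF (u : V → V) : Prop where
  sm : ContDiff ℝ ∞ u
  cs : HasCompactSupport u

theorem sm_comp {u : V → V} (h : ContDiff ℝ ∞ u) (i : Fin 3) : Sm (fun x => u x i) :=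
  contDiff_pi.1 h i

theorem CF.smc {u : V → V} (h : CF u) (i : Fin 3) : Sm (fun x => u x i) := sm_comp h.sm i

theorem CF.csc {u : V → V} (h : CF u) (i : Fin 3) : HasCompactSupport (fun x => u x i) := by
  apply HasCompactSupport.intro h.cs.isCompact
  intro x hx
  rw [image_eq_zero_of_notMem_tsupport hx]
  rfl

theorem CF.of_comp {u : V → V} (h1 : ∀ i, Sm (fun x => u x i))
    (h2 : ∀ i, HasCompactSupport (fun x => u x i)) : CF u := by
  refine ⟨contDiff_pi.2 h1, ?_⟩
  apply HasCompactSupport.intro (K := ⋃ i, tsupport (fun x => u x i))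
    (isCompact_iUnion fun i => (h2 i).isCompact)
  intro x hx
  funext i
  have : x ∉ tsupport (fun x => u x i) := fun h => hx (mem_iUnion.2 ⟨i, h⟩)
  exact image_eq_zero_of_notMem_tsupport (f := fun x => u x i) this

theorem CF.add {u v : V → V} (hu : CF u) (hv : CF v) : CF (fun x => u x + v x) := by
  apply CF.of_comp
  · intro i
    exact (hu.smc i).add (hv.smc i)
  · intro i
    exact (hu.csc i).add (hv.csc i)

theorem CF.smul {u : V → V} (hu : CF u) (c : ℝ) : CF (fun x => c • u x) := by
  apply CF.of_comp
  · intro i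
    exact contDiff_const.mul (hu.smc i)
  · intro i
    exact (hu.csc i).mul_left (f := fun _ => c)

/-- Divergence. -/
noncomputable def dvg (u : V → V) (x : V) : ℝ := ∑ i, pd i (fun y => u y i) x

/-- The `L²` inner product. -/
noncomputable def ip (u v : V → V) : ℝ := ∫ x, ∑ i, u x i * v x i

/-- The Dirichlet form. -/
noncomputable def Dir (u v : V → V) : ℝ :=
  ∫ x, ∑ i, ∑ j, pd j (fun y => u y i) x * pd j (fun y => v y i) x

/-- The trilinear form `∫ (u·∇)v·w` of the Navier-Stokes equations. -/
noncomputable def tri (u v w : V → V) : ℝ :=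
  ∫ x, ∑ i, (∑ j, u x j * pd j (fun y => v y i) x) * w x i

theorem ip_int {u v : V → V} (hu : Continuous u) (hv : CF v) :
    Integrable (fun x => ∑ i, u x i * v x i) volume := by
  apply integrable_finsetSum
  intro i _
  have h := integrable_of_cs (hv.smc i).continuous (hv.csc i)
    (f := fun x => v x i) (g := fun x => u x i) ((continuous_apply i).comp hu)
  simpa [mul_comm] using h

theorem tri_int {u v w : V → V} (hu : Continuous u) (hv : ContDiff ℝ ∞ v) (hw : CF w) :
    Integrable (fun x => ∑ i, (∑ j, u x j * pd j (fun y => v y i) x) * w x i) volume := by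
  apply integrable_finsetSum
  intro i _
  have hc : Continuous (fun x => ∑ j, u x j * pd j (fun y => v y i) x) := by
    apply continuous_finsetSum
    intro j _
    exact ((continuous_apply j).comp hu).mul ((sm_comp hv i).pd j).continuous
  have h := integrable_of_cs (hw.smc i).continuous (hw.csc i)
    (f := fun x => w x i) (g := fun x => ∑ j, u x j * pd j (fun y => v y i) x) hc
  simpa [mul_comm] using h

theorem Dir_int {u v : V → V} (hu : ContDiff ℝ ∞ u) (hv : CF v) :
    Integrable (fun x => ∑ i, ∑ j, pd j (fun y => u y i) x * pd j (fun y => v y i) x) volume := by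
  apply integrable_finsetSum
  intro i _
  apply integrable_finsetSum
  intro j _
  have h := integrable_of_cs ((hv.smc i).pd j).continuous (pd_cs (hv.csc i) j)
    (f := pd j (fun y => v y i)) (g := pd j (fun y => u y i)) ((sm_comp hu i).pd j).continuous
  simpa [mul_comm] using h

/-- Antisymmetry of the trilinear form. -/
theorem tri_anti {u v w : V → V} (hu : CF u) (hd : ∀ x, dvg u x = 0) (hv : CF v)
    (hw : CF w) : tri u v w = -tri u w v := by
  have key : ∀ i j : Fin 3, (∫ x, u x j * pd j (fun y => v y i) x * w x i)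
      + (∫ x, u x j * pd j (fun y => w y i) x * v x i)
      = -∫ x, pd j (fun y => u y j) x * (v x i * w x i) := by
    intro i j
    have h1 := ibp (hu.smc j) ((hv.smc i).mul (hw.smc i)) (hu.csc j) j
    rw [← h1, ← integral_add]
    · congr 1
      funext x
      rw [pd_mul ((hv.smc i).diff x) ((hw.smc i).diff x)]
      ring
    · have h := integrable_of_cs (hu.smc j).continuous (hu.csc j)
        (((hv.smc i).pd j).continuous.mul (hw.smc i).continuous)
      simpa [mul_assoc] using h
    · have h := integrable_of_cs (hu.smc j).continuous (hu.csc j)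
        (((hw.smc i).pd j).continuous.mul (hv.smc i).continuous)
      simpa [mul_assoc] using h
  have e : ∀ a b : V → V, CF a → CF b → tri u a b
      = ∑ i, ∑ j, ∫ x, u x j * pd j (fun y => a y i) x * b x i := by
    intro a b ha hb
    unfold tri
    simp_rw [Finset.sum_mul]
    rw [integral_finsetSum]
    · congr 1
      funext i
      rw [integral_finsetSum]
      intro j _
      have h := integrable_of_cs (hu.smc j).continuous (hu.csc j)
        (((ha.smc i).pd j).continuous.mul (hb.smc i).continuous)
      simpa [mul_assoc] using h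
    · intro i _
      apply integrable_finsetSum
      intro j _
      have h := integrable_of_cs (hu.smc j).continuous (hu.csc j)
        (((ha.smc i).pd j).continuous.mul (hb.smc i).continuous)
      simpa [mul_assoc] using h
  have h2 : tri u v w + tri u w v = 0 := by
    rw [e v w hv hw, e w v hw hv, ← Finset.sum_add_distrib]
    have h3 : ∀ i : Fin 3, (∑ j, ∫ x, u x j * pd j (fun y => v y i) x * w x i)
        + (∑ j, ∫ x, u x j * pd j (fun y => w y i) x * v x i) = 0 := by
      intro i
      rw [← Finset.sum_add_distrib]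
      simp_rw [key i]
      rw [Finset.sum_neg_distrib, ← integral_finsetSum]
      · have h4 : (fun x => ∑ j, pd j (fun y => u y j) x * (v x i * w x i)) = fun x => 0 := by
          funext x
          rw [← Finset.sum_mul]
          have := hd x
          unfold dvg at this
          rw [this, zero_mul]
        rw [h4]
        simp
      · intro j _
        exact integrable_of_cs ((hu.smc j).pd j).continuous (pd_cs (hu.csc j) j)
          ((hv.smc i).continuous.mul (hw.smc i).continuous)
    rw [Finset.sum_congr rfl (fun i _ => h3 i)]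
    simp
  linarith

theorem tri_self {u v : V → V} (hu : CF u) (hd : ∀ x, dvg u x = 0) (hv : CF v) :
    tri u v v = 0 := by
  have := tri_anti hu hd hv hv
  linarith

/-- `∫ Δu·v = -∫ ∇u:∇v`. -/
theorem lap_ip {u v : V → V} (hu : ContDiff ℝ ∞ u) (hv : CF v) :
    ∫ x, ∑ i, (∑ j, pd j (pd j (fun y => u y i)) x) * v x i = -Dir u v := by
  have key : ∀ i j : Fin 3, ∫ x, pd j (pd j (fun y => u y i)) x * v x i
      = -∫ x, pd j (fun y => u y i) x * pd j (fun y => v y i) x := by
    intro i j
    have h1 := ibp (hv.smc i) ((sm_comp hu i).pd j) (hv.csc i) j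
    have e1 : ∫ x, pd j (pd j (fun y => u y i)) x * v x i
        = ∫ x, v x i * pd j (pd j (fun y => u y i)) x := by
      congr 1
      funext x
      ring
    have e2 : ∫ x, pd j (fun y => u y i) x * pd j (fun y => v y i) x
        = ∫ x, pd j (fun y => v y i) x * pd j (fun y => u y i) x := by
      congr 1
      funext x
      ring
    rw [e1, h1, e2]
  have i1 : ∀ i j : Fin 3, Integrable (fun x => pd j (pd j (fun y => u y i)) x * v x i) volume := by
    intro i j
    have h := integrable_of_cs (hv.smc i).continuous (hv.csc i)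
      (((sm_comp hu i).pd j).pd j).continuous
    simpa [mul_comm] using h
  have i2 : ∀ i j : Fin 3, Integrable
      (fun x => pd j (fun y => u y i) x * pd j (fun y => v y i) x) volume := by
    intro i j
    have h := integrable_of_cs ((hv.smc i).pd j).continuous (pd_cs (hv.csc i) j)
      ((sm_comp hu i).pd j).continuous
    simpa [mul_comm] using h
  unfold Dir
  simp_rw [Finset.sum_mul]
  rw [integral_finsetSum _ (fun i _ => integrable_finsetSum _ (fun j _ => i1 i j)),
    integral_finsetSum _ (fun i _ => integrable_finsetSum _ (fun j _ => i2 i j)),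
    ← Finset.sum_neg_distrib]
  congr 1
  funext i
  rw [integral_finsetSum _ (fun j _ => i1 i j), integral_finsetSum _ (fun j _ => i2 i j),
    ← Finset.sum_neg_distrib]
  congr 1
  funext j
  exact key i j

end Pool.Agent.Run7.h407
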