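import Mathlib
import Pool.Agent.Run7.h407.Calc
import Pool.Agent.Run7.h407.Mono

/-!
Joint smoothness of series `∑ f_j(t) φ(r^j x)` with coefficients decaying rapidly in `j`.
-/

namespace Pool.Agent.Run7.h407

open Set Filter Topology MeasureTheory
open scoped ContDiff

/-- Rapid decay in the index, uniformly for `t ∈ (-1, b)`. -/
def RD (b : ℝ) (f : ℕ → ℝ → ℝ) : Prop :=
  ∀ c > 0, ∃ C, ∀ j, ∀ t ∈ Ioo (-1) b, |f j t| * c ^ j ≤ C

/-- Rapid decay together with the first `k` derivatives. -/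
def RC : ℕ → ℝ → (ℕ → ℝ → ℝ) → Prop
  | 0, b, f => RD b f ∧ ∀ j, ContinuousOn (f j) (Ioo (-1) b)
  | k + 1, b, f => RD b f ∧ ∃ g : ℕ → ℝ → ℝ,
      (∀ j, ∀ t ∈ Ioo (-1) b, HasDerivAt (f j) (g j t) t) ∧ RC k b g

variable {b : ℝ}

theorem RD.nonneg_const {f : ℕ → ℝ → ℝ} (hf : RD b f) {c : ℝ} (hc : 0 < c) :
    ∃ C, 0 ≤ C ∧ ∀ j, ∀ t ∈ Ioo (-1) b, |f j t| * c ^ j ≤ C := by
  obtain ⟨C, hC⟩ := hf c hc
  exact ⟨max C 0, le_max_right _ _, fun j t ht => (hC j t ht).trans (le_max_left _ _)⟩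

theorem RD.add {f g : ℕ → ℝ → ℝ} (hf : RD b f) (hg : RD b g) :
    RD b (fun j t => f j t + g j t) := by
  intro c hc
  obtain ⟨C1, h1⟩ := hf c hc
  obtain ⟨C2, h2⟩ := hg c hc
  refine ⟨C1 + C2, fun j t ht => ?_⟩
  have hcj : 0 < c ^ j := by positivity
  calc |f j t + g j t| * c ^ j ≤ (|f j t| + |g j t|) * c ^ j :=
        mul_le_mul_of_nonneg_right (abs_add_le _ _) hcj.le
    _ = |f j t| * c ^ j + |g j t| * c ^ j := by ring
    _ ≤ _ := add_le_add (h1 j t ht) (h2 j t ht)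

theorem RD.mul {f g : ℕ → ℝ → ℝ} (hf : RD b f) (hg : RD b g) :
    RD b (fun j t => f j t * g j t) := by
  intro c hc
  obtain ⟨C1, h10, h1⟩ := hf.nonneg_const hc
  obtain ⟨C2, h20, h2⟩ := hg.nonneg_const (c := 1) (by norm_num)
  refine ⟨C1 * C2, fun j t ht => ?_⟩
  have h3 := h1 j t ht
  have h4 := h2 j t ht
  rw [one_pow, mul_one] at h4
  calc |f j t * g j t| * c ^ j = (|f j t| * c ^ j) * |g j t| := by
        rw [abs_mul]
        ring
    _ ≤ C1 * C2 := mul_le_mul h3 h4 (abs_nonneg _) h10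

theorem RD.geom {f : ℕ → ℝ → ℝ} (hf : RD b f) (a : ℝ) {r : ℝ} (hr : 0 < r) :
    RD b (fun j t => a * r ^ j * f j t) := by
  intro c hc
  obtain ⟨C, hC0, hC⟩ := hf.nonneg_const (c := r * c) (by positivity)
  refine ⟨|a| * C, fun j t ht => ?_⟩
  have h := hC j t ht
  calc |a * r ^ j * f j t| * c ^ j = |a| * (|f j t| * (r * c) ^ j) := by
        rw [abs_mul, abs_mul, abs_of_pos (by positivity : 0 < r ^ j), mul_pow]
        ring
    _ ≤ _ := mul_le_mul_of_nonneg_left h (abs_nonneg a)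

theorem RD.shift {f : ℕ → ℝ → ℝ} (hf : RD b f) (m : ℕ) : RD b (fun j t => f (j + m) t) := by
  intro c hc
  obtain ⟨C, hC⟩ := hf c hc
  refine ⟨C / c ^ m, fun j t ht => ?_⟩
  have h := hC (j + m) t ht
  have hcm : 0 < c ^ m := by positivity
  rw [le_div_iff₀ hcm]
  calc |f (j + m) t| * c ^ j * c ^ m = |f (j + m) t| * c ^ (j + m) := by ring
    _ ≤ C := h

/-- Prepend the zero function. -/
def unsh (f : ℕ → ℝ → ℝ) : ℕ → ℝ → ℝ
  | 0 => fun _ => 0
  | (j + 1) => f j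

theorem RD.unsh {f : ℕ → ℝ → ℝ} (hf : RD b f) : RD b (unsh f) := by
  intro c hc
  obtain ⟨C, hC0, hC⟩ := hf.nonneg_const hc
  refine ⟨C * c, fun j t ht => ?_⟩
  cases j with
  | zero =>
    show |(0 : ℝ)| * c ^ 0 ≤ C * c
    rw [abs_zero, zero_mul]
    positivity
  | succ j =>
    show |f j t| * c ^ (j + 1) ≤ C * c
    have := hC j t ht
    calc |f j t| * c ^ (j + 1) = (|f j t| * c ^ j) * c := by ring
      _ ≤ C * c := mul_le_mul_of_nonneg_right this hc.le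

theorem RC.rd {k : ℕ} {f : ℕ → ℝ → ℝ} (hf : RC k b f) : RD b f := by
  cases k with
  | zero => exact hf.1
  | succ k => exact hf.1

theorem RC.cont {k : ℕ} {f : ℕ → ℝ → ℝ} (hf : RC k b f) (j : ℕ) :
    ContinuousOn (f j) (Ioo (-1) b) := by
  cases k with
  | zero => exact hf.2 j
  | succ k =>
    obtain ⟨_, g, hg, _⟩ := hf
    exact fun t ht => (hg j t ht).continuousAt.continuousWithinAt

theorem RC.mono {k : ℕ} {f : ℕ → ℝ → ℝ} (hf : RC (k + 1) b f) : RC k b f := by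
  induction k generalizing f with
  | zero => exact ⟨hf.rd, hf.cont⟩
  | succ k ih =>
    obtain ⟨h1, g, hg, hg2⟩ := hf
    exact ⟨h1, g, hg, ih hg2⟩

theorem RC.add {k : ℕ} {f g : ℕ → ℝ → ℝ} (hf : RC k b f) (hg : RC k b g) :
    RC k b (fun j t => f j t + g j t) := by
  induction k generalizing f g with
  | zero => exact ⟨hf.1.add hg.1, fun j => (hf.2 j).add (hg.2 j)⟩
  | succ k ih =>
    obtain ⟨h1, f', hf', hf2⟩ := hf
    obtain ⟨h2, g', hg', hg2⟩ := hg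
    exact ⟨h1.add h2, fun j t => f' j t + g' j t, fun j t ht => (hf' j t ht).add (hg' j t ht),
      ih hf2 hg2⟩

theorem RC.mul {k : ℕ} {f g : ℕ → ℝ → ℝ} (hf : RC k b f) (hg : RC k b g) :
    RC k b (fun j t => f j t * g j t) := by
  induction k generalizing f g with
  | zero => exact ⟨hf.1.mul hg.1, fun j => (hf.2 j).mul (hg.2 j)⟩
  | succ k ih =>
    have hf0 := hf.mono
    have hg0 := hg.mono
    obtain ⟨h1, f', hf', hf2⟩ := hf
    obtain ⟨h2, g', hg', hg2⟩ := hg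
    exact ⟨h1.mul h2, fun j t => f' j t * g j t + f j t * g' j t,
      fun j t ht => (hf' j t ht).mul (hg' j t ht), (ih hf2 hg0).add (ih hf0 hg2)⟩

theorem RC.geom {k : ℕ} {f : ℕ → ℝ → ℝ} (hf : RC k b f) (a : ℝ) {r : ℝ} (hr : 0 < r) :
    RC k b (fun j t => a * r ^ j * f j t) := by
  induction k generalizing f with
  | zero => exact ⟨hf.1.geom a hr, fun j => continuousOn_const.mul (hf.2 j)⟩
  | succ k ih =>
    obtain ⟨h1, f', hf', hf2⟩ := hf
    exact ⟨h1.geom a hr, fun j t => a * r ^ j * f' j t,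
      fun j t ht => (hf' j t ht).const_mul _, ih hf2⟩

theorem RC.shift {k : ℕ} {f : ℕ → ℝ → ℝ} (hf : RC k b f) (m : ℕ) :
    RC k b (fun j t => f (j + m) t) := by
  induction k generalizing f with
  | zero => exact ⟨hf.1.shift m, fun j => hf.2 (j + m)⟩
  | succ k ih =>
    obtain ⟨h1, f', hf', hf2⟩ := hf
    exact ⟨h1.shift m, fun j t => f' (j + m) t, fun j t ht => hf' (j + m) t ht, ih hf2⟩

theorem RC.unsh {k : ℕ} {f : ℕ → ℝ → ℝ} (hf : RC k b f) : RC k b (unsh f) := by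
  induction k generalizing f with
  | zero =>
    refine ⟨hf.1.unsh, fun j => ?_⟩
    cases j with
    | zero => exact continuousOn_const
    | succ j => exact hf.2 j
  | succ k ih =>
    obtain ⟨h1, f', hf', hf2⟩ := hf
    refine ⟨h1.unsh, _, fun j t ht => ?_, ih hf2⟩
    cases j with
    | zero => exact hasDerivAt_const t 0
    | succ j => exact hf' j t ht

theorem RD.summable_bound {f : ℕ → ℝ → ℝ} (hf : RD b f) {r : ℝ} (hr : 0 < r) :
    ∃ u : ℕ → ℝ, Summable u ∧ ∀ j, ∀ t ∈ Ioo (-1) b, |f j t| * r ^ j ≤ u j := by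
  obtain ⟨C, hC0, hC⟩ := hf.nonneg_const (c := 2 * r) (by positivity)
  refine ⟨fun j => C * (1 / 2) ^ j, (summable_geometric_of_lt_one (by norm_num)
    (by norm_num)).mul_left C, fun j t ht => ?_⟩
  have h := hC j t ht
  have h2 : |f j t| * r ^ j = (|f j t| * (2 * r) ^ j) * (1 / 2) ^ j := by
    rw [mul_pow]
    have : (2 : ℝ) ^ j * (1 / 2) ^ j = 1 := by
      rw [← mul_pow]
      norm_num
    calc |f j t| * r ^ j = |f j t| * r ^ j * ((2 : ℝ) ^ j * (1 / 2) ^ j) := by rw [this, mul_one]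
      _ = _ := by ring
  rw [h2]
  exact mul_le_mul_of_nonneg_right h (by positivity)

/-- The series. -/
noncomputable def Ser {E : Type} [NormedAddCommGroup E] [NormedSpace ℝ E] (r : ℝ)
    (f : ℕ → ℝ → ℝ) (φ : V → E) (z : ℝ × V) : E := ∑' j, f j z.1 • φ (r ^ j • z.2)

theorem cs_bound {E : Type} [NormedAddCommGroup E] [NormedSpace ℝ E] {φ : V → E}
    (hφ : ContDiff ℝ ∞ φ) (hc : HasCompactSupport φ) : ∃ M, 0 ≤ M ∧ ∀ x, ‖φ x‖ ≤ M := by
  obtain ⟨M, hM⟩ := hc.exists_bound_of_continuous hφ.continuous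
  exact ⟨M, (norm_nonneg _).trans (hM 0), hM⟩

theorem ser_summable {E : Type} [NormedAddCommGroup E] [NormedSpace ℝ E] [CompleteSpace E] {r : ℝ}
    {f : ℕ → ℝ → ℝ} (hf : RD b f) {φ : V → E}
    (hφ : ContDiff ℝ ∞ φ) (hc : HasCompactSupport φ) {z : ℝ × V} (hz : z.1 ∈ Ioo (-1) b) :
    Summable (fun j => f j z.1 • φ (r ^ j • z.2)) := by
  obtain ⟨M, hM0, hM⟩ := cs_bound hφ hc
  obtain ⟨u, hu, hu2⟩ := hf.summable_bound (r := 1) (by norm_num)
  apply Summable.of_norm_bounded (hu.mul_right M)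
  intro j
  rw [norm_smul, Real.norm_eq_abs]
  have h := hu2 j z.1 hz
  rw [one_pow, mul_one] at h
  exact mul_le_mul h (hM _) (norm_nonneg _) ((abs_nonneg _).trans h)

theorem ser_cont {E : Type} [NormedAddCommGroup E] [NormedSpace ℝ E] [CompleteSpace E] {r : ℝ}
    {f : ℕ → ℝ → ℝ} (hf : RC 0 b f) {φ : V → E}
    (hφ : ContDiff ℝ ∞ φ) (hc : HasCompactSupport φ) :
    ContinuousOn (Ser r f φ) (Ioo (-1) b ×ˢ univ) := by
  obtain ⟨M, hM0, hM⟩ := cs_bound hφ hc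
  obtain ⟨u, hu, hu2⟩ := hf.rd.summable_bound (r := 1) (by norm_num)
  unfold Ser
  apply continuousOn_tsum (u := fun j => u j * M) _ (hu.mul_right M)
  · intro j z hz
    rw [norm_smul, Real.norm_eq_abs]
    have h := hu2 j z.1 hz.1
    rw [one_pow, mul_one] at h
    exact mul_le_mul h (hM _) (norm_nonneg _) ((abs_nonneg _).trans h)
  · intro j
    apply ContinuousOn.smul
    · exact (hf.cont j).comp continuousOn_fst (fun z hz => hz.1)
    · have h1 : Continuous (fun z : ℝ × V => φ (r ^ j • z.2)) :=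
        hφ.continuous.comp (by fun_prop)
      exact h1.continuousOn

/-- The space-time derivative of the building blocks. -/
noncomputable def D1 {E : Type} [NormedAddCommGroup E] [NormedSpace ℝ E] (φ : V → E) (y : V) :
    ℝ × V →L[ℝ] E := (ContinuousLinearMap.fst ℝ ℝ V).smulRight (φ y)

noncomputable def D2 {E : Type} [NormedAddCommGroup E] [NormedSpace ℝ E] (φ : V → E) (y : V) :
    ℝ × V →L[ℝ] E := (fderiv ℝ φ y).comp (ContinuousLinearMap.snd ℝ ℝ V)

theorem D1_cd {E : Type} [NormedAddCommGroup E] [NormedSpace ℝ E] {φ : V → E}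
    (hφ : ContDiff ℝ ∞ φ) : ContDiff ℝ ∞ (D1 φ) := contDiff_const.smulRight hφ

theorem D2_cd {E : Type} [NormedAddCommGroup E] [NormedSpace ℝ E] {φ : V → E}
    (hφ : ContDiff ℝ ∞ φ) : ContDiff ℝ ∞ (D2 φ) :=
  (hφ.fderiv_right (m := ∞) (by simp)).clm_comp contDiff_const

theorem D1_cs {E : Type} [NormedAddCommGroup E] [NormedSpace ℝ E] {φ : V → E}
    (hc : HasCompactSupport φ) : HasCompactSupport (D1 φ) := by
  apply HasCompactSupport.intro hc.isCompact
  intro y hy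
  unfold D1
  rw [image_eq_zero_of_notMem_tsupport hy]
  ext <;> simp

theorem D2_cs {E : Type} [NormedAddCommGroup E] [NormedSpace ℝ E] {φ : V → E}
    (hc : HasCompactSupport φ) : HasCompactSupport (D2 φ) := by
  apply HasCompactSupport.intro hc.isCompact
  intro y hy
  unfold D2
  have : y ∉ Function.support (fderiv ℝ φ) := fun h => hy (support_fderiv_subset ℝ h)
  rw [Function.notMem_support.1 this]
  simp

theorem term_deriv {E : Type} [NormedAddCommGroup E] [NormedSpace ℝ E] {r : ℝ} {f f' : ℝ → ℝ}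
    {φ : V → E} (hφ : ContDiff ℝ ∞ φ) {z : ℝ × V} (hf : HasDerivAt f (f' z.1) z.1) (j : ℕ) :
    HasFDerivAt (fun z : ℝ × V => f z.1 • φ (r ^ j • z.2))
      (f' z.1 • D1 φ (r ^ j • z.2) + (1 * r ^ j * f z.1) • D2 φ (r ^ j • z.2)) z := by
  have h1 : HasFDerivAt (fun z : ℝ × V => f z.1) (f' z.1 • ContinuousLinearMap.fst ℝ ℝ V) z :=
    hf.comp_hasFDerivAt z hasFDerivAt_fst
  have h2 : HasFDerivAt (fun z : ℝ × V => r ^ j • z.2) (r ^ j • ContinuousLinearMap.snd ℝ ℝ V) z :=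
    hasFDerivAt_snd.const_smul (r ^ j)
  have h3 : HasFDerivAt φ (fderiv ℝ φ (r ^ j • z.2)) (r ^ j • z.2) :=
    (hφ.differentiable (by simp) _).hasFDerivAt
  have h4 : HasFDerivAt (fun z : ℝ × V => φ (r ^ j • z.2))
      ((fderiv ℝ φ (r ^ j • z.2)).comp (r ^ j • ContinuousLinearMap.snd ℝ ℝ V)) z := h3.comp z h2
  have h5 := h1.smul h4
  have e : f' z.1 • D1 φ (r ^ j • z.2) + (1 * r ^ j * f z.1) • D2 φ (r ^ j • z.2)
      = f z.1 • ((fderiv ℝ φ (r ^ j • z.2)).comp (r ^ j • ContinuousLinearMap.snd ℝ ℝ V))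
        + (f' z.1 • ContinuousLinearMap.fst ℝ ℝ V).smulRight (φ (r ^ j • z.2)) := by
    unfold D1 D2
    apply ContinuousLinearMap.ext
    intro v
    simp
    module
  rw [e]
  exact h5

theorem ser_deriv {E : Type} [NormedAddCommGroup E] [NormedSpace ℝ E] [CompleteSpace E] {r : ℝ}
    (hr : 0 < r) {f g : ℕ → ℝ → ℝ} (hf : RD b f) (hg : RD b g)
    (hfg : ∀ j, ∀ t ∈ Ioo (-1) b, HasDerivAt (f j) (g j t) t) {φ : V → E}
    (hφ : ContDiff ℝ ∞ φ) (hc : HasCompactSupport φ) {z : ℝ × V} (hz : z.1 ∈ Ioo (-1) b) :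
    HasFDerivAt (Ser r f φ) (Ser r g (D1 φ) z + Ser r (fun j t => 1 * r ^ j * f j t) (D2 φ) z)
      z := by
  obtain ⟨M1, hM10, hM1⟩ := cs_bound (D1_cd hφ) (D1_cs hc)
  obtain ⟨M2, hM20, hM2⟩ := cs_bound (D2_cd hφ) (D2_cs hc)
  obtain ⟨u1, hu1, hu12⟩ := hg.summable_bound (r := 1) (by norm_num)
  obtain ⟨u2, hu2, hu22⟩ := (hf.geom 1 hr).summable_bound (r := 1) (by norm_num)
  have hs : IsOpen (Ioo (-1) b ×ˢ (univ : Set V)) := isOpen_Ioo.prod isOpen_univ
  have hpc : IsPreconnected (Ioo (-1) b ×ˢ (univ : Set V)) :=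
    ((convex_Ioo _ _).prod convex_univ).isPreconnected
  have key := hasFDerivAt_tsum_of_isPreconnected (𝕜 := ℝ)
    (f := fun j (z : ℝ × V) => f j z.1 • φ (r ^ j • z.2))
    (f' := fun j (z : ℝ × V) => g j z.1 • D1 φ (r ^ j • z.2)
      + (1 * r ^ j * f j z.1) • D2 φ (r ^ j • z.2))
    (u := fun j => u1 j * M1 + u2 j * M2) ((hu1.mul_right M1).add (hu2.mul_right M2)) hs hpc
    (fun j x hx => term_deriv hφ (hfg j x.1 hx.1) j)
    (fun j x hx => by
      refine (norm_add_le _ _).trans (add_le_add ?_ ?_)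
      · rw [norm_smul, Real.norm_eq_abs]
        have h := hu12 j x.1 hx.1
        rw [one_pow, mul_one] at h
        exact mul_le_mul h (hM1 _) (norm_nonneg _) ((abs_nonneg _).trans h)
      · rw [norm_smul, Real.norm_eq_abs]
        have h := hu22 j x.1 hx.1
        rw [one_pow, mul_one] at h
        exact mul_le_mul h (hM2 _) (norm_nonneg _) ((abs_nonneg _).trans h))
    (x₀ := z) ⟨hz, mem_univ _⟩ (ser_summable hf hφ hc hz) (x := z) ⟨hz, mem_univ _⟩
  have e : ∑' j, (g j z.1 • D1 φ (r ^ j • z.2) + (1 * r ^ j * f j z.1) • D2 φ (r ^ j • z.2))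
      = Ser r g (D1 φ) z + Ser r (fun j t => 1 * r ^ j * f j t) (D2 φ) z :=
    (ser_summable hg (D1_cd hφ) (D1_cs hc) hz).tsum_add
      (ser_summable (hf.geom 1 hr) (D2_cd hφ) (D2_cs hc) hz)
  rw [← e]
  exact key

theorem ser_smooth (k : ℕ) : ∀ (E : Type) [NormedAddCommGroup E] [NormedSpace ℝ E]
    [CompleteSpace E] (r : ℝ) (_ : 0 < r) (f : ℕ → ℝ → ℝ) (_ : RC k b f) (φ : V → E)
    (_ : ContDiff ℝ ∞ φ) (_ : HasCompactSupport φ),
    ContDiffOn ℝ k (Ser r f φ) (Ioo (-1) b ×ˢ univ) := by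
  induction k with
  | zero =>
    intro E _ _ _ r hr f hf φ hφ hc
    simp only [Nat.cast_zero, contDiffOn_zero]
    exact ser_cont hf hφ hc
  | succ k ih =>
    intro E _ _ _ r hr f hf φ hφ hc
    have hs : IsOpen (Ioo (-1) b ×ˢ (univ : Set V)) := isOpen_Ioo.prod isOpen_univ
    have hf0 := hf.mono
    obtain ⟨h1, g, hg, hg2⟩ := hf
    have hder : ∀ z ∈ Ioo (-1) b ×ˢ (univ : Set V), HasFDerivAt (Ser r f φ)
        (Ser r g (D1 φ) z + Ser r (fun j t => 1 * r ^ j * f j t) (D2 φ) z) z :=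
      fun z hz => ser_deriv hr h1 hg2.rd hg hφ hc hz.1
    have h2 : ((k + 1 : ℕ) : WithTop ℕ∞) = (k : WithTop ℕ∞) + 1 := by push_cast; rfl
    rw [h2, contDiffOn_succ_iff_fderiv_of_isOpen hs]
    refine ⟨fun z hz => (hder z hz).differentiableAt.differentiableWithinAt, ?_, ?_⟩
    · intro h3
      exact absurd h3 (by simp)
    · have h4 : ContDiffOn ℝ k (fun z => Ser r g (D1 φ) z
          + Ser r (fun j t => 1 * r ^ j * f j t) (D2 φ) z) (Ioo (-1) b ×ˢ univ) :=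
        (ih _ r hr g hg2 (D1 φ) (D1_cd hφ) (D1_cs hc)).add
          (ih _ r hr _ (hf0.geom 1 hr) (D2 φ) (D2_cd hφ) (D2_cs hc))
      exact h4.congr fun z hz => (hder z hz).fderiv

end Pool.Agent.Run7.h407
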