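import Mathlib

/-!
Pointwise bounds for the logarithmic drift of the ratios `Y / X` of consecutive modes
of the reduced system.  Here `P, X, Y, Z` are four consecutive modes.
-/

namespace Pool.Agent.Run7.h407

/-- Upper bound for the numerator of the derivative of `Y / X`. -/
theorem drift_upper {Λ K ε d₀ d₁ P X Y Z : ℝ} (hΛ : 1000 ≤ Λ) (hK : 100 * Λ ≤ K)
    (hε : 0 < ε) (hεK : ε * K ≤ 1 / 1000) (hd : d₀ ≤ d₁)
    (hP : 0 ≤ P) (hX : 0 < X) (hY : 0 ≤ Y) (hZ : 0 ≤ Z) (hYX : Y ≤ 8 * Λ * X) :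
    ((-d₁ * Y + X * Y + ε * K * X ^ 2 - ε / K * Y * Z - Z ^ 2 / K ^ 2) * X
      - Y * (-d₀ * X + P * X + ε * K * P ^ 2 - ε / K * X * Y - Y ^ 2 / K ^ 2)) / X ^ 2
      ≤ 1.01 * X * (Y / X + ε * K) := by
  have hK0 : 0 < K := by nlinarith
  have hX2 : 0 < X ^ 2 := by positivity
  rw [div_le_iff₀ hX2]
  have e1 : 1.01 * X * (Y / X + ε * K) * X ^ 2 = 1.01 * X ^ 2 * Y + 1.01 * ε * K * X ^ 3 := by
    field_simp
  rw [e1]
  -- the two small terms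
  have hεs : ε / K ≤ 1 / 1000000 / Λ := by
    rw [div_le_div_iff₀ hK0 (by positivity)]
    have h1 : ε * K ≤ 1 / 1000 := hεK
    have h2 : ε ≤ 1 / 1000 := by nlinarith
    nlinarith
  have h1 : ε / K * X * Y ^ 2 ≤ 8 / 1000000 * (X ^ 2 * Y) := by
    have : ε / K * Y ≤ 8 / 1000000 * X := by
      calc ε / K * Y ≤ (1 / 1000000 / Λ) * (8 * Λ * X) := by
            apply mul_le_mul hεs hYX hY (by positivity)
        _ = 8 / 1000000 * X := by field_simp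
    calc ε / K * X * Y ^ 2 = (ε / K * Y) * (X * Y) := by ring
      _ ≤ (8 / 1000000 * X) * (X * Y) := by
          apply mul_le_mul_of_nonneg_right this (by positivity)
      _ = _ := by ring
  have h2 : Y ^ 3 / K ^ 2 ≤ 64 / 10000 * (X ^ 2 * Y) := by
    have h3 : Y / K ≤ 8 / 100 * X := by
      rw [div_le_iff₀ hK0]
      nlinarith
    have h4 : (Y / K) ^ 2 ≤ (8 / 100 * X) ^ 2 := by
      apply pow_le_pow_left₀ (by positivity) h3
    calc Y ^ 3 / K ^ 2 = (Y / K) ^ 2 * Y := by field_simp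
      _ ≤ (8 / 100 * X) ^ 2 * Y := mul_le_mul_of_nonneg_right h4 hY
      _ = _ := by ring
  have h5 : 0 ≤ (d₁ - d₀) * (X * Y) := mul_nonneg (by linarith) (by positivity)
  have h6 : 0 ≤ ε / K * X * Y * Z := by positivity
  have h7 : 0 ≤ X * Z ^ 2 / K ^ 2 := by positivity
  have h8 : 0 ≤ P * X * Y := by positivity
  have h9 : 0 ≤ ε * K * P ^ 2 * Y := by positivity
  have h10 : 0 ≤ ε * K * X ^ 3 := by positivity
  have e2 : (-d₁ * Y + X * Y + ε * K * X ^ 2 - ε / K * Y * Z - Z ^ 2 / K ^ 2) * X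
      - Y * (-d₀ * X + P * X + ε * K * P ^ 2 - ε / K * X * Y - Y ^ 2 / K ^ 2)
      = -((d₁ - d₀) * (X * Y)) + X ^ 2 * Y + ε * K * X ^ 3 - ε / K * X * Y * Z
        - X * Z ^ 2 / K ^ 2 - P * X * Y - ε * K * P ^ 2 * Y + ε / K * X * Y ^ 2 + Y ^ 3 / K ^ 2 := by
    ring
  rw [e2]
  have h11 : 0 ≤ X ^ 2 * Y := by positivity
  linarith

/-- Lower bound for the derivative of `Y / X` while the next mode `Z` is small and the
mode `X` is fully developed. -/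
theorem drift_lower {Λ K ε d₀ d₁ P X Y Z : ℝ} (hΛ : 1000 ≤ Λ) (hK : 100 * Λ ≤ K)
    (hε : 0 < ε) (hεK : ε * K ≤ 1 / 1000) (hd₀ : 0 ≤ d₀)
    (hP : 0 ≤ P) (hX : 0 < X) (hY : 0 < Y) (hZ : 0 ≤ Z) (hYX : Y ≤ 8 * Λ * X)
    (hd₁ : d₁ ≤ X / 100) (hPX : P ≤ X / 1000) (hZY : Z ≤ Y / 100) :
    0.97 * X * (Y / X + ε * K) ≤
    ((-d₁ * Y + X * Y + ε * K * X ^ 2 - ε / K * Y * Z - Z ^ 2 / K ^ 2) * X
      - Y * (-d₀ * X + P * X + ε * K * P ^ 2 - ε / K * X * Y - Y ^ 2 / K ^ 2)) / X ^ 2 := by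
  have hK0 : 0 < K := by nlinarith
  have hX2 : 0 < X ^ 2 := by positivity
  rw [le_div_iff₀ hX2]
  have e1 : 0.97 * X * (Y / X + ε * K) * X ^ 2 = 0.97 * X ^ 2 * Y + 0.97 * ε * K * X ^ 3 := by
    field_simp
  rw [e1]
  have hεs : ε / K ≤ 1 / 1000000 / Λ := by
    rw [div_le_div_iff₀ hK0 (by positivity)]
    have h1 : ε * K ≤ 1 / 1000 := hεK
    have h2 : ε ≤ 1 / 1000 := by nlinarith
    nlinarith
  have h1 : ε / K * X * Y * Z ≤ 8 / 1000000 * (X ^ 2 * Y) := by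
    have hZ8 : Z ≤ 8 * Λ * X := by linarith
    have : ε / K * Z ≤ 8 / 1000000 * X := by
      calc ε / K * Z ≤ (1 / 1000000 / Λ) * (8 * Λ * X) := by
            apply mul_le_mul hεs hZ8 hZ (by positivity)
        _ = 8 / 1000000 * X := by field_simp
    calc ε / K * X * Y * Z = (ε / K * Z) * (X * Y) := by ring
      _ ≤ (8 / 1000000 * X) * (X * Y) := by
          apply mul_le_mul_of_nonneg_right this (by positivity)
      _ = _ := by ring
  have h2 : X * Z ^ 2 / K ^ 2 ≤ 1 / 1000 * (X ^ 2 * Y) := by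
    have h3 : Y / K ≤ 8 / 100 * X := by
      rw [div_le_iff₀ hK0]
      nlinarith
    have h4 : Z ^ 2 ≤ (Y / 100) ^ 2 := pow_le_pow_left₀ hZ hZY 2
    have h5 : Y / K ^ 2 ≤ X := by
      have : Y / K ^ 2 = (Y / K) / K := by field_simp
      rw [this, div_le_iff₀ hK0]
      nlinarith
    calc X * Z ^ 2 / K ^ 2 ≤ X * (Y / 100) ^ 2 / K ^ 2 := by
            apply div_le_div_of_nonneg_right _ (by positivity)
            exact mul_le_mul_of_nonneg_left h4 hX.le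
      _ = (1 / 10000) * (X * Y) * (Y / K ^ 2) := by ring
      _ ≤ (1 / 10000) * (X * Y) * X := by
            apply mul_le_mul_of_nonneg_left h5 (by positivity)
      _ ≤ _ := by nlinarith [mul_pos (mul_pos hX hX) hY]
  have h3 : d₁ * (X * Y) ≤ 1 / 100 * (X ^ 2 * Y) := by nlinarith [mul_pos hX hY]
  have h4 : P * X * Y ≤ 1 / 1000 * (X ^ 2 * Y) := by
    have := mul_le_mul_of_nonneg_right hPX (mul_pos hX hY).le
    nlinarith
  have h5 : ε * K * P ^ 2 * Y ≤ 1 / 1000 * (X ^ 2 * Y) := by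
    have hP2 : P ^ 2 ≤ X ^ 2 := by
      apply pow_le_pow_left₀ hP
      linarith
    have : ε * K * P ^ 2 ≤ 1 / 1000 * X ^ 2 := by
      apply mul_le_mul hεK hP2 (by positivity) (by positivity)
    calc ε * K * P ^ 2 * Y ≤ (1 / 1000 * X ^ 2) * Y := mul_le_mul_of_nonneg_right this hY.le
      _ = _ := by ring
  have h6 : 0 ≤ d₀ * (X * Y) := by positivity
  have h7 : 0 ≤ ε / K * X * Y ^ 2 := by positivity
  have h8 : 0 ≤ Y ^ 3 / K ^ 2 := by positivity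
  have h10 : 0 ≤ ε * K * X ^ 3 := by positivity
  have e2 : (-d₁ * Y + X * Y + ε * K * X ^ 2 - ε / K * Y * Z - Z ^ 2 / K ^ 2) * X
      - Y * (-d₀ * X + P * X + ε * K * P ^ 2 - ε / K * X * Y - Y ^ 2 / K ^ 2)
      = -(d₁ * (X * Y)) + d₀ * (X * Y) + X ^ 2 * Y + ε * K * X ^ 3 - ε / K * X * Y * Z
        - X * Z ^ 2 / K ^ 2 - P * X * Y - ε * K * P ^ 2 * Y + ε / K * X * Y ^ 2 + Y ^ 3 / K ^ 2 := by
    ring
  rw [e2]
  have h11 : 0 ≤ X ^ 2 * Y := by positivity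
  linarith

/-- Lower bound for the derivative of `Y / X` once `X` is fully developed, when the next mode
is possibly large: only the loss to `Z` counts. -/
theorem drift_keep {Λ K ε d₀ d₁ P X Y Z : ℝ} (hΛ : 1000 ≤ Λ) (hK : 100 * Λ ≤ K)
    (hε : 0 < ε) (hεK : ε * K ≤ 1 / 1000) (hd₀ : 0 ≤ d₀)
    (hP : 0 ≤ P) (hX : 0 < X) (hY : 0 < Y) (hZ : 0 ≤ Z) (hZY : Z ≤ 8 * Λ * Y)
    (hd₁ : d₁ ≤ X / 100) (hPX : P ≤ X / 1000) :
    -(Y / X) * (9 * Λ / K ^ 2 * Z) ≤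
    ((-d₁ * Y + X * Y + ε * K * X ^ 2 - ε / K * Y * Z - Z ^ 2 / K ^ 2) * X
      - Y * (-d₀ * X + P * X + ε * K * P ^ 2 - ε / K * X * Y - Y ^ 2 / K ^ 2)) / X ^ 2 := by
  have hK0 : 0 < K := by nlinarith
  have hX2 : 0 < X ^ 2 := by positivity
  rw [le_div_iff₀ hX2]
  have e1 : -(Y / X) * (9 * Λ / K ^ 2 * Z) * X ^ 2 = -(9 * Λ / K ^ 2 * (X * Y * Z)) := by
    field_simp
  rw [e1]
  have hεs : ε / K ≤ Λ / K ^ 2 := by
    rw [div_le_div_iff₀ hK0 (by positivity)]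
    have : ε * K ^ 2 = (ε * K) * K := by ring
    rw [this]
    nlinarith
  have h1 : ε / K * X * Y * Z ≤ Λ / K ^ 2 * (X * Y * Z) := by
    have := mul_le_mul_of_nonneg_right hεs (show 0 ≤ X * Y * Z by positivity)
    linarith
  have h2 : X * Z ^ 2 / K ^ 2 ≤ 8 * Λ / K ^ 2 * (X * Y * Z) := by
    have : X * Z ^ 2 ≤ 8 * Λ * (X * Y * Z) := by
      have := mul_le_mul_of_nonneg_right hZY (show 0 ≤ X * Z by positivity)
      nlinarith
    calc X * Z ^ 2 / K ^ 2 ≤ (8 * Λ * (X * Y * Z)) / K ^ 2 := by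
          apply div_le_div_of_nonneg_right this (by positivity)
      _ = _ := by ring
  have h3 : d₁ * (X * Y) ≤ 1 / 100 * (X ^ 2 * Y) := by nlinarith [mul_pos hX hY]
  have h4 : P * X * Y ≤ 1 / 1000 * (X ^ 2 * Y) := by
    have := mul_le_mul_of_nonneg_right hPX (mul_pos hX hY).le
    nlinarith
  have h5 : ε * K * P ^ 2 * Y ≤ 1 / 1000 * (X ^ 2 * Y) := by
    have hP2 : P ^ 2 ≤ X ^ 2 := by
      apply pow_le_pow_left₀ hP
      linarith
    have : ε * K * P ^ 2 ≤ 1 / 1000 * X ^ 2 := by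
      apply mul_le_mul hεK hP2 (by positivity) (by positivity)
    calc ε * K * P ^ 2 * Y ≤ (1 / 1000 * X ^ 2) * Y := mul_le_mul_of_nonneg_right this hY.le
      _ = _ := by ring
  have h6 : 0 ≤ d₀ * (X * Y) := by positivity
  have h7 : 0 ≤ ε / K * X * Y ^ 2 := by positivity
  have h8 : 0 ≤ Y ^ 3 / K ^ 2 := by positivity
  have h10 : 0 ≤ ε * K * X ^ 3 := by positivity
  have e2 : (-d₁ * Y + X * Y + ε * K * X ^ 2 - ε / K * Y * Z - Z ^ 2 / K ^ 2) * X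
      - Y * (-d₀ * X + P * X + ε * K * P ^ 2 - ε / K * X * Y - Y ^ 2 / K ^ 2)
      = -(d₁ * (X * Y)) + d₀ * (X * Y) + X ^ 2 * Y + ε * K * X ^ 3 - ε / K * X * Y * Z
        - X * Z ^ 2 / K ^ 2 - P * X * Y - ε * K * P ^ 2 * Y + ε / K * X * Y ^ 2 + Y ^ 3 / K ^ 2 := by
    ring
  rw [e2]
  have h11 : 0 ≤ X ^ 2 * Y := by positivity
  have e3 : 9 * Λ / K ^ 2 * (X * Y * Z) = Λ / K ^ 2 * (X * Y * Z) + 8 * Λ / K ^ 2 * (X * Y * Z) := by
    ring
  linarith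

end Pool.Agent.Run7.h407
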