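import Mathlib
import Pool.Agent.Run7.h407.Mono
import Pool.Agent.Run7.h407.Drift

/-!
A priori estimates for the (truncated) reduced system
`a_i' = -d Λ^i a_i + a_{i-1} a_i + ε K a_{i-1}^2 - (ε/K) a_i a_{i+1} - a_{i+1}^2 / K^2`,
`0 ≤ i ≤ N`, `a_{-1} = 0`, `a_{N+1} = 0`.  We write `A (i+1) = a_i` and `A 0 = 0`.
-/

namespace Pool.Agent.Run7.h407

open Set Filter Topology

/-- Parameters of the reduced system, with the inequalities used in the analysis. -/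
structure Par where
  Λ : ℝ
  K : ℝ
  ε : ℝ
  d : ℝ
  a0 : ℝ
  hΛ : 1000 ≤ Λ
  hK : 100 * Λ ≤ K
  hε : 0 < ε
  hεK : ε * K ≤ 1 / 1000
  hd : 0 ≤ d
  ha0 : 0 < a0
  hda : 200 * d * Λ ≤ a0
  hexp1 : 2 * Λ + ε * K ≤ ε * K * Real.exp (4 * Λ)
  hexp2 : 4 * (ε * K) * Real.exp (2.3 * Λ) ≤ 1 / 100

namespace Par

variable (p : Par)

/-- The time interval on which the truncated systems are considered. -/
noncomputable def T : ℝ := 10 * p.Λ / p.a0

theorem Λpos : 0 < p.Λ := by linarith [p.hΛ]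

theorem Kpos : 0 < p.K := by nlinarith [p.hΛ, p.hK]

theorem εKpos : 0 < p.ε * p.K := mul_pos p.hε p.Kpos

theorem Tpos : 0 < p.T := by
  have := p.Λpos
  have := p.ha0
  unfold T
  positivity

end Par

/-- Right-hand side of the `i`-th equation. -/
noncomputable def rhs (p : Par) (A : ℕ → ℝ → ℝ) (i : ℕ) (t : ℝ) : ℝ :=
  -(p.d * p.Λ ^ i) * A (i + 1) t + A i t * A (i + 1) t + p.ε * p.K * A i t ^ 2
    - p.ε / p.K * A (i + 1) t * A (i + 2) t - A (i + 2) t ^ 2 / p.K ^ 2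

/-- Solutions of the truncated system together with the primitives `Φ j` of `A j`. -/
structure TSys (p : Par) (N : ℕ) (A Φ : ℕ → ℝ → ℝ) : Prop where
  zero : ∀ t, A 0 t = 0
  top : ∀ j t, N + 2 ≤ j → A j t = 0
  ode : ∀ i ≤ N, ∀ t ∈ Icc 0 p.T, HasDerivAt (A (i + 1)) (rhs p A i t) t
  phi : ∀ j, ∀ t ∈ Icc 0 p.T, HasDerivAt (Φ j) (A j t) t
  phi0 : ∀ j, Φ j 0 = 0
  init0 : A 1 0 = p.a0
  initp : ∀ i ≤ N, 0 < A (i + 1) 0
  initq : ∀ k, A (k + 2) 0 ≤ p.ε * p.K * (1 / 100) ^ k * A (k + 1) 0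

/-- The first time at which `A (i+1) ≥ 2 Λ A i` (or `T` if there is none). -/
noncomputable def tau (p : Par) (A : ℕ → ℝ → ℝ) (i : ℕ) : ℝ :=
  sInf ({r | r ∈ Icc 0 p.T ∧ 2 * p.Λ * A i r ≤ A (i + 1) r} ∪ {p.T})

namespace TSys

variable {p : Par} {N : ℕ} {A Φ : ℕ → ℝ → ℝ}

theorem cont (h : TSys p N A Φ) (j : ℕ) : ContinuousOn (A j) (Icc 0 p.T) := by
  rcases Nat.eq_zero_or_pos j with hj | hj
  · subst hj
    have : A 0 = fun _ => 0 := funext h.zero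
    rw [this]
    exact continuousOn_const
  · obtain ⟨i, rfl⟩ : ∃ i, j = i + 1 := ⟨j - 1, by omega⟩
    by_cases hi : i ≤ N
    · intro x hx
      exact (h.ode i hi x hx).continuousAt.continuousWithinAt
    · have : A (i + 1) = fun _ => 0 := funext fun t => h.top (i + 1) t (by omega)
      rw [this]
      exact continuousOn_const

theorem tau_set_closed (h : TSys p N A Φ) (i : ℕ) :
    IsClosed ({r | r ∈ Icc 0 p.T ∧ 2 * p.Λ * A i r ≤ A (i + 1) r} ∪ {p.T}) := by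
  apply IsClosed.union _ isClosed_singleton
  exact isClosed_Icc.isClosed_le (continuousOn_const.mul (h.cont i)) (h.cont (i + 1))

theorem tau_bdd (i : ℕ) :
    BddBelow ({r | r ∈ Icc 0 p.T ∧ 2 * p.Λ * A i r ≤ A (i + 1) r} ∪ {p.T}) := by
  refine ⟨0, ?_⟩
  rintro r (hr | hr)
  · exact hr.1.1
  · rw [mem_singleton_iff.1 hr]
    exact p.Tpos.le

theorem tau_nonneg (i : ℕ) : 0 ≤ tau p A i := by
  apply le_csInf ⟨p.T, Or.inr rfl⟩
  rintro r (hr | hr)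
  · exact hr.1.1
  · rw [mem_singleton_iff.1 hr]
    exact p.Tpos.le

theorem tau_le (i : ℕ) : tau p A i ≤ p.T :=
  csInf_le (tau_bdd i) (Or.inr rfl)

theorem lt_of_lt_tau {i : ℕ} {r : ℝ} (hr : 0 ≤ r) (hrt : r < tau p A i) :
    A (i + 1) r < 2 * p.Λ * A i r := by
  by_contra hcon
  push Not at hcon
  have : tau p A i ≤ r :=
    csInf_le (tau_bdd i) (Or.inl ⟨⟨hr, (hrt.trans_le (tau_le i)).le⟩, hcon⟩)
  linarith

theorem tau_att (h : TSys p N A Φ) {i : ℕ} (hi : tau p A i < p.T) :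
    2 * p.Λ * A i (tau p A i) ≤ A (i + 1) (tau p A i) := by
  have hmem := (h.tau_set_closed i).csInf_mem ⟨p.T, Or.inr rfl⟩ (tau_bdd i)
  rcases hmem with hm | hm
  · exact hm.2
  · exact absurd (mem_singleton_iff.1 hm) hi.ne

theorem tau_zero (h : TSys p N A Φ) : tau p A 0 = 0 := by
  apply le_antisymm _ (tau_nonneg 0)
  apply csInf_le (tau_bdd 0)
  left
  refine ⟨⟨le_rfl, p.Tpos.le⟩, ?_⟩
  rw [h.zero, mul_zero]
  exact (h.initp 0 (Nat.zero_le _)).le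

end TSys

/-- The facts that hold up to time `t` and drive the bootstrap. -/
structure Reg (p : Par) (N : ℕ) (A : ℕ → ℝ → ℝ) (t : ℝ) : Prop where
  t0 : 0 ≤ t
  tT : t ≤ p.T
  pos : ∀ s ∈ Icc 0 t, ∀ i ≤ N, 0 < A (i + 1) s
  low : ∀ s ∈ Icc 0 t, ∀ i ≤ N, tau p A i < s → p.Λ * A i s ≤ A (i + 1) s
  up : ∀ s ∈ Icc 0 t, ∀ k, A (k + 2) s ≤ 8 * p.Λ * A (k + 1) s
  tail : ∀ s ∈ Icc 0 t, ∀ k, s < tau p A k → A (k + 2) s ≤ 1 / 100 * A (k + 1) s
  a0 : ∀ s ∈ Icc 0 t, p.a0 / 2 ≤ A 1 s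

namespace Reg

variable {p : Par} {N : ℕ} {A Φ : ℕ → ℝ → ℝ} {t : ℝ}

theorem nonneg (h : TSys p N A Φ) (hR : Reg p N A t) {s : ℝ} (hs : s ∈ Icc 0 t) (j : ℕ) :
    0 ≤ A j s := by
  rcases Nat.eq_zero_or_pos j with hj | hj
  · subst hj
    rw [h.zero]
  · obtain ⟨i, rfl⟩ : ∃ i, j = i + 1 := ⟨j - 1, by omega⟩
    by_cases hi : i ≤ N
    · exact (hR.pos s hs i hi).le
    · rw [h.top (i + 1) s (by omega)]

theorem memT (hR : Reg p N A t) {s : ℝ} (hs : s ∈ Icc 0 t) : s ∈ Icc 0 p.T :=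
  ⟨hs.1, hs.2.trans hR.tT⟩

theorem tau_le_succ' (h : TSys p N A Φ) (hR : Reg p N A t) {i : ℕ} (hi : i + 1 ≤ N)
    (hts : tau p A (i + 1) ≤ t) : tau p A i ≤ tau p A (i + 1) := by
  by_contra hcon
  push Not at hcon
  have hr : tau p A (i + 1) ∈ Icc 0 t := ⟨TSys.tau_nonneg _, hts⟩
  have h1 := hR.tail _ hr i hcon
  have h2 := h.tau_att (i := i + 1) (hcon.trans_le (TSys.tau_le i))
  have h3 := hR.pos _ hr i (by omega)
  have h4 := p.hΛ
  nlinarith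

theorem tau_le_succ (h : TSys p N A Φ) (hR : Reg p N A t) {i : ℕ} (hi : i + 1 ≤ N) {s : ℝ}
    (hs : s ∈ Icc 0 t) (hts : tau p A (i + 1) < s) : tau p A i ≤ tau p A (i + 1) :=
  tau_le_succ' h hR hi (hts.le.trans hs.2)

theorem tau_lt_of (h : TSys p N A Φ) (hR : Reg p N A t) {i : ℕ} (hi : i + 1 ≤ N) {s : ℝ}
    (hs : s ∈ Icc 0 t) (hts : tau p A (i + 1) < s) : tau p A i < s :=
  (tau_le_succ h hR hi hs hts).trans_lt hts

theorem size (h : TSys p N A Φ) (hR : Reg p N A t) {j : ℕ} (hj : j ≤ N) {s : ℝ}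
    (hs : s ∈ Icc 0 t) (hts : tau p A j < s) : p.a0 / 2 * p.Λ ^ j ≤ A (j + 1) s := by
  induction j with
  | zero => simpa using hR.a0 s hs
  | succ j ih =>
    have h1 := ih (by omega) (tau_lt_of h hR hj hs hts)
    have h2 := hR.low s hs (j + 1) hj hts
    have h3 := p.hΛ
    calc p.a0 / 2 * p.Λ ^ (j + 1) = p.Λ * (p.a0 / 2 * p.Λ ^ j) := by ring
      _ ≤ p.Λ * A (j + 1) s := mul_le_mul_of_nonneg_left h1 p.Λpos.le
      _ ≤ _ := h2

theorem bracket (h : TSys p N A Φ) (hR : Reg p N A t) {k : ℕ} (hk : k ≤ N) {s : ℝ}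
    (hs : s ∈ Icc 0 t) (hts : tau p A k < s) :
    p.d * p.Λ ^ (k + 1) ≤ A (k + 1) s / 100 ∧ A k s ≤ A (k + 1) s / 1000 := by
  have h1 := size h hR hk hs hts
  have h2 := hR.low s hs k hk hts
  have h3 := p.hΛ
  have h4 := p.hda
  have h5 : 0 < p.Λ ^ k := pow_pos p.Λpos k
  constructor
  · have : p.d * p.Λ ^ (k + 1) = (p.d * p.Λ) * p.Λ ^ k := by ring
    rw [this]
    have : (p.d * p.Λ) * p.Λ ^ k ≤ (p.a0 / 200) * p.Λ ^ k := by
      apply mul_le_mul_of_nonneg_right _ h5.le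
      linarith
    linarith
  · have := nonneg h hR hs k
    nlinarith

/-- Derivative of the ratio of two consecutive modes. -/
theorem ratio_deriv (h : TSys p N A Φ) (hR : Reg p N A t) {k : ℕ} (hk : k + 1 ≤ N) {s : ℝ}
    (hs : s ∈ Icc 0 t) :
    HasDerivAt (fun r => A (k + 2) r / A (k + 1) r)
      ((rhs p A (k + 1) s * A (k + 1) s - A (k + 2) s * rhs p A k s) / A (k + 1) s ^ 2) s :=
  (h.ode (k + 1) hk s (hR.memT hs)).div (h.ode k (by omega) s (hR.memT hs))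
    (hR.pos s hs k (by omega)).ne'

theorem ratio_upper (h : TSys p N A Φ) (hR : Reg p N A t) {k : ℕ} (hk : k + 1 ≤ N) {s : ℝ}
    (hs : s ∈ Icc 0 t) :
    (rhs p A (k + 1) s * A (k + 1) s - A (k + 2) s * rhs p A k s) / A (k + 1) s ^ 2
      ≤ 1.01 * A (k + 1) s * (A (k + 2) s / A (k + 1) s + p.ε * p.K) := by
  unfold rhs
  apply drift_upper p.hΛ p.hK p.hε p.hεK _ (nonneg h hR hs _) (hR.pos s hs k (by omega))
    (nonneg h hR hs _) (nonneg h hR hs _) (hR.up s hs k)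
  apply mul_le_mul_of_nonneg_left _ p.hd
  apply pow_le_pow_right₀ _ (by omega)
  linarith [p.hΛ]

theorem ratio_lower (h : TSys p N A Φ) (hR : Reg p N A t) {k : ℕ} (hk : k + 1 ≤ N) {s : ℝ}
    (hs : s ∈ Icc 0 t) (h1 : tau p A k < s) (h2 : s < tau p A (k + 1)) :
    0.97 * A (k + 1) s * (A (k + 2) s / A (k + 1) s + p.ε * p.K) ≤
    (rhs p A (k + 1) s * A (k + 1) s - A (k + 2) s * rhs p A k s) / A (k + 1) s ^ 2 := by
  have hb := bracket h hR (k := k) (by omega) hs h1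
  unfold rhs
  apply drift_lower p.hΛ p.hK p.hε p.hεK _ (nonneg h hR hs _) (hR.pos s hs k (by omega))
    (hR.pos s hs (k + 1) hk) (nonneg h hR hs _) (hR.up s hs k) hb.1 hb.2
  · have := hR.tail s hs (k + 1) h2
    simpa [div_eq_inv_mul] using this
  · exact mul_nonneg p.hd (pow_nonneg p.Λpos.le _)

theorem ratio_keep (h : TSys p N A Φ) (hR : Reg p N A t) {k : ℕ} (hk : k + 1 ≤ N) {s : ℝ}
    (hs : s ∈ Icc 0 t) (h1 : tau p A k < s) :
    -(A (k + 2) s / A (k + 1) s) * (9 * p.Λ / p.K ^ 2 * A (k + 3) s) ≤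
    (rhs p A (k + 1) s * A (k + 1) s - A (k + 2) s * rhs p A k s) / A (k + 1) s ^ 2 := by
  have hb := bracket h hR (k := k) (by omega) hs h1
  unfold rhs
  apply drift_keep p.hΛ p.hK p.hε p.hεK _ (nonneg h hR hs _) (hR.pos s hs k (by omega))
    (hR.pos s hs (k + 1) hk) (nonneg h hR hs _) (hR.up s hs (k + 1)) hb.1 hb.2
  exact mul_nonneg p.hd (pow_nonneg p.Λpos.le _)

end Reg

end Pool.Agent.Run7.h407
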