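import Mathlib
import Pool.Agent.Run7.h407.Apriori3

/-!
The continuity argument: all the bounds of `Reg` hold up to time `tau N`, and
`tau N < T`.
-/

namespace Pool.Agent.Run7.h407

open Set Filter Topology

/-- The closed conditions of the continuity argument. -/
structure Good (p : Par) (N : ℕ) (A : ℕ → ℝ → ℝ) (s : ℝ) : Prop where
  pos : ∀ i ≤ N, A (i + 1) 0 * Real.exp (-(p.d * p.Λ ^ i * p.T) - 1 / 100) / 2 ≤ A (i + 1) s
  low : ∀ i ≤ N, s ≤ tau p A i ∨ p.Λ * A i s ≤ A (i + 1) s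
  up : ∀ k, k + 1 ≤ N → A (k + 2) s ≤ 8 * p.Λ * A (k + 1) s
  tail : ∀ k, k + 1 ≤ N → tau p A k ≤ s ∨ A (k + 2) s ≤ 1 / 100 * A (k + 1) s
  a0 : p.a0 / 2 ≤ A 1 s

variable {p : Par} {N : ℕ} {A Φ : ℕ → ℝ → ℝ}

theorem Good.posit (h : TSys p N A Φ) {s : ℝ} (hg : Good p N A s) {i : ℕ} (hi : i ≤ N) :
    0 < A (i + 1) s := by
  have h1 := hg.pos i hi
  have h2 := h.initp i hi
  have h3 := Real.exp_pos (-(p.d * p.Λ ^ i * p.T) - 1 / 100)
  have h4 := mul_pos h2 h3
  linarith

theorem Reg.of_good (h : TSys p N A Φ) {t : ℝ} (h0 : 0 ≤ t) (hT : t ≤ p.T)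
    (hg : ∀ s ∈ Icc 0 t, Good p N A s) : Reg p N A t where
  t0 := h0
  tT := hT
  pos := fun s hs i hi => (hg s hs).posit h hi
  low := fun s hs i hi hts => by
    rcases (hg s hs).low i hi with h1 | h1
    · linarith
    · exact h1
  up := fun s hs k => by
    by_cases hk : k + 1 ≤ N
    · exact (hg s hs).up k hk
    · rw [h.top (k + 2) s (by omega)]
      have hΛ := p.Λpos
      have : 0 ≤ A (k + 1) s := by
        by_cases hk' : k ≤ N
        · exact ((hg s hs).posit h hk').le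
        · rw [h.top (k + 1) s (by omega)]
      positivity
  tail := fun s hs k hk => by
    by_cases hk' : k + 1 ≤ N
    · rcases (hg s hs).tail k hk' with h1 | h1
      · linarith
      · exact h1
    · rw [h.top (k + 2) s (by omega)]
      have : 0 ≤ A (k + 1) s := by
        by_cases hk'' : k ≤ N
        · exact ((hg s hs).posit h hk'').le
        · rw [h.top (k + 1) s (by omega)]
      positivity
  a0 := fun s hs => (hg s hs).a0

/-- Closedness of the good set at the right end. -/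
theorem Good.closed (h : TSys p N A Φ) {b : ℝ} (hb : 0 < b) (hbT : b ≤ p.T)
    (hg : ∀ s ∈ Ico 0 b, Good p N A s) : Good p N A b := by
  have hc : ∀ j, ContinuousOn (A j) (Icc 0 b) := fun j =>
    (h.cont j).mono (Icc_subset_Icc_right hbT)
  have hc' : ∀ j a, 0 ≤ a → ContinuousOn (A j) (Icc a b) := fun j a ha =>
    (hc j).mono (Icc_subset_Icc_left ha)
  constructor
  · intro i hi
    exact closed_at_end hb continuousOn_const (hc _) (fun x hx => (hg x hx).pos i hi)
  · intro i hi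
    rcases le_or_gt b (tau p A i) with h1 | h1
    · exact Or.inl h1
    · right
      have h2 : (tau p A i + b) / 2 < b := by linarith
      have h3 : tau p A i < (tau p A i + b) / 2 := by linarith
      have h4 : 0 ≤ tau p A i := TSys.tau_nonneg i
      apply closed_at_end h2 (continuousOn_const.mul (hc' _ _ (by linarith)))
        (hc' _ _ (by linarith))
      intro x hx
      rcases (hg x ⟨by linarith [hx.1], hx.2⟩).low i hi with h5 | h5
      · linarith [hx.1]
      · exact h5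
  · intro k hk
    exact closed_at_end hb (hc _) (continuousOn_const.mul (hc _)) (fun x hx => (hg x hx).up k hk)
  · intro k hk
    rcases le_or_gt (tau p A k) b with h1 | h1
    · exact Or.inl h1
    · right
      apply closed_at_end hb (hc _) (continuousOn_const.mul (hc _))
      intro x hx
      rcases (hg x hx).tail k hk with h5 | h5
      · linarith [hx.2]
      · exact h5
  · exact closed_at_end hb continuousOn_const (hc _) (fun x hx => (hg x hx).a0)

theorem Good.zero (h : TSys p N A Φ) : Good p N A 0 := by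
  have hεK := p.εKpos
  have hq : ∀ k, k + 1 ≤ N → A (k + 2) 0 ≤ 1 / 100 * A (k + 1) 0 := fun k hk => by
    have h1 := h.initq k
    have h2 := h.initp k (by omega)
    have h3 : ((1 : ℝ) / 100) ^ k ≤ 1 := pow_le_one₀ (by norm_num) (by norm_num)
    have h4 := p.hεK
    have h6 : (0 : ℝ) ≤ (1 / 100) ^ k := by positivity
    have h5 : p.ε * p.K * (1 / 100) ^ k ≤ 1 / 100 := by nlinarith
    exact h1.trans (mul_le_mul_of_nonneg_right h5 h2.le)
  constructor
  · intro i hi
    have h2 := h.initp i hi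
    have h3 : Real.exp (-(p.d * p.Λ ^ i * p.T) - 1 / 100) ≤ 1 := by
      apply Real.exp_le_one_iff.2
      have : 0 ≤ p.d * p.Λ ^ i * p.T :=
        mul_nonneg (mul_nonneg p.hd (pow_nonneg p.Λpos.le _)) p.Tpos.le
      linarith
    have h4 := mul_le_mul_of_nonneg_left h3 h2.le
    linarith
  · intro i hi
    exact Or.inl (TSys.tau_nonneg i)
  · intro k hk
    have h1 := hq k hk
    have h2 := h.initp k (by omega)
    have h3 := p.hΛ
    nlinarith
  · intro k hk
    exact Or.inr (hq k hk)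
  · rw [h.init0]
    linarith [p.ha0]

theorem contAt (h : TSys p N A Φ) (j : ℕ) {t : ℝ} (ht : t ∈ Icc 0 p.T) : ContinuousAt (A j) t := by
  rcases Nat.eq_zero_or_pos j with hj | hj
  · subst hj
    have : A 0 = fun _ => 0 := funext h.zero
    rw [this]
    exact continuousAt_const
  · obtain ⟨i, rfl⟩ : ∃ i, j = i + 1 := ⟨j - 1, by omega⟩
    by_cases hi : i ≤ N
    · exact (h.ode i hi t ht).continuousAt
    · have : A (i + 1) = fun _ => 0 := funext fun t => h.top (i + 1) t (by omega)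
      rw [this]
      exact continuousAt_const

/-- Openness of the good set to the right, while `t < tau N`. -/
theorem Good.extend (h : TSys p N A Φ) {t : ℝ} (hR : Reg p N A t) (htN : t < tau p A N) :
    ∀ᶠ s in 𝓝[>] t, Good p N A s := by
  have htT : t < p.T := htN.trans_le (TSys.tau_le N)
  have htm : t ∈ Icc 0 p.T := ⟨hR.t0, htT.le⟩
  have hA : ∀ j, Tendsto (A j) (𝓝[>] t) (𝓝 (A j t)) := fun j =>
    (contAt h j htm).tendsto.mono_left nhdsWithin_le_nhds
  have hts : ∀ᶠ s in 𝓝[>] t, t < s := self_mem_nhdsWithin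
  have hid : Tendsto (fun s : ℝ => s) (𝓝[>] t) (𝓝 t) := tendsto_id.mono_left nhdsWithin_le_nhds
  have hΛ := p.Λpos
  have hpos : ∀ i ≤ N, 0 < A (i + 1) t := fun i hi => hR.pos t ⟨hR.t0, le_rfl⟩ i hi
  have e1 : ∀ᶠ s in 𝓝[>] t, ∀ i ∈ {i | i ≤ N},
      A (i + 1) 0 * Real.exp (-(p.d * p.Λ ^ i * p.T) - 1 / 100) / 2 ≤ A (i + 1) s := by
    rw [Filter.eventually_all_finite (Set.finite_le_nat N)]
    intro i hi
    have h1 := Reg.pos_plus h hR htN.le hi
    have h2 := mul_pos (h.initp i hi) (Real.exp_pos (-(p.d * p.Λ ^ i * p.T) - 1 / 100))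
    have h3 : A (i + 1) 0 * Real.exp (-(p.d * p.Λ ^ i * p.T) - 1 / 100) / 2 < A (i + 1) t := by
      linarith
    exact ((hA (i + 1)).eventually (lt_mem_nhds h3)).mono fun s hs => hs.le
  have e2 : ∀ᶠ s in 𝓝[>] t, ∀ i ∈ {i | i ≤ N},
      (s ≤ tau p A i ∨ p.Λ * A i s ≤ A (i + 1) s) := by
    rw [Filter.eventually_all_finite (Set.finite_le_nat N)]
    intro i hi
    rcases lt_or_ge t (tau p A i) with h1 | h1
    · exact (hid.eventually (gt_mem_nhds h1)).mono fun s hs => Or.inl hs.le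
    · have h3 : p.Λ * A i t < A (i + 1) t := by
        rcases Nat.eq_zero_or_pos i with hi0 | hi0
        · subst hi0
          rw [h.zero, mul_zero]
          exact hpos 0 (Nat.zero_le _)
        · obtain ⟨k, rfl⟩ : ∃ k, i = k + 1 := ⟨i - 1, by omega⟩
          have h4 := Reg.low_plus h hR htN.le hi h1 htT
          have h5 := hpos k (by have hi' : k + 1 ≤ N := hi; omega)
          have h6 := mul_pos hΛ h5
          linarith
      have h4 : Tendsto (fun s => p.Λ * A i s) (𝓝[>] t) (𝓝 (p.Λ * A i t)) :=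
        (hA i).const_mul _
      exact (h4.eventually_lt (hA (i + 1)) h3).mono fun s hs => Or.inr hs.le
  have e3 : ∀ᶠ s in 𝓝[>] t, ∀ k ∈ {k | k ≤ N},
      (k + 1 ≤ N → A (k + 2) s ≤ 8 * p.Λ * A (k + 1) s) := by
    rw [Filter.eventually_all_finite (Set.finite_le_nat N)]
    intro k hk'
    by_cases hk : k + 1 ≤ N
    · have h1 := Reg.up_plus h hR htN.le hk
      have h2 := mul_pos hΛ (hpos k (by omega))
      have h3 : A (k + 2) t < 8 * p.Λ * A (k + 1) t := by linarith
      exact ((hA (k + 2)).eventually_lt ((hA (k + 1)).const_mul _) h3).mono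
        fun s hs _ => hs.le
    · exact Eventually.of_forall fun s h' => absurd h' hk
  have e4 : ∀ᶠ s in 𝓝[>] t, ∀ k ∈ {k | k ≤ N},
      (k + 1 ≤ N → (tau p A k ≤ s ∨ A (k + 2) s ≤ 1 / 100 * A (k + 1) s)) := by
    rw [Filter.eventually_all_finite (Set.finite_le_nat N)]
    intro k hk'
    by_cases hk : k + 1 ≤ N
    · rcases le_or_gt (tau p A k) t with h1 | h1
      · exact hts.mono fun s hs _ => Or.inl (h1.trans hs.le)
      · have h2 := Reg.tail_plus h hR hk h1.le
        have h4 := hpos k (by omega)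
        have h3 : A (k + 2) t < 1 / 100 * A (k + 1) t := by linarith
        exact ((hA (k + 2)).eventually_lt ((hA (k + 1)).const_mul _) h3).mono
          fun s hs _ => Or.inr hs.le
    · exact Eventually.of_forall fun s h' => absurd h' hk
  have e5 : ∀ᶠ s in 𝓝[>] t, p.a0 / 2 ≤ A 1 s := by
    have h1 := Reg.a0_plus h hR htN.le
    have h2 := p.ha0
    have h3 : p.a0 / 2 < A 1 t := by linarith
    exact ((hA 1).eventually (lt_mem_nhds h3)).mono fun s hs => hs.le
  filter_upwards [e1, e2, e3, e4, e5] with s s1 s2 s3 s4 s5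
  exact ⟨s1, s2, fun k hk => s3 k (show k ≤ N by omega) hk,
    fun k hk => s4 k (show k ≤ N by omega) hk, s5⟩

/-- The good conditions hold up to `tau N`. -/
theorem good_all (h : TSys p N A Φ) : ∀ s ∈ Icc 0 (tau p A N), Good p N A s := by
  set b := tau p A N with hb
  have hb0 : 0 ≤ b := TSys.tau_nonneg N
  have hbT : b ≤ p.T := TSys.tau_le N
  set S : Set ℝ := {s | s ∈ Icc 0 b ∧ ∀ r ∈ Icc 0 s, Good p N A r} with hS
  have h0S : (0 : ℝ) ∈ S := by
    refine ⟨⟨le_rfl, hb0⟩, ?_⟩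
    intro r hr
    have : r = 0 := le_antisymm hr.2 hr.1
    rw [this]
    exact Good.zero h
  have hbdd : BddAbove S := ⟨b, fun s hs => hs.1.2⟩
  set c := sSup S with hc
  have hc0 : 0 ≤ c := le_csSup hbdd h0S
  have hcb : c ≤ b := csSup_le ⟨0, h0S⟩ fun s hs => hs.1.2
  have hlt : ∀ r ∈ Ico 0 c, Good p N A r := by
    intro r hr
    obtain ⟨s, hs, hrs⟩ := exists_lt_of_lt_csSup ⟨0, h0S⟩ hr.2
    exact hs.2 r ⟨hr.1, hrs.le⟩
  have hcg : Good p N A c := by
    rcases hc0.eq_or_lt with he | hl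
    · rw [← he]
      exact Good.zero h
    · exact Good.closed h hl (hcb.trans hbT) hlt
  have hle : ∀ r ∈ Icc 0 c, Good p N A r := by
    intro r hr
    rcases hr.2.eq_or_lt with he | hl
    · rw [he]
      exact hcg
    · exact hlt r ⟨hr.1, hl⟩
  have hcb' : c = b := by
    by_contra hne
    have hcb2 : c < b := lt_of_le_of_ne hcb hne
    have hR := Reg.of_good h hc0 (hcb.trans hbT) hle
    have hev := Good.extend h hR hcb2
    have hev2 : ∀ᶠ s in 𝓝[>] c, s < b :=
      (tendsto_id.mono_left nhdsWithin_le_nhds : Tendsto (fun s : ℝ => s) (𝓝[>] c) (𝓝 c)).eventually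
        (gt_mem_nhds hcb2)
    obtain ⟨u, hu, hsub⟩ := (mem_nhdsGT_iff_exists_Ioo_subset).1 (hev.and hev2)
    have hcu : c < u := hu
    have hm : (c + u) / 2 ∈ Ioo c u := ⟨by linarith, by linarith⟩
    have hmS : (c + u) / 2 ∈ S := by
      refine ⟨⟨by linarith, (hsub hm).2.le⟩, ?_⟩
      intro r hr
      rcases le_or_gt r c with h1 | h1
      · exact hle r ⟨hr.1, h1⟩
      · exact (hsub ⟨h1, by linarith [hr.2]⟩).1
    have := le_csSup hbdd hmS
    linarith
  intro s hs
  exact hle s (by rw [hcb']; exact hs)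

theorem reg_all (h : TSys p N A Φ) : Reg p N A (tau p A N) :=
  Reg.of_good h (TSys.tau_nonneg N) (TSys.tau_le N) (good_all h)

theorem tau_le_tauN (h : TSys p N A Φ) (m : ℕ) : ∀ k, k + m = N → tau p A k ≤ tau p A N := by
  induction m with
  | zero =>
    intro k hk
    have : k = N := by omega
    rw [this]
  | succ m ih =>
    intro k hk
    have h1 := ih (k + 1) (by omega)
    exact (Reg.tau_le_succ' h (reg_all h) (by omega) h1).trans h1

theorem tau_mono_succ (h : TSys p N A Φ) {k : ℕ} (hk : k + 1 ≤ N) :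
    tau p A k ≤ tau p A (k + 1) :=
  Reg.tau_le_succ' h (reg_all h) hk (tau_le_tauN h (N - (k + 1)) (k + 1) (by omega))

theorem tau_mono (h : TSys p N A Φ) {k l : ℕ} (hkl : k ≤ l) (hl : l ≤ N) :
    tau p A k ≤ tau p A l := by
  induction l with
  | zero =>
    have : k = 0 := by omega
    rw [this]
  | succ l ih =>
    rcases Nat.eq_or_lt_of_le hkl with he | hlt
    · rw [he]
    · exact (ih (by omega) (by omega)).trans (tau_mono_succ h hl)

/-- Duration of the stages. -/
theorem tau_step (h : TSys p N A Φ) {k : ℕ} (hk : k + 1 ≤ N) :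
    tau p A (k + 1) - tau p A k ≤ 8.26 * p.Λ / (p.a0 * p.Λ ^ k) := by
  have hR := reg_all h
  have hΛ := p.Λpos
  have ha0 := p.ha0
  have h1 := tau_mono_succ h hk
  have h2 := tau_mono h hk le_rfl
  have h3 := Reg.growth_driver h hR hk le_rfl h1 h2 le_rfl
  have h0 : 0 ≤ tau p A k := TSys.tau_nonneg k
  have hsub : ∀ x ∈ Icc (tau p A k) (tau p A (k + 1)), x ∈ Icc 0 (tau p A N) :=
    fun x hx => ⟨h0.trans hx.1, hx.2.trans h2⟩
  have key := incr_le (f := fun x => p.a0 / 2 * p.Λ ^ k * x)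
    (f' := fun _ => p.a0 / 2 * p.Λ ^ k * 1)
    (g := fun x => Φ (k + 1) x) (g' := fun x => A (k + 1) x) h1
    (fun x _ => (hasDerivAt_id x).const_mul _)
    (fun x hx => h.phi _ x (hR.memT (hsub x hx)))
    (fun x hx => by
      rw [mul_one]
      exact Reg.size h hR (by omega) (hsub x (Ioo_subset_Icc_self hx)) hx.1)
  rw [le_div_iff₀ (by positivity)]
  have h4 : p.a0 / 2 * p.Λ ^ k * (tau p A (k + 1) - tau p A k) ≤ 4.13 * p.Λ := by
    linarith
  linarith

theorem tau_bound (h : TSys p N A Φ) {k : ℕ} (hk : k ≤ N) :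
    tau p A k ≤ 8.3 * p.Λ / p.a0 * (1 - 1 / p.Λ ^ k) := by
  have hΛ := p.Λpos
  have ha0 := p.ha0
  induction k with
  | zero =>
    rw [h.tau_zero]
    simp
  | succ k ih =>
    have h1 := tau_step h hk
    have h2 := ih (by omega)
    have h3 : 8.26 * p.Λ / (p.a0 * p.Λ ^ k)
        ≤ 8.3 * p.Λ / p.a0 * (1 / p.Λ ^ k - 1 / p.Λ ^ (k + 1)) := by
      have e : 8.3 * p.Λ / p.a0 * (1 / p.Λ ^ k - 1 / p.Λ ^ (k + 1))
          = 8.3 * (p.Λ - 1) / (p.a0 * p.Λ ^ k) := by
        field_simp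
        ring
      rw [e]
      apply div_le_div_of_nonneg_right _ (by positivity)
      linarith [p.hΛ]
    have e2 : 8.3 * p.Λ / p.a0 * (1 - 1 / p.Λ ^ (k + 1))
        = 8.3 * p.Λ / p.a0 * (1 - 1 / p.Λ ^ k)
          + 8.3 * p.Λ / p.a0 * (1 / p.Λ ^ k - 1 / p.Λ ^ (k + 1)) := by ring
    rw [e2]
    linarith

theorem tau_le_nine (h : TSys p N A Φ) {k : ℕ} (hk : k ≤ N) :
    tau p A k ≤ 9 * p.Λ / p.a0 := by
  have hΛ := p.Λpos
  have ha0 := p.ha0
  refine (tau_bound h hk).trans ?_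
  have h1 : 0 < 1 / p.Λ ^ k := by positivity
  have h2 : 0 < p.Λ / p.a0 := by positivity
  have e1 : 8.3 * p.Λ / p.a0 * (1 - 1 / p.Λ ^ k) = 8.3 * (p.Λ / p.a0) * (1 - 1 / p.Λ ^ k) := by
    ring
  have e2 : 9 * p.Λ / p.a0 = 9 * (p.Λ / p.a0) := by ring
  rw [e1, e2]
  nlinarith [mul_pos h2 h1]

theorem tau_lt_T (h : TSys p N A Φ) {k : ℕ} (hk : k ≤ N) : tau p A k < p.T := by
  refine (tau_le_nine h hk).trans_lt ?_
  have hΛ := p.Λpos
  have ha0 := p.ha0
  unfold Par.T
  apply div_lt_div_of_pos_right _ ha0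
  linarith

/-- At time `tau n` the mode `n` is large. -/
theorem size_at_tau (h : TSys p N A Φ) {n : ℕ} (hn : n ≤ N) :
    p.a0 / 2 * p.Λ ^ n ≤ A (n + 1) (tau p A n) :=
  Reg.size' h (reg_all h) (tau_lt_T h le_rfl) hn
    ⟨TSys.tau_nonneg n, tau_mono h hn le_rfl⟩ le_rfl

theorem Reg.restrict {t : ℝ} (hR : Reg p N A t) {s : ℝ} (h0 : 0 ≤ s) (hs : s ≤ t) :
    Reg p N A s where
  t0 := h0
  tT := hs.trans hR.tT
  pos := fun r hr => hR.pos r ⟨hr.1, hr.2.trans hs⟩
  low := fun r hr => hR.low r ⟨hr.1, hr.2.trans hs⟩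
  up := fun r hr => hR.up r ⟨hr.1, hr.2.trans hs⟩
  tail := fun r hr => hR.tail r ⟨hr.1, hr.2.trans hs⟩
  a0 := fun r hr => hR.a0 r ⟨hr.1, hr.2.trans hs⟩

/-- After time `tau n` the mode `n` stays large. -/
theorem size_after (h : TSys p N A Φ) {n : ℕ} (hn : n ≤ N) {s : ℝ} (h1 : tau p A n ≤ s)
    (h2 : s ≤ tau p A N) : p.a0 / 2 * (1.5 * p.Λ) ^ n ≤ A (n + 1) s := by
  have hΛ := p.Λpos
  have h0 : 0 ≤ s := (TSys.tau_nonneg n).trans h1
  have hR := (reg_all h).restrict h0 h2
  induction n with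
  | zero =>
    rw [pow_zero, mul_one]
    exact hR.a0 s ⟨h0, le_rfl⟩
  | succ n ih =>
    have h3 := ih (by omega) ((tau_mono_succ h hn).trans h1)
    have h4 := Reg.low_plus h hR h2 hn h1 (h2.trans_lt (tau_lt_T h le_rfl))
    calc p.a0 / 2 * (1.5 * p.Λ) ^ (n + 1) = 1.5 * p.Λ * (p.a0 / 2 * (1.5 * p.Λ) ^ n) := by ring
      _ ≤ 1.5 * p.Λ * A (n + 1) s := mul_le_mul_of_nonneg_left h3 (by positivity)
      _ ≤ _ := h4

/-- The modes never exceed a geometric sequence of ratio `8 Λ`. -/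
theorem size_upper (h : TSys p N A Φ) {M : ℝ} {s : ℝ} (hs : s ∈ Icc 0 (tau p A N))
    (hM : A 1 s ≤ M) (n : ℕ) : A (n + 1) s ≤ M * (8 * p.Λ) ^ n := by
  have hΛ := p.Λpos
  induction n with
  | zero => simpa using hM
  | succ n ih =>
    have h1 := (reg_all h).up s hs n
    calc A (n + 2) s ≤ 8 * p.Λ * A (n + 1) s := h1
      _ ≤ 8 * p.Λ * (M * (8 * p.Λ) ^ n) := mul_le_mul_of_nonneg_left ih (by positivity)
      _ = _ := by ring

end Pool.Agent.Run7.h407
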