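import Mathlib
import Pool.Agent.Run7.h407.Bootstrap

/-!
Rapid decay of the modes ahead of the front, uniformly in the truncation.
-/

namespace Pool.Agent.Run7.h407

open Set Filter Topology

/-- Super-exponentially decreasing bound. -/
noncomputable def dec (Λ : ℝ) (m : ℕ) : ℝ := ∏ i ∈ Finset.range m, (Λ * (1 / 100) ^ i)

theorem dec_pos {Λ : ℝ} (hΛ : 0 < Λ) (m : ℕ) : 0 < dec Λ m :=
  Finset.prod_pos fun i _ => by positivity

theorem dec_succ (Λ : ℝ) (m : ℕ) : dec Λ (m + 1) = dec Λ m * (Λ * (1 / 100) ^ m) := by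
  unfold dec
  rw [Finset.prod_range_succ]

/-- Bound of the `j`-th mode up to the time `tau n`. -/
noncomputable def Bd (p : Par) (n j : ℕ) : ℝ :=
  p.a0 * (8 * p.Λ) ^ n * dec p.Λ (j - (n + 1))

variable {p : Par} {N : ℕ} {A Φ : ℕ → ℝ → ℝ}

theorem tauN_mem (h : TSys p N A Φ) {n : ℕ} (hn : n ≤ N) {s : ℝ} (hs : s ∈ Icc 0 (tau p A n)) :
    s ∈ Icc 0 (tau p A N) :=
  ⟨hs.1, hs.2.trans (tau_mono h hn le_rfl)⟩

theorem phi_decay (h : TSys p N A Φ) {n : ℕ} (hn : n ≤ N) {s : ℝ}
    (hs : s ∈ Icc 0 (tau p A n)) (m : ℕ) :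
    Φ (n + m + 1) s ≤ (1 / 100) ^ m * (2.2 * p.Λ) := by
  have hR := reg_all h
  have hs' := tauN_mem h hn hs
  induction m with
  | zero => simpa using Reg.phi_small h hR hn hs' hs.2
  | succ m ih =>
    have hΛ := p.Λpos
    by_cases hm : n + m + 1 ≤ N
    · have h1 := Reg.phi_tail_step h hR (k := n + m) hs'
        (hs.2.trans (tau_mono h (by omega) (by omega)))
      have e : n + (m + 1) + 1 = n + m + 2 := by ring
      rw [e, pow_succ]
      linarith
    · have h1 := Reg.phi_top h hR (j := n + (m + 1) + 1) (by omega) hs'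
      exact h1.trans (by positivity)

theorem ratio_decay (h : TSys p N A Φ) {n : ℕ} (hn : n ≤ N) {s : ℝ}
    (hs : s ∈ Icc 0 (tau p A n)) (m : ℕ) :
    A (n + m + 2) s ≤ p.Λ * (1 / 100) ^ m * A (n + m + 1) s := by
  have hR := reg_all h
  have hs' := tauN_mem h hn hs
  have hΛ := p.hΛ
  have hn0 := Reg.nonneg h hR hs' (n + m + 1)
  have hq : (0 : ℝ) < (1 / 100) ^ m := by positivity
  by_cases hm : n + m + 1 ≤ N
  · have hp := hR.pos s hs' (n + m) (by omega)
    rw [← div_le_iff₀ hp]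
    have h1 := Reg.ratio_tail h hR (k := n + m) hm hs'
    have h2 := phi_decay h hn hs m
    have h3 := Reg.ratio0 h hR (k := n + m) (by omega)
    have h4 : ((1 : ℝ) / 100) ^ (n + m) ≤ (1 / 100) ^ m :=
      pow_le_pow_of_le_one (by norm_num) (by norm_num) (by omega)
    have hεK := p.εKpos
    have h5 : A (n + m + 2) 0 / A (n + m + 1) 0 ≤ p.ε * p.K * (1 / 100) ^ m :=
      h3.trans (mul_le_mul_of_nonneg_left h4 hεK.le)
    have h6 : 1.01 * (p.ε * p.K) * Φ (n + m + 1) s
        ≤ 1.01 * (p.ε * p.K) * ((1 / 100) ^ m * (2.2 * p.Λ)) :=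
      mul_le_mul_of_nonneg_left h2 (by positivity)
    have h7 : ((1 : ℝ) / 100) ^ m ≤ 1 := pow_le_one₀ (by norm_num) (by norm_num)
    have h8 : Real.exp (1.01 * Φ (n + m + 1) s) ≤ Real.exp (2.3 * p.Λ) := by
      apply Real.exp_le_exp.2
      nlinarith
    have h9 := p.hexp2
    have hsum : A (n + m + 2) 0 / A (n + m + 1) 0 + 1.01 * (p.ε * p.K) * Φ (n + m + 1) s
        ≤ (p.ε * p.K) * (1 + 2.222 * p.Λ) * (1 / 100) ^ m := by
      have e : (p.ε * p.K) * (1 + 2.222 * p.Λ) * (1 / 100) ^ m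
          = p.ε * p.K * (1 / 100) ^ m + 1.01 * (p.ε * p.K) * ((1 / 100) ^ m * (2.2 * p.Λ)) := by
        ring
      rw [e]
      exact add_le_add h5 h6
    have hnn : 0 ≤ A (n + m + 2) 0 / A (n + m + 1) 0 + 1.01 * (p.ε * p.K) * Φ (n + m + 1) s :=
      add_nonneg (Reg.ratio_nonneg h hR _ ⟨le_rfl, hs'.1.trans hs'.2⟩)
        (mul_nonneg (by positivity) (Reg.phi_nonneg h hR _ hs'))
    calc A (n + m + 2) s / A (n + m + 1) s ≤ _ := h1
      _ ≤ Real.exp (2.3 * p.Λ) * ((p.ε * p.K) * (1 + 2.222 * p.Λ) * (1 / 100) ^ m) :=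
          mul_le_mul h8 hsum hnn (Real.exp_pos _).le
      _ = (4 * (p.ε * p.K) * Real.exp (2.3 * p.Λ)) * ((1 + 2.222 * p.Λ) / 4) * (1 / 100) ^ m := by
          ring
      _ ≤ (1 / 100) * ((1 + 2.222 * p.Λ) / 4) * (1 / 100) ^ m := by
          apply mul_le_mul_of_nonneg_right _ hq.le
          apply mul_le_mul_of_nonneg_right h9
          linarith
      _ ≤ p.Λ * (1 / 100) ^ m := by
          apply mul_le_mul_of_nonneg_right _ hq.le
          linarith
  · rw [h.top (n + m + 2) s (by omega)]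
    positivity

theorem first_le (h : TSys p N A Φ) {s : ℝ} (hs : s ∈ Icc 0 (tau p A N)) : A 1 s ≤ p.a0 := by
  have hR := reg_all h
  have hsub : ∀ x ∈ Icc 0 s, x ∈ Icc 0 (tau p A N) := fun x hx => ⟨hx.1, hx.2.trans hs.2⟩
  have := incr_le (f := fun x => A 1 x) (f' := fun x => rhs p A 0 x)
    (g := fun _ => (0 : ℝ)) (g' := fun _ => 0) hs.1
    (fun x hx => h.ode 0 (Nat.zero_le _) x (hR.memT (hsub x hx)))
    (fun x _ => hasDerivAt_const x 0)
    (fun x hx => by
      have hx' := hsub x (Ioo_subset_Icc_self hx)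
      unfold rhs
      rw [h.zero]
      have h1 := Reg.nonneg h hR hx' 1
      have h2 := Reg.nonneg h hR hx' 2
      have h3 := p.hd
      have h4 : 0 ≤ p.ε / p.K := div_nonneg p.hε.le p.Kpos.le
      have h5 : 0 ≤ p.ε / p.K * A 1 x * A 2 x := mul_nonneg (mul_nonneg h4 h1) h2
      have h6 : 0 ≤ A 2 x ^ 2 / p.K ^ 2 := by positivity
      have h7 : 0 ≤ p.d * p.Λ ^ 0 * A 1 x := by
        rw [pow_zero, mul_one]
        exact mul_nonneg h3 h1
      simp only [zero_add] at *
      nlinarith)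
  simp only [h.init0] at this
  linarith

theorem mode_le (h : TSys p N A Φ) {s : ℝ} (hs : s ∈ Icc 0 (tau p A N)) (k : ℕ) :
    A (k + 1) s ≤ p.a0 * (8 * p.Λ) ^ k := by
  have hR := reg_all h
  have hΛ := p.Λpos
  induction k with
  | zero => simpa using first_le h hs
  | succ k ih =>
    calc A (k + 2) s ≤ 8 * p.Λ * A (k + 1) s := hR.up s hs k
      _ ≤ 8 * p.Λ * (p.a0 * (8 * p.Λ) ^ k) := by
          apply mul_le_mul_of_nonneg_left ih (by positivity)
      _ = _ := by ring

/-- The main bound: rapid decay up to the time `tau n`, with constants independent of `N`. -/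
theorem mode_le_Bd (h : TSys p N A Φ) {n : ℕ} (hn : n ≤ N) {s : ℝ}
    (hs : s ∈ Icc 0 (tau p A n)) (j : ℕ) : A j s ≤ Bd p n j := by
  have hs' := tauN_mem h hn hs
  have hΛ := p.hΛ
  have hΛ0 := p.Λpos
  have ha0 := p.ha0
  have hR := reg_all h
  rcases Nat.lt_or_ge j (n + 1) with hj | hj
  · have e : j - (n + 1) = 0 := by omega
    unfold Bd
    rw [e]
    have e2 : dec p.Λ 0 = 1 := by simp [dec]
    rw [e2, mul_one]
    rcases Nat.eq_zero_or_pos j with hj0 | hj0
    · subst hj0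
      rw [h.zero]
      positivity
    · obtain ⟨k, rfl⟩ : ∃ k, j = k + 1 := ⟨j - 1, by omega⟩
      refine (mode_le h hs' k).trans ?_
      apply mul_le_mul_of_nonneg_left _ ha0.le
      apply pow_le_pow_right₀ _ (by omega)
      linarith
  · obtain ⟨m, rfl⟩ : ∃ m, j = n + 1 + m := ⟨j - (n + 1), by omega⟩
    unfold Bd
    have e : n + 1 + m - (n + 1) = m := by omega
    rw [e]
    clear e hj
    induction m with
    | zero =>
      have e2 : dec p.Λ 0 = 1 := by simp [dec]
      rw [e2, mul_one]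
      exact mode_le h hs' n
    | succ m ih =>
      rw [dec_succ]
      have h1 := ratio_decay h hn hs m
      have e3 : n + 1 + (m + 1) = n + m + 2 := by ring
      have e4 : n + 1 + m = n + m + 1 := by ring
      rw [e3]
      rw [e4] at ih
      calc A (n + m + 2) s ≤ p.Λ * (1 / 100) ^ m * A (n + m + 1) s := h1
        _ ≤ p.Λ * (1 / 100) ^ m * (p.a0 * (8 * p.Λ) ^ n * dec p.Λ m) := by
            apply mul_le_mul_of_nonneg_left ih (by positivity)
        _ = _ := by ring

/-- The bound `Bd` beats every geometric sequence. -/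
theorem Bd_rapid (p : Par) (n : ℕ) {c : ℝ} (hc : 0 < c) : ∃ C, ∀ j, Bd p n j * c ^ j ≤ C := by
  have hΛ := p.Λpos
  have ha0 := p.ha0
  -- the sequence `dec m * c^m` is bounded
  have h1 : ∃ C, 0 ≤ C ∧ ∀ m, dec p.Λ m * c ^ m ≤ C := by
    have ht : Tendsto (fun m : ℕ => c * p.Λ * (1 / 100) ^ m) atTop (𝓝 (c * p.Λ * 0)) :=
      (tendsto_pow_atTop_nhds_zero_of_lt_one (by norm_num) (by norm_num)).const_mul _
    rw [mul_zero] at ht
    obtain ⟨M, hM⟩ := (ht.eventually (gt_mem_nhds (show (0 : ℝ) < 1 by norm_num))).exists_forall_of_atTop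
    refine ⟨∑ m ∈ Finset.range (M + 1), dec p.Λ m * c ^ m, ?_, ?_⟩
    · exact Finset.sum_nonneg fun m _ => mul_nonneg (dec_pos hΛ m).le (by positivity)
    · intro m
      induction m with
      | zero =>
        exact Finset.single_le_sum
          (f := fun m => dec p.Λ m * c ^ m)
          (fun m _ => mul_nonneg (dec_pos hΛ m).le (by positivity)) (Finset.mem_range.2 (by omega))
      | succ m ih =>
        by_cases hm : m + 1 ≤ M
        · exact Finset.single_le_sum
            (f := fun m => dec p.Λ m * c ^ m)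
            (fun m _ => mul_nonneg (dec_pos hΛ m).le (by positivity))
            (Finset.mem_range.2 (by omega))
        · have h2 := hM m (by omega)
          have h3 : 0 ≤ dec p.Λ m * c ^ m := mul_nonneg (dec_pos hΛ m).le (by positivity)
          calc dec p.Λ (m + 1) * c ^ (m + 1)
              = (dec p.Λ m * c ^ m) * (c * p.Λ * (1 / 100) ^ m) := by
                rw [dec_succ]
                ring
            _ ≤ (dec p.Λ m * c ^ m) * 1 := mul_le_mul_of_nonneg_left h2.le h3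
            _ ≤ _ := by linarith
  obtain ⟨C, hC0, hC⟩ := h1
  refine ⟨p.a0 * (8 * p.Λ) ^ n * (C * (c ^ (n + 1) + 1) + ∑ j ∈ Finset.range (n + 1), c ^ j), ?_⟩
  intro j
  unfold Bd
  have hfac : 0 < p.a0 * (8 * p.Λ) ^ n := by positivity
  rw [mul_assoc]
  apply mul_le_mul_of_nonneg_left _ hfac.le
  have hs0 : 0 ≤ ∑ j ∈ Finset.range (n + 1), c ^ j := Finset.sum_nonneg fun i _ => by positivity
  rcases Nat.lt_or_ge j (n + 1) with hj | hj
  · have e : j - (n + 1) = 0 := by omega
    rw [e]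
    have e2 : dec p.Λ 0 = 1 := by simp [dec]
    rw [e2, one_mul]
    have h4 : c ^ j ≤ ∑ j ∈ Finset.range (n + 1), c ^ j :=
      Finset.single_le_sum (f := fun j => c ^ j) (fun i _ => by positivity)
        (Finset.mem_range.2 hj)
    have h5 : 0 ≤ C * (c ^ (n + 1) + 1) := by positivity
    linarith
  · obtain ⟨m, rfl⟩ : ∃ m, j = n + 1 + m := ⟨j - (n + 1), by omega⟩
    have e : n + 1 + m - (n + 1) = m := by omega
    rw [e, pow_add]
    have h6 := mul_le_mul_of_nonneg_right (hC m) (show 0 ≤ c ^ (n + 1) by positivity)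
    have h7 : dec p.Λ m * (c ^ (n + 1) * c ^ m) = dec p.Λ m * c ^ m * c ^ (n + 1) := by ring
    rw [h7]
    nlinarith

end Pool.Agent.Run7.h407
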