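import Mathlib
import Pool.Agent.Run7.h407.Decay
import Pool.Agent.Run7.h407.Global

/-!
Existence of the solutions of the truncated reduced systems, with the energy bound.
-/

namespace Pool.Agent.Run7.h407

open Set Filter Topology MeasureTheory

/-- Extension by zero of a vector of modes, with the index shifted by one. -/
def ext {N : ℕ} (x : Fin (N + 1) → ℝ) : ℕ → ℝ
  | 0 => 0
  | (i + 1) => if h : i < N + 1 then x ⟨i, h⟩ else 0

theorem ext_zero {N : ℕ} (x : Fin (N + 1) → ℝ) : ext x 0 = 0 := rfl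

theorem ext_succ {N : ℕ} (x : Fin (N + 1) → ℝ) (i : Fin (N + 1)) : ext x (i + 1) = x i := by
  have : (i : ℕ) < N + 1 := i.2
  show (if h : (i : ℕ) < N + 1 then x ⟨i, h⟩ else 0) = x i
  rw [dif_pos this]

theorem ext_top {N : ℕ} (x : Fin (N + 1) → ℝ) {j : ℕ} (hj : N + 2 ≤ j) : ext x j = 0 := by
  obtain ⟨i, rfl⟩ : ∃ i, j = i + 1 := ⟨j - 1, by omega⟩
  show (if h : i < N + 1 then x ⟨i, h⟩ else 0) = 0
  rw [dif_neg (by omega)]

theorem ext_contDiff {N : ℕ} (j : ℕ) : ContDiff ℝ 1 (fun x : Fin (N + 1) → ℝ => ext x j) := by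
  cases j with
  | zero => exact contDiff_const
  | succ i =>
    by_cases hi : i < N + 1
    · have : (fun x : Fin (N + 1) → ℝ => ext x (i + 1)) = fun x => x ⟨i, hi⟩ := by
        funext x
        show (if h : i < N + 1 then x ⟨i, h⟩ else 0) = _
        rw [dif_pos hi]
      rw [this]
      exact contDiff_apply ℝ ℝ _
    · have : (fun x : Fin (N + 1) → ℝ => ext x (i + 1)) = fun x => 0 := by
        funext x
        show (if h : i < N + 1 then x ⟨i, h⟩ else 0) = _
        rw [dif_neg hi]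
      rw [this]
      exact contDiff_const

/-- The vector field of the truncated system. -/
noncomputable def vf (p : Par) (N : ℕ) (x : Fin (N + 1) → ℝ) (i : Fin (N + 1)) : ℝ :=
  rhs p (fun j _ => ext x j) i 0

theorem vf_contDiff (p : Par) (N : ℕ) : ContDiff ℝ 1 (vf p N) := by
  rw [contDiff_pi]
  intro i
  unfold vf rhs
  have h0 := ext_contDiff (N := N) (i : ℕ)
  have h1 := ext_contDiff (N := N) ((i : ℕ) + 1)
  have h2 := ext_contDiff (N := N) ((i : ℕ) + 2)
  have hK : p.K ≠ 0 := p.Kpos.ne'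
  exact ((((contDiff_const.mul h1).add (h0.mul h1)).add (contDiff_const.mul (h0.pow 2))).sub
    ((contDiff_const.mul h1).mul h2)).sub ((h2.pow 2).div_const _)

/-- The energy. -/
noncomputable def En (p : Par) (N : ℕ) (x : Fin (N + 1) → ℝ) : ℝ :=
  ∑ i : Fin (N + 1), (p.K ^ (2 * (i : ℕ)))⁻¹ * x i ^ 2

theorem En_contDiff (p : Par) (N : ℕ) : ContDiff ℝ 1 (En p N) := by
  unfold En
  apply ContDiff.sum
  intro i _
  exact contDiff_const.mul ((contDiff_apply ℝ ℝ i).pow 2)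

theorem En_term_le (p : Par) (N : ℕ) (x : Fin (N + 1) → ℝ) (i : Fin (N + 1)) :
    x i ^ 2 ≤ p.K ^ (2 * (i : ℕ)) * En p N x := by
  have hK := p.Kpos
  have h1 : (p.K ^ (2 * (i : ℕ)))⁻¹ * x i ^ 2 ≤ En p N x := by
    unfold En
    exact Finset.single_le_sum (f := fun i : Fin (N + 1) => (p.K ^ (2 * (i : ℕ)))⁻¹ * x i ^ 2)
      (fun j _ => by positivity) (Finset.mem_univ i)
  have h2 : 0 < p.K ^ (2 * (i : ℕ)) := by positivity
  calc x i ^ 2 = p.K ^ (2 * (i : ℕ)) * ((p.K ^ (2 * (i : ℕ)))⁻¹ * x i ^ 2) := by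
        field_simp
    _ ≤ _ := mul_le_mul_of_nonneg_left h1 h2.le

theorem En_compact (p : Par) (N : ℕ) (R : ℝ) : IsCompact {x | En p N x ≤ R} := by
  apply Metric.isCompact_of_isClosed_isBounded
  · exact isClosed_le (En_contDiff p N).continuous continuous_const
  · rw [isBounded_iff_forall_norm_le]
    have hK := p.Kpos
    have hK1 : 1 ≤ p.K := by linarith [p.hΛ, p.hK]
    refine ⟨p.K ^ N * (|R| + 1), ?_⟩
    intro x hx
    rw [pi_norm_le_iff_of_nonneg (by positivity)]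
    intro i
    rw [Real.norm_eq_abs]
    apply abs_le_of_sq_le_sq _ (by positivity)
    have h1 := En_term_le p N x i
    have h2 : En p N x ≤ |R| := le_trans hx (le_abs_self R)
    have h3 : p.K ^ (2 * (i : ℕ)) ≤ p.K ^ (2 * N) :=
      pow_le_pow_right₀ hK1 (by have := i.2; omega)
    calc x i ^ 2 ≤ p.K ^ (2 * (i : ℕ)) * En p N x := h1
      _ ≤ p.K ^ (2 * (i : ℕ)) * |R| := mul_le_mul_of_nonneg_left h2 (by positivity)
      _ ≤ p.K ^ (2 * N) * |R| := mul_le_mul_of_nonneg_right h3 (abs_nonneg R)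
      _ ≤ p.K ^ (2 * N) * (|R| + 1) ^ 2 := by
          apply mul_le_mul_of_nonneg_left _ (by positivity)
          nlinarith [abs_nonneg R]
      _ = (p.K ^ N * (|R| + 1)) ^ 2 := by ring

theorem En_fderiv (p : Par) (N : ℕ) (x v : Fin (N + 1) → ℝ) :
    fderiv ℝ (En p N) x v = ∑ i : Fin (N + 1), 2 * ((p.K ^ (2 * (i : ℕ)))⁻¹ * x i * v i) := by
  have h : HasFDerivAt (En p N) (∑ i : Fin (N + 1), (p.K ^ (2 * (i : ℕ)))⁻¹ •
      ((2 * x i ^ (2 - 1)) • (ContinuousLinearMap.proj (R := ℝ) (φ := fun _ => ℝ) i))) x := by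
    unfold En
    apply HasFDerivAt.fun_sum
    intro i _
    have h1 : HasFDerivAt (fun y : Fin (N + 1) → ℝ => y i)
        (ContinuousLinearMap.proj (R := ℝ) (φ := fun _ => ℝ) i) x := hasFDerivAt_apply i x
    have h2 := (h1.pow 2).const_mul ((p.K ^ (2 * (i : ℕ)))⁻¹)
    simpa using h2
  rw [h.fderiv, sum_apply]
  apply Finset.sum_congr rfl
  intro i _
  simp
  ring

/-- The energy does not increase along the truncated flow. -/
theorem En_decr (p : Par) (N : ℕ) (x : Fin (N + 1) → ℝ) :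
    fderiv ℝ (En p N) x (vf p N x) ≤ 0 := by
  rw [En_fderiv]
  have hK := p.Kpos
  set X := ext x with hX
  set S : ℕ → ℝ := fun j => (p.K ^ (2 * j))⁻¹ *
    (p.ε * p.K * X j ^ 2 * X (j + 1) + X j * X (j + 1) ^ 2) with hS
  have e1 : ∀ i : Fin (N + 1), 2 * ((p.K ^ (2 * (i : ℕ)))⁻¹ * x i * vf p N x i)
      = (fun j : ℕ => 2 * (-(p.d * p.Λ ^ j * (p.K ^ (2 * j))⁻¹ * X (j + 1) ^ 2)
        + (S j - S (j + 1)))) (i : ℕ) := by
    intro i
    have hxi : x i = X ((i : ℕ) + 1) := (ext_succ x i).symm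
    unfold vf rhs
    simp only [← hX, hS, hxi]
    have h2 : p.K ^ (2 * ((i : ℕ) + 1)) = p.K ^ (2 * (i : ℕ)) * p.K ^ 2 := by ring
    rw [h2]
    field_simp
    ring
  rw [Finset.sum_congr rfl (fun i _ => e1 i)]
  rw [Fin.sum_univ_eq_sum_range (fun j : ℕ => 2 * (-(p.d * p.Λ ^ j * (p.K ^ (2 * j))⁻¹
    * X (j + 1) ^ 2) + (S j - S (j + 1)))) (N + 1)]
  rw [← Finset.mul_sum, Finset.sum_add_distrib, Finset.sum_range_sub']
  have h0 : S 0 = 0 := by
    simp only [hS]
    have : X 0 = 0 := rfl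
    rw [this]
    ring
  have h1 : S (N + 1) = 0 := by
    simp only [hS]
    have : X (N + 1 + 1) = 0 := ext_top x (by omega)
    rw [this]
    ring
  rw [h0, h1]
  have h2 : ∑ j ∈ Finset.range (N + 1), -(p.d * p.Λ ^ j * (p.K ^ (2 * j))⁻¹ * X (j + 1) ^ 2)
      ≤ 0 := by
    apply Finset.sum_nonpos
    intro j _
    have h3 := p.hd
    have h4 := p.Λpos
    have : 0 ≤ p.d * p.Λ ^ j * (p.K ^ (2 * j))⁻¹ * X (j + 1) ^ 2 := by positivity
    linarith
  linarith

/-- Initial data of the truncated system. -/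
noncomputable def gdata (p : Par) (δ : ℝ) (k : ℕ) : ℝ :=
  p.a0 * ∏ m ∈ Finset.range k, (δ * (p.ε * p.K * (1 / 100) ^ m))

theorem gdata_pos (p : Par) {δ : ℝ} (hδ : 0 < δ) (k : ℕ) : 0 < gdata p δ k := by
  have h1 := p.εKpos
  have h2 := p.ha0
  unfold gdata
  apply mul_pos h2
  apply Finset.prod_pos
  intro i _
  positivity

theorem gdata_le (p : Par) {δ : ℝ} (hδ : 0 < δ) (hδ1 : δ ≤ 1) (k : ℕ) :
    gdata p δ (k + 1) ≤ δ * p.a0 := by
  have h1 := p.εKpos
  have h2 := p.ha0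
  have h3 := p.hεK
  unfold gdata
  rw [Finset.prod_range_succ']
  have h4 : ∏ m ∈ Finset.range k, (δ * (p.ε * p.K * (1 / 100) ^ (m + 1))) ≤ 1 := by
    apply Finset.prod_le_one
    · intro i _
      positivity
    · intro i _
      have h5 : ((1 : ℝ) / 100) ^ (i + 1) ≤ 1 := pow_le_one₀ (by norm_num) (by norm_num)
      have h6 : (0 : ℝ) < (1 / 100) ^ (i + 1) := by positivity
      have h7 : p.ε * p.K * (1 / 100) ^ (i + 1) ≤ 1 := by nlinarith
      have h8 : 0 < p.ε * p.K * (1 / 100) ^ (i + 1) := by positivity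
      nlinarith
  have h5 : 0 ≤ ∏ m ∈ Finset.range k, (δ * (p.ε * p.K * (1 / 100) ^ (m + 1))) := by
    apply Finset.prod_nonneg
    intro i _
    positivity
  have h6 : δ * (p.ε * p.K * (1 / 100) ^ 0) ≤ δ := by
    rw [pow_zero, mul_one]
    nlinarith
  have h7 : 0 ≤ δ * (p.ε * p.K * (1 / 100) ^ 0) := by positivity
  calc p.a0 * ((∏ m ∈ Finset.range k, (δ * (p.ε * p.K * (1 / 100) ^ (m + 1))))
        * (δ * (p.ε * p.K * (1 / 100) ^ 0)))
      ≤ p.a0 * (1 * δ) := by
        apply mul_le_mul_of_nonneg_left _ h2.le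
        exact mul_le_mul h4 h6 h7 (by norm_num)
    _ = δ * p.a0 := by ring

theorem gdata_le_a0 (p : Par) {δ : ℝ} (hδ : 0 < δ) (hδ1 : δ ≤ 1) (k : ℕ) :
    gdata p δ k ≤ p.a0 := by
  cases k with
  | zero => simp [gdata]
  | succ k =>
    refine (gdata_le p hδ hδ1 k).trans ?_
    have h2 := p.ha0
    nlinarith

/-- Existence of truncated solutions. -/
theorem exists_trunc (p : Par) (N : ℕ) {δ : ℝ} (hδ : 0 < δ) (hδ1 : δ ≤ 1) :
    ∃ A Φ : ℕ → ℝ → ℝ, TSys p N A Φ ∧ (∀ k ≤ N, A (k + 1) 0 = gdata p δ k) ∧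
      ∀ t ∈ Icc 0 p.T, ∀ i ≤ N, |A (i + 1) t| ≤ 2 * p.a0 * p.K ^ i := by
  have hK := p.Kpos
  have hK1 : 100000 ≤ p.K := by linarith [p.hΛ, p.hK]
  have ha0 := p.ha0
  set x₀ : Fin (N + 1) → ℝ := fun i => gdata p δ i with hx₀
  obtain ⟨α, hα0, hαc, hα, hEn⟩ := exists_global (vf p N) (vf_contDiff p N) (En p N)
    (En_contDiff p N) (En_compact p N) (En_decr p N) x₀ p.Tpos.le
  set A : ℕ → ℝ → ℝ := fun j t => ext (α t) j with hA
  have hAc : ∀ j, ContinuousOn (A j) (Icc (-1) (p.T + 1)) := fun j =>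
    ((ext_contDiff (N := N) j).continuous).comp_continuousOn hαc
  have hAi : ∀ (i : ℕ) (hi : i ≤ N) (t : ℝ), A (i + 1) t = α t ⟨i, by omega⟩ := by
    intro i hi t
    exact ext_succ (α t) ⟨i, by omega⟩
  have h0 : ∀ k ≤ N, A (k + 1) 0 = gdata p δ k := by
    intro k hk
    rw [hAi k hk, hα0]
  refine ⟨A, fun j t => ∫ s in (0 : ℝ)..t, A j s, ?_, h0, ?_⟩
  · refine ⟨fun t => rfl, fun j t hj => ext_top (α t) hj, ?_, ?_, ?_, ?_, ?_, ?_⟩
    · intro i hi t ht
      have h1 := hα t ht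
      rw [hasDerivAt_pi] at h1
      have h2 := h1 ⟨i, by omega⟩
      have h3 : A (i + 1) = fun t => α t ⟨i, by omega⟩ := funext (hAi i hi)
      rw [h3]
      exact h2
    · intro j t ht
      have hT := p.Tpos
      apply intervalIntegral.integral_hasDerivAt_right
      · apply ContinuousOn.intervalIntegrable
        apply (hAc j).mono
        rw [uIcc_of_le ht.1]
        intro x hx
        exact ⟨by linarith [hx.1], by linarith [hx.2, ht.2]⟩
      · exact ContinuousOn.stronglyMeasurableAtFilter isOpen_Ioo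
          ((hAc j).mono Ioo_subset_Icc_self) t ⟨by linarith [ht.1], by linarith [ht.2]⟩
      · exact (hAc j).continuousAt (Icc_mem_nhds (by linarith [ht.1]) (by linarith [ht.2]))
    · intro j
      simp
    · rw [h0 0 (Nat.zero_le _)]
      simp [gdata]
    · intro i hi
      rw [h0 i hi]
      exact gdata_pos p hδ i
    · intro k
      have hεK := p.εKpos
      by_cases hk : k + 1 ≤ N
      · rw [h0 (k + 1) hk, h0 k (by omega)]
        have e : gdata p δ (k + 1) = gdata p δ k * (δ * (p.ε * p.K * (1 / 100) ^ k)) := by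
          unfold gdata
          rw [Finset.prod_range_succ]
          ring
        rw [e]
        have h1 := gdata_pos p hδ k
        have h2 : 0 < p.ε * p.K * (1 / 100) ^ k := by positivity
        have h3 : δ * (p.ε * p.K * (1 / 100) ^ k) ≤ p.ε * p.K * (1 / 100) ^ k := by nlinarith
        nlinarith
      · have e : A (k + 2) 0 = 0 := ext_top (α 0) (by omega)
        rw [e]
        have h3 : 0 ≤ A (k + 1) 0 := by
          by_cases hk' : k ≤ N
          · rw [h0 k hk']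
            exact (gdata_pos p hδ k).le
          · have : A (k + 1) 0 = 0 := ext_top (α 0) (by omega)
            rw [this]
        positivity
  · intro t ht i hi
    rw [hAi i hi]
    have h1 := En_term_le p N (α t) ⟨i, by omega⟩
    have h2 := hEn t ht
    have h3 : En p N x₀ ≤ 2 * p.a0 ^ 2 := by
      unfold En
      have h4 : ∀ i : Fin (N + 1), (p.K ^ (2 * (i : ℕ)))⁻¹ * x₀ i ^ 2
          ≤ (fun j : ℕ => (1 / 2 : ℝ) ^ j * p.a0 ^ 2) (i : ℕ) := by
        intro i
        have h5 : x₀ i ^ 2 ≤ p.a0 ^ 2 :=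
          pow_le_pow_left₀ (gdata_pos p hδ i).le (gdata_le_a0 p hδ hδ1 i) 2
        have h6 : (p.K ^ (2 * (i : ℕ)))⁻¹ ≤ (1 / 2 : ℝ) ^ (i : ℕ) := by
          rw [pow_mul, ← inv_pow]
          apply pow_le_pow_left₀ (by positivity)
          rw [inv_le_comm₀ (by positivity) (by norm_num)]
          nlinarith
        exact mul_le_mul h6 h5 (by positivity) (by positivity)
      refine (Finset.sum_le_sum fun i _ => h4 i).trans ?_
      rw [Fin.sum_univ_eq_sum_range (fun j : ℕ => (1 / 2 : ℝ) ^ j * p.a0 ^ 2) (N + 1),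
        ← Finset.sum_mul]
      apply mul_le_mul_of_nonneg_right _ (by positivity)
      have h7 := geom_sum_eq (x := (1 / 2 : ℝ)) (by norm_num) (N + 1)
      rw [h7]
      have h8 : (0 : ℝ) < (1 / 2) ^ (N + 1) := by positivity
      have h9 : ((1 / 2 : ℝ) ^ (N + 1) - 1) / (1 / 2 - 1) = 2 * (1 - (1 / 2) ^ (N + 1)) := by
        ring
      rw [h9]
      linarith
    apply abs_le_of_sq_le_sq _ (by positivity)
    calc α t ⟨i, by omega⟩ ^ 2 ≤ p.K ^ (2 * i) * En p N (α t) := h1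
      _ ≤ p.K ^ (2 * i) * (2 * p.a0 ^ 2) := by
          apply mul_le_mul_of_nonneg_left (h2.trans h3) (by positivity)
      _ ≤ (2 * p.a0 * p.K ^ i) ^ 2 := by
          have e : (2 * p.a0 * p.K ^ i) ^ 2 = p.K ^ (2 * i) * (4 * p.a0 ^ 2) := by ring
          rw [e]
          apply mul_le_mul_of_nonneg_left _ (by positivity)
          nlinarith

end Pool.Agent.Run7.h407
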