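import Mathlib
import Pool.Agent.Run7.h407.Trunc

/-!
Passage to the limit: a solution of the infinite reduced system that decays rapidly in the
index before some finite time and blows up there.
-/

namespace Pool.Agent.Run7.h407

open Set Filter Topology MeasureTheory

/-- Solutions of the infinite reduced system with datum `(a0, 0, 0, …)`, blowing up at `Tb`. -/
structure Sol (p : Par) (Tb : ℝ) (A : ℕ → ℝ → ℝ) : Prop where
  Tpos : 0 < Tb
  Tle : Tb ≤ 9 * p.Λ / p.a0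
  cont : ∀ j, Continuous (A j)
  zero : ∀ t, A 0 t = 0
  eqn : ∀ i, ∀ t ∈ Ico 0 Tb, A (i + 1) t = A (i + 1) 0 + ∫ s in (0 : ℝ)..t, rhs p A i s
  init0 : A 1 0 = p.a0
  init1 : ∀ k, A (k + 2) 0 = 0
  decay : ∀ b < Tb, ∀ c > 0, ∃ C, ∀ j, ∀ t ∈ Icc 0 b, |A j t| * c ^ j ≤ C
  nonneg : ∀ j, ∀ t ∈ Ico 0 Tb, 0 ≤ A j t
  low : ∀ n, ∃ σ, 0 ≤ σ ∧ σ < Tb ∧ ∀ t ∈ Ioo σ Tb, p.a0 / 2 * (1.5 * p.Λ) ^ n ≤ A (n + 1) t
  upp : ∀ n, ∀ t ∈ Ico 0 Tb, A (n + 1) t ≤ 2 * p.a0 * p.K * (8 * p.Λ) ^ n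

theorem Sol.blow {p : Par} {Tb : ℝ} {A : ℕ → ℝ → ℝ} (S : Sol p Tb A) : ∀ b < Tb, ∀ M : ℕ,
    ∃ n ≥ M, ∃ t ∈ Ioo b Tb, p.a0 / 2 * p.Λ ^ n ≤ A (n + 1) t := by
  intro b hb M
  obtain ⟨σ, h0, h1, h2⟩ := S.low M
  have hΛ := p.Λpos
  have ha0 := p.ha0
  obtain ⟨t, ht1, ht2⟩ := exists_between (max_lt hb h1)
  refine ⟨M, le_rfl, t, ⟨(le_max_left _ _).trans_lt ht1, ht2⟩, ?_⟩
  refine le_trans ?_ (h2 t ⟨(le_max_right _ _).trans_lt ht1, ht2⟩)
  apply mul_le_mul_of_nonneg_left _ (by positivity)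
  apply pow_le_pow_left₀ hΛ.le
  linarith

/-- Uniform bound of the modes of the truncated systems. -/
noncomputable def Bj (p : Par) (j : ℕ) : ℝ := 2 * p.a0 * p.K ^ j

theorem Bj_nonneg (p : Par) (j : ℕ) : 0 ≤ Bj p j := by
  have h1 := p.ha0
  have h2 := p.Kpos
  unfold Bj
  positivity

/-- Uniform Lipschitz constant of the modes. -/
noncomputable def Lc (p : Par) (i : ℕ) : ℝ :=
  p.d * p.Λ ^ i * Bj p (i + 1) + Bj p i * Bj p (i + 1) + p.ε * p.K * Bj p i ^ 2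
    + p.ε / p.K * Bj p (i + 1) * Bj p (i + 2) + Bj p (i + 2) ^ 2 / p.K ^ 2

theorem rhs_bound (p : Par) {A : ℕ → ℝ → ℝ} {t : ℝ} (h : ∀ j, |A j t| ≤ Bj p j) (i : ℕ) :
    |rhs p A i t| ≤ Lc p i := by
  have hK := p.Kpos
  have hε := p.hε
  have hd := p.hd
  have hΛ := p.Λpos
  have h0 := h i
  have h1 := h (i + 1)
  have h2 := h (i + 2)
  have b0 := Bj_nonneg p i
  have b1 := Bj_nonneg p (i + 1)
  have b2 := Bj_nonneg p (i + 2)
  have e1 : |(-(p.d * p.Λ ^ i) * A (i + 1) t)| ≤ p.d * p.Λ ^ i * Bj p (i + 1) := by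
    rw [abs_mul, abs_neg, abs_of_nonneg (by positivity : 0 ≤ p.d * p.Λ ^ i)]
    exact mul_le_mul_of_nonneg_left h1 (by positivity)
  have e2 : |A i t * A (i + 1) t| ≤ Bj p i * Bj p (i + 1) := by
    rw [abs_mul]
    exact mul_le_mul h0 h1 (abs_nonneg _) b0
  have e3 : |p.ε * p.K * A i t ^ 2| ≤ p.ε * p.K * Bj p i ^ 2 := by
    rw [abs_mul, abs_of_nonneg (by positivity : 0 ≤ p.ε * p.K), abs_pow]
    apply mul_le_mul_of_nonneg_left _ (by positivity)
    exact pow_le_pow_left₀ (abs_nonneg _) h0 2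
  have e4 : |p.ε / p.K * A (i + 1) t * A (i + 2) t|
      ≤ p.ε / p.K * Bj p (i + 1) * Bj p (i + 2) := by
    rw [abs_mul, abs_mul, abs_of_nonneg (by positivity : 0 ≤ p.ε / p.K)]
    apply mul_le_mul _ h2 (abs_nonneg _) (by positivity)
    exact mul_le_mul_of_nonneg_left h1 (by positivity)
  have e5 : |A (i + 2) t ^ 2 / p.K ^ 2| ≤ Bj p (i + 2) ^ 2 / p.K ^ 2 := by
    rw [abs_div, abs_pow, abs_of_nonneg (by positivity : 0 ≤ p.K ^ 2)]
    apply div_le_div_of_nonneg_right _ (by positivity)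
    exact pow_le_pow_left₀ (abs_nonneg _) h2 2
  unfold rhs Lc
  calc |(-(p.d * p.Λ ^ i) * A (i + 1) t) + A i t * A (i + 1) t + p.ε * p.K * A i t ^ 2
      - p.ε / p.K * A (i + 1) t * A (i + 2) t - A (i + 2) t ^ 2 / p.K ^ 2|
      ≤ |(-(p.d * p.Λ ^ i) * A (i + 1) t) + A i t * A (i + 1) t + p.ε * p.K * A i t ^ 2
      - p.ε / p.K * A (i + 1) t * A (i + 2) t| + |A (i + 2) t ^ 2 / p.K ^ 2| := abs_sub _ _
    _ ≤ (|(-(p.d * p.Λ ^ i) * A (i + 1) t) + A i t * A (i + 1) t + p.ε * p.K * A i t ^ 2|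
      + |p.ε / p.K * A (i + 1) t * A (i + 2) t|) + |A (i + 2) t ^ 2 / p.K ^ 2| := by
        gcongr
        exact abs_sub _ _
    _ ≤ ((|(-(p.d * p.Λ ^ i) * A (i + 1) t)| + |A i t * A (i + 1) t|
      + |p.ε * p.K * A i t ^ 2|)
      + |p.ε / p.K * A (i + 1) t * A (i + 2) t|) + |A (i + 2) t ^ 2 / p.K ^ 2| := by
        gcongr
        exact abs_add_three _ _ _
    _ ≤ _ := by linarith

theorem trunc_bound {p : Par} {N : ℕ} {A Φ : ℕ → ℝ → ℝ} (h : TSys p N A Φ)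
    (hb : ∀ t ∈ Icc 0 p.T, ∀ i ≤ N, |A (i + 1) t| ≤ 2 * p.a0 * p.K ^ i) {t : ℝ}
    (ht : t ∈ Icc 0 p.T) (j : ℕ) : |A j t| ≤ Bj p j := by
  rcases Nat.eq_zero_or_pos j with hj | hj
  · subst hj
    rw [h.zero, abs_zero]
    exact Bj_nonneg p 0
  · obtain ⟨i, rfl⟩ : ∃ i, j = i + 1 := ⟨j - 1, by omega⟩
    by_cases hi : i ≤ N
    · refine (hb t ht i hi).trans ?_
      unfold Bj
      have h1 := p.ha0
      have hK1 : 1 ≤ p.K := by linarith [p.hΛ, p.hK]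
      apply mul_le_mul_of_nonneg_left _ (by positivity)
      exact pow_le_pow_right₀ hK1 (by omega)
    · rw [h.top (i + 1) t (by omega), abs_zero]
      exact Bj_nonneg p _

theorem trunc_lip {p : Par} {N : ℕ} {A Φ : ℕ → ℝ → ℝ} (h : TSys p N A Φ)
    (hb : ∀ t ∈ Icc 0 p.T, ∀ i ≤ N, |A (i + 1) t| ≤ 2 * p.a0 * p.K ^ i) (i : ℕ) {a b : ℝ}
    (ha : 0 ≤ a) (hab : a ≤ b) (hbT : b ≤ p.T) :
    |A (i + 1) b - A (i + 1) a| ≤ Lc p i * (b - a) := by
  have hsub : ∀ x ∈ Icc a b, x ∈ Icc 0 p.T := fun x hx => ⟨ha.trans hx.1, hx.2.trans hbT⟩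
  have hL : ∀ x ∈ Icc a b, |rhs p A i x| ≤ Lc p i := fun x hx =>
    rhs_bound p (trunc_bound h hb (hsub x hx)) i
  by_cases hi : i ≤ N
  · have h1 := incr_le (f := fun x => A (i + 1) x) (f' := fun x => rhs p A i x)
      (g := fun x => Lc p i * x) (g' := fun _ => Lc p i * 1) hab
      (fun x hx => h.ode i hi x (hsub x hx)) (fun x _ => (hasDerivAt_id x).const_mul _)
      (fun x hx => by
        rw [mul_one]
        exact (le_abs_self _).trans (hL x (Ioo_subset_Icc_self hx)))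
    have h2 := incr_le (f := fun x => -A (i + 1) x) (f' := fun x => -rhs p A i x)
      (g := fun x => Lc p i * x) (g' := fun _ => Lc p i * 1) hab
      (fun x hx => (h.ode i hi x (hsub x hx)).neg) (fun x _ => (hasDerivAt_id x).const_mul _)
      (fun x hx => by
        rw [mul_one]
        exact (neg_le_abs _).trans (hL x (Ioo_subset_Icc_self hx)))
    rw [abs_le]
    constructor <;> linarith
  · rw [h.top (i + 1) b (by omega), h.top (i + 1) a (by omega), sub_zero, abs_zero]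
    have := (abs_nonneg _).trans (hL a ⟨le_rfl, hab⟩)
    exact mul_nonneg this (by linarith)

theorem trunc_eqn {p : Par} {N : ℕ} {A Φ : ℕ → ℝ → ℝ} (h : TSys p N A Φ) {i : ℕ}
    (hi : i ≤ N) {t : ℝ} (ht : t ∈ Icc 0 p.T) :
    A (i + 1) t = A (i + 1) 0 + ∫ s in (0 : ℝ)..t, rhs p A i s := by
  have hsub : uIcc 0 t ⊆ Icc 0 p.T := by
    rw [uIcc_of_le ht.1]
    exact Icc_subset_Icc_right ht.2
  have hc : ∀ j, ContinuousOn (A j) (uIcc 0 t) := fun j => (h.cont j).mono hsub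
  have hrc : ContinuousOn (rhs p A i) (uIcc 0 t) := by
    unfold rhs
    exact ((((continuousOn_const.mul (hc _)).add ((hc _).mul (hc _))).add
      (continuousOn_const.mul ((hc _).pow 2))).sub
      ((continuousOn_const.mul (hc _)).mul (hc _))).sub (((hc _).pow 2).div_const _)
  have := intervalIntegral.integral_eq_sub_of_hasDerivAt (a := 0) (b := t)
    (f := A (i + 1)) (f' := rhs p A i) (fun x hx => h.ode i hi x (hsub hx))
    hrc.intervalIntegrable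
  rw [this]
  ring

/-- The set of admissible functions for the `j`-th mode. -/
def Kset (p : Par) (j : ℕ) : Set (BoundedContinuousFunction (Icc (0 : ℝ) p.T) ℝ) :=
  closure {f | (∀ x, f x ∈ Icc (-(Bj p j)) (Bj p j)) ∧
    ∀ x y : Icc (0 : ℝ) p.T, |f x - f y| ≤ Lc p (j - 1) * |(x : ℝ) - y|}

theorem Kset_compact (p : Par) (j : ℕ) : IsCompact (Kset p j) := by
  apply BoundedContinuousFunction.arzela_ascoli (Icc (-(Bj p j)) (Bj p j)) isCompact_Icc
  · intro f x hf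
    exact hf.1 x
  · apply Metric.equicontinuous_of_continuity_modulus (fun r => |Lc p (j - 1)| * r)
    · have : Tendsto (fun r : ℝ => |Lc p (j - 1)| * r) (𝓝 0) (𝓝 (|Lc p (j - 1)| * 0)) :=
        tendsto_id.const_mul _
      simpa using this
    · intro x y f
      rw [Real.dist_eq]
      refine (f.2.2 x y).trans ?_
      have e : dist x y = |(x : ℝ) - y| := rfl
      rw [e]
      exact mul_le_mul_of_nonneg_right (le_abs_self _) (abs_nonneg _)

end Pool.Agent.Run7.h407
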