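import Mathlib
import Pool.Agent.Run7.h407.Calc

/-!
Swirl fields `h(y) (-y₁, y₀, 0)` with an axisymmetric profile, the strain field, and the
integrals that determine the coupling of a small swirl with a big strain field.
-/

namespace Pool.Agent.Run7.h407

open Set Filter Topology MeasureTheory
open scoped ContDiff

/-- `h` is invariant under rotations about the third axis (infinitesimally). -/
def Ax (h : V → ℝ) : Prop := ∀ y, y 0 * pd 1 h y = y 1 * pd 0 h y

/-- The swirl field with profile `h`. -/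
def sw (h : V → ℝ) (y : V) : V := ![-(y 1) * h y, y 0 * h y, 0]

theorem sw_zero (h : V → ℝ) (y : V) : sw h y 0 = -(y 1) * h y := rfl
theorem sw_one (h : V → ℝ) (y : V) : sw h y 1 = y 0 * h y := rfl
theorem sw_two (h : V → ℝ) (y : V) : sw h y 2 = 0 := rfl

theorem Ax.pd_two {h : V → ℝ} (hs : Sm h) (ha : Ax h) : Ax (pd 2 h) := by
  intro y
  have e : (fun y : V => y 0 * pd 1 h y) = fun y => y 1 * pd 0 h y := funext ha
  have h1 : pd 2 (fun y : V => y 0 * pd 1 h y) y = y 0 * pd 2 (pd 1 h) y := by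
    rw [pd_mul ((coord_sm 0).diff y) ((hs.pd 1).diff y), pd_coord]
    simp
  have h2 : pd 2 (fun y : V => y 1 * pd 0 h y) y = y 1 * pd 2 (pd 0 h) y := by
    rw [pd_mul ((coord_sm 1).diff y) ((hs.pd 0).diff y), pd_coord]
    simp
  rw [pd_comm hs 1 2, pd_comm hs 0 2, ← h1, ← h2, e]

theorem sw_sm {h : V → ℝ} (hs : Sm h) (i : Fin 3) : Sm (fun y => sw h y i) := by
  fin_cases i
  · show Sm (fun y => -(y 1) * h y)
    exact (coord_sm 1).neg.mul hs
  · show Sm (fun y => y 0 * h y)
    exact (coord_sm 0).mul hs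
  · show Sm (fun y => (0 : ℝ))
    exact contDiff_const

theorem sw_cs {h : V → ℝ} (hc : HasCompactSupport h) (i : Fin 3) :
    HasCompactSupport (fun y => sw h y i) := by
  fin_cases i
  · show HasCompactSupport (fun y => -(y 1) * h y)
    exact hc.mul_left (f := fun y : V => -(y 1))
  · show HasCompactSupport (fun y => y 0 * h y)
    exact hc.mul_left (f := fun y : V => y 0)
  · show HasCompactSupport (fun y : V => (0 : ℝ))
    exact HasCompactSupport.zero

theorem sw_CF {h : V → ℝ} (hs : Sm h) (hc : HasCompactSupport h) : CF (sw h) :=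
  CF.of_comp (fun i => sw_sm hs i) (fun i => sw_cs hc i)

theorem negc_sm (i : Fin 3) : Sm (fun z : V => -(z i)) := (coord_sm i).neg

theorem pd_sw_zero {h : V → ℝ} (hs : Sm h) (j : Fin 3) (y : V) :
    pd j (fun z => sw h z 0) y = -(y 1) * pd j h y + -(if (1 : Fin 3) = j then 1 else 0) * h y := by
  show pd j (fun z => -(z 1) * h z) y = _
  rw [pd_mul ((negc_sm 1).diff y) (hs.diff y), pd_neg, pd_coord]

theorem pd_sw_one {h : V → ℝ} (hs : Sm h) (j : Fin 3) (y : V) :
    pd j (fun z => sw h z 1) y = y 0 * pd j h y + (if (0 : Fin 3) = j then 1 else 0) * h y := by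
  show pd j (fun z => z 0 * h z) y = _
  rw [pd_mul ((coord_sm 0).diff y) (hs.diff y), pd_coord]

theorem pd_sw_two (h : V → ℝ) (j : Fin 3) (y : V) :
    pd j (fun z => sw h z 2) y = 0 := by
  show pd j (fun z => (0 : ℝ)) y = _
  rw [pd_const]

theorem sw_dvg {h : V → ℝ} (hs : Sm h) (ha : Ax h) (y : V) : dvg (sw h) y = 0 := by
  unfold dvg
  rw [Fin.sum_univ_three, pd_sw_zero hs, pd_sw_one hs, pd_sw_two]
  have := ha y
  simp
  linarith

/-- The strain field built from the profile `G`; it is the curl of `G(y) (-y₁, y₀, 0)`. -/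
noncomputable def str (G : V → ℝ) (y : V) : V :=
  ![-(y 0) * pd 2 G y, -(y 1) * pd 2 G y, 2 * G y + y 0 * pd 0 G y + y 1 * pd 1 G y]

theorem str_zero (G : V → ℝ) (y : V) : str G y 0 = -(y 0) * pd 2 G y := rfl
theorem str_one (G : V → ℝ) (y : V) : str G y 1 = -(y 1) * pd 2 G y := rfl
theorem str_two (G : V → ℝ) (y : V) :
    str G y 2 = 2 * G y + y 0 * pd 0 G y + y 1 * pd 1 G y := rfl

theorem str_sm {G : V → ℝ} (hs : Sm G) (i : Fin 3) : Sm (fun y => str G y i) := by
  fin_cases i
  · show Sm (fun y => -(y 0) * pd 2 G y)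
    exact (coord_sm 0).neg.mul (hs.pd 2)
  · show Sm (fun y => -(y 1) * pd 2 G y)
    exact (coord_sm 1).neg.mul (hs.pd 2)
  · show Sm (fun y => 2 * G y + y 0 * pd 0 G y + y 1 * pd 1 G y)
    exact ((contDiff_const.mul hs).add ((coord_sm 0).mul (hs.pd 0))).add
      ((coord_sm 1).mul (hs.pd 1))

theorem str_eq_zero {G : V → ℝ} {y : V} (hy : y ∉ tsupport G) : str G y = 0 := by
  have h0 : G y = 0 := image_eq_zero_of_notMem_tsupport hy
  funext i
  fin_cases i
  · show -(y 0) * pd 2 G y = 0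
    rw [pd_eq_zero hy, mul_zero]
  · show -(y 1) * pd 2 G y = 0
    rw [pd_eq_zero hy, mul_zero]
  · show 2 * G y + y 0 * pd 0 G y + y 1 * pd 1 G y = 0
    rw [pd_eq_zero hy, pd_eq_zero hy, h0]
    ring

theorem str_dvg {G : V → ℝ} (hs : Sm G) (y : V) : dvg (str G) y = 0 := by
  unfold dvg
  rw [Fin.sum_univ_three]
  have e0 : pd 0 (fun z => str G z 0) y = -(y 0) * pd 0 (pd 2 G) y + -1 * pd 2 G y := by
    show pd 0 (fun z => -(z 0) * pd 2 G z) y = _
    rw [pd_mul ((negc_sm 0).diff y) ((hs.pd 2).diff y), pd_neg, pd_coord]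
    simp
  have e1 : pd 1 (fun z => str G z 1) y = -(y 1) * pd 1 (pd 2 G) y + -1 * pd 2 G y := by
    show pd 1 (fun z => -(z 1) * pd 2 G z) y = _
    rw [pd_mul ((negc_sm 1).diff y) ((hs.pd 2).diff y), pd_neg, pd_coord]
    simp
  have e2 : pd 2 (fun z => str G z 2) y
      = 2 * pd 2 G y + y 0 * pd 2 (pd 0 G) y + y 1 * pd 2 (pd 1 G) y := by
    show pd 2 (fun z => 2 * G z + z 0 * pd 0 G z + z 1 * pd 1 G z) y = _
    have s0 : Sm (fun z : V => 2 * G z) := contDiff_const.mul hs
    have s1 : Sm (fun z : V => z 0 * pd 0 G z) := (coord_sm 0).mul (hs.pd 0)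
    have s2 : Sm (fun z : V => z 1 * pd 1 G z) := (coord_sm 1).mul (hs.pd 1)
    have s01 : Sm (fun z : V => 2 * G z + z 0 * pd 0 G z) := s0.add s1
    rw [pd_add (s01.diff y) (s2.diff y), pd_add (s0.diff y) (s1.diff y),
      pd_const_mul 2 (hs.diff y), pd_mul ((coord_sm 0).diff y) ((hs.pd 0).diff y),
      pd_mul ((coord_sm 1).diff y) ((hs.pd 1).diff y), pd_coord, pd_coord]
    simp
  rw [e0, e1, e2, pd_comm hs 0 2, pd_comm hs 1 2]
  ring

/-- Data of the construction: `h` is the profile of the child swirl, `G` the profile of the parent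
strain field, with `G = y₂ + 1/2` near the support of `h`. -/
structure Cpl (h G : V → ℝ) : Prop where
  hs : Sm h
  hc : HasCompactSupport h
  ha : Ax h
  heven : ∀ y, h (-y) = h y
  hpos : 0 < ∫ y, (y 0 ^ 2 + y 1 ^ 2) * h y ^ 2
  Gs : Sm G
  Gc : HasCompactSupport G
  Gloc : ∀ y ∈ tsupport h, G =ᶠ[𝓝 y] fun z => z 2 + 1 / 2

/-- The parent field. -/
noncomputable def par (δ : ℝ) (h G : V → ℝ) (y : V) : V := str G y + δ • sw (pd 2 h) y

namespace Cpl

variable {h G : V → ℝ} (C : Cpl h G)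

include C

theorem par_CF (δ : ℝ) : CF (par δ h G) := by
  apply CF.add
  · apply CF.of_comp (fun i => str_sm C.Gs i)
    intro i
    apply HasCompactSupport.intro C.Gc.isCompact
    intro x hx
    rw [str_eq_zero hx]
    rfl
  · exact (sw_CF (C.hs.pd 2) (pd_cs C.hc 2)).smul δ

theorem par_dvg (δ : ℝ) (y : V) : dvg (par δ h G) y = 0 := by
  have h1 := str_dvg C.Gs y
  have h2 := sw_dvg (C.hs.pd 2) (C.ha.pd_two C.hs) y
  unfold dvg at *
  have e : ∀ i, pd i (fun z => par δ h G z i) y
      = pd i (fun z => str G z i) y + δ * pd i (fun z => sw (pd 2 h) z i) y := by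
    intro i
    have s1 := str_sm C.Gs i
    have s2 := sw_sm (C.hs.pd 2) i
    have s3 : Sm (fun z => δ * sw (pd 2 h) z i) := contDiff_const.mul s2
    show pd i (fun z => str G z i + δ * sw (pd 2 h) z i) y = _
    rw [pd_add (s1.diff y) (s3.diff y), pd_const_mul δ (s2.diff y)]
  simp_rw [e]
  rw [Finset.sum_add_distrib, ← Finset.mul_sum, h1, h2]
  ring

/-- Gradient of the strain field near the support of `h`. -/
theorem str_loc {y : V} (hy : y ∈ tsupport h) :
    (∀ i, str G y i = ![-(y 0), -(y 1), 2 * y 2 + 1] i) ∧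
    ∀ i j, pd j (fun z => str G z i) y = if i = j then ![-1, -1, 2] i else 0 := by
  have hG := C.Gloc y hy
  have hG2 := hG.eventually_nhds
  have hs2 : Sm (fun z : V => z 2 + 1 / 2) := (coord_sm 2).add contDiff_const
  have hpd : ∀ j, ∀ᶠ w in 𝓝 y, pd j G w = if (2 : Fin 3) = j then 1 else 0 := by
    intro j
    filter_upwards [hG2] with w hw
    rw [pd_congr hw j, pd_add ((coord_sm 2).diff w) (differentiableAt_const _), pd_coord, pd_const]
    simp
  have hst : ∀ᶠ w in 𝓝 y, str G w = ![-(w 0), -(w 1), 2 * w 2 + 1] := by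
    filter_upwards [hpd 0, hpd 1, hpd 2, hG] with w h0 h1 h2 h3
    unfold str
    rw [h0, h1, h2, h3]
    simp
    ring
  constructor
  · intro i
    rw [hst.self_of_nhds]
  · intro i j
    have e : (fun z => str G z i) =ᶠ[𝓝 y] fun z => (![-(z 0), -(z 1), 2 * z 2 + 1] : V) i := by
      filter_upwards [hst] with w hw
      rw [hw]
    rw [pd_congr e j]
    fin_cases i
    · show pd j (fun z : V => -(z 0)) y = _
      rw [pd_neg, pd_coord]
      fin_cases j <;> simp
    · show pd j (fun z : V => -(z 1)) y = _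
      rw [pd_neg, pd_coord]
      fin_cases j <;> simp
    · show pd j (fun z : V => 2 * z 2 + 1) y = _
      have s0 : Sm (fun z : V => 2 * z 2) := contDiff_const.mul (coord_sm 2)
      rw [pd_add (s0.diff y) (differentiableAt_const _), pd_const_mul 2 ((coord_sm 2).diff y),
        pd_coord, pd_const]
      fin_cases j <;> simp

end Cpl

end Pool.Agent.Run7.h407
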