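import Mathlib
import Pool.Agent.Run7.h407.Swirl

/-!
The integrals that determine the coupling of the child swirl with the parent field.
-/

namespace Pool.Agent.Run7.h407

open Set Filter Topology MeasureTheory
open scoped ContDiff

theorem self_zero {f : V → ℝ} (hf : Sm f) (hc : HasCompactSupport f) (j : Fin 3) :
    ∫ x, f x * pd j f x = 0 := by
  have h1 := ibp hf hf hc j
  have h2 : ∫ x, pd j f x * f x = ∫ x, f x * pd j f x := by
    congr 1
    funext x
    ring
  rw [h2] at h1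
  linarith

theorem pd_comp_neg {f : V → ℝ} (hf : Sm f) (x : V) (j : Fin 3) :
    pd j (fun y => f (-y)) x = -pd j f (-x) := by
  have h := pd_comp_smul (hf.differentiable (by simp)) (-1) x j
  simp only [neg_smul, one_smul, neg_mul, one_mul] at h
  exact h

/-- An odd function has vanishing integral. -/
theorem integral_odd {f : V → ℝ} (h : ∀ x, f (-x) = -f x) : ∫ x, f x = 0 := by
  have h1 := integral_neg_eq_self f (volume : Measure V)
  simp_rw [h] at h1
  rw [integral_neg] at h1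
  linarith

namespace Cpl

variable {h G : V → ℝ} (C : Cpl h G)

include C

theorem pd_even (y : V) (j : Fin 3) : pd j h (-y) = -pd j h y := by
  have h1 := pd_comp_neg C.hs y j
  have h2 : (fun z => h (-z)) = h := funext C.heven
  rw [h2] at h1
  linarith

theorem pd_pd_even (y : V) (i j : Fin 3) : pd j (pd i h) (-y) = pd j (pd i h) y := by
  have h1 := pd_comp_neg (C.hs.pd i) y j
  have h2 : (fun z => pd i h (-z)) = fun z => -pd i h z := funext fun z => C.pd_even z i
  rw [h2, pd_neg] at h1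
  linarith

theorem rho_h_sm : Sm (fun y : V => (y 0 ^ 2 + y 1 ^ 2) * h y) :=
  (((coord_sm 0).pow 2).add ((coord_sm 1).pow 2)).mul C.hs

theorem rho_h_cs : HasCompactSupport (fun y : V => (y 0 ^ 2 + y 1 ^ 2) * h y) :=
  C.hc.mul_left (f := fun y : V => y 0 ^ 2 + y 1 ^ 2)

theorem pd_rho_h (y : V) : pd 2 (fun y : V => (y 0 ^ 2 + y 1 ^ 2) * h y) y
    = (y 0 ^ 2 + y 1 ^ 2) * pd 2 h y := by
  have s1 : Sm (fun y : V => y 0 ^ 2 + y 1 ^ 2) := ((coord_sm 0).pow 2).add ((coord_sm 1).pow 2)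
  have s0 : Sm (fun y : V => y 0 * y 0) := (coord_sm 0).mul (coord_sm 0)
  have s2 : Sm (fun y : V => y 1 * y 1) := (coord_sm 1).mul (coord_sm 1)
  have e : pd 2 (fun y : V => y 0 ^ 2 + y 1 ^ 2) y = 0 := by
    have e2 : (fun y : V => y 0 ^ 2 + y 1 ^ 2) = fun y => y 0 * y 0 + y 1 * y 1 := by
      funext z
      ring
    rw [e2, pd_add (s0.diff y) (s2.diff y), pd_mul ((coord_sm 0).diff y) ((coord_sm 0).diff y),
      pd_mul ((coord_sm 1).diff y) ((coord_sm 1).diff y), pd_coord, pd_coord]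
    simp
  rw [pd_mul (s1.diff y) (C.hs.diff y), e]
  ring

/-- `∫ ρ² h ∂₂h = 0`. -/
theorem int_hg : ∫ y : V, (y 0 ^ 2 + y 1 ^ 2) * h y * pd 2 h y = 0 := by
  have h1 := ibp C.rho_h_sm C.hs C.rho_h_cs 2
  simp_rw [C.pd_rho_h] at h1
  have h2 : ∫ y : V, (y 0 ^ 2 + y 1 ^ 2) * pd 2 h y * h y
      = ∫ y : V, (y 0 ^ 2 + y 1 ^ 2) * h y * pd 2 h y := by
    congr 1
    funext x
    ring
  rw [h2] at h1
  linarith

/-- `∫ ρ² h ∂₂∂₂h = -∫ ρ² (∂₂h)²`. -/
theorem int_hgg : ∫ y : V, (y 0 ^ 2 + y 1 ^ 2) * h y * pd 2 (pd 2 h) y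
    = -∫ y : V, (y 0 ^ 2 + y 1 ^ 2) * pd 2 h y ^ 2 := by
  have h1 := ibp C.rho_h_sm (C.hs.pd 2) C.rho_h_cs 2
  simp_rw [C.pd_rho_h] at h1
  rw [h1]
  congr 2
  funext x
  ring

/-- `S = ∫ ρ² (∂₂h)²` is positive. -/
theorem S_pos : 0 < ∫ y : V, (y 0 ^ 2 + y 1 ^ 2) * pd 2 h y ^ 2 := by
  have hcont : Continuous (fun y : V => (y 0 ^ 2 + y 1 ^ 2) * pd 2 h y ^ 2) :=
    (((coord_sm 0).pow 2).add ((coord_sm 1).pow 2)).continuous.mul ((C.hs.pd 2).continuous.pow 2)
  have hcs : HasCompactSupport (fun y : V => (y 0 ^ 2 + y 1 ^ 2) * pd 2 h y ^ 2) := by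
    apply HasCompactSupport.intro C.hc.isCompact
    intro x hx
    rw [pd_eq_zero hx]
    ring
  have hnn : 0 ≤ (fun y : V => (y 0 ^ 2 + y 1 ^ 2) * pd 2 h y ^ 2) := by
    intro y
    show 0 ≤ (y 0 ^ 2 + y 1 ^ 2) * pd 2 h y ^ 2
    positivity
  by_contra hcon
  have hall : ∀ y : V, (y 0 ^ 2 + y 1 ^ 2) * pd 2 h y ^ 2 = 0 := by
    intro y
    by_contra hy
    exact hcon (hcont.integral_pos_of_hasCompactSupport_nonneg_nonzero hcs hnn hy)
  -- then `∫ ρ² h² = -2 ∫ ρ² h ∂₂h y₂ = 0`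
  have hb := C.hpos
  have h1 := ibp (f := fun y : V => (y 0 ^ 2 + y 1 ^ 2) * h y * h y) (g := fun y : V => y 2)
    (C.rho_h_sm.mul C.hs) (coord_sm 2) (C.rho_h_cs.mul_right (f' := h)) 2
  have h2 : ∀ y : V, pd 2 (fun y : V => (y 0 ^ 2 + y 1 ^ 2) * h y * h y) y
      = 2 * ((y 0 ^ 2 + y 1 ^ 2) * pd 2 h y) * h y := by
    intro y
    have := pd_mul (f := fun y : V => (y 0 ^ 2 + y 1 ^ 2) * h y) (g := h)
      (C.rho_h_sm.diff y) (C.hs.diff y) 2
    rw [this, C.pd_rho_h]
    ring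
  have h3 : ∀ y : V, ((y 0 ^ 2 + y 1 ^ 2) * pd 2 h y) = 0 := by
    intro y
    rcases mul_eq_zero.1 (hall y) with h4 | h4
    · rw [h4, zero_mul]
    · rw [pow_eq_zero_iff (by norm_num)] at h4
      rw [h4, mul_zero]
  have h4 : ∫ y : V, pd 2 (fun y : V => (y 0 ^ 2 + y 1 ^ 2) * h y * h y) y * y 2 = 0 := by
    have : (fun y : V => pd 2 (fun y : V => (y 0 ^ 2 + y 1 ^ 2) * h y * h y) y * y 2)
        = fun _ => 0 := by
      funext y
      rw [h2, h3]
      ring
    rw [this]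
    simp
  rw [h4] at h1
  have h5 : ∫ y : V, (y 0 ^ 2 + y 1 ^ 2) * h y * h y * pd 2 (fun y : V => y 2) y
      = ∫ y : V, (y 0 ^ 2 + y 1 ^ 2) * h y ^ 2 := by
    congr 1
    funext y
    rw [pd_coord]
    simp
    ring
  rw [h5] at h1
  rw [h1] at hb
  simp at hb

/-- Outside the support of `h` the child swirl vanishes with its derivatives. -/
theorem sw_out {y : V} (hy : y ∉ tsupport h) : sw h y = 0 ∧
    ∀ i j, pd j (fun z => sw h z i) y = 0 := by
  have h0 : h y = 0 := image_eq_zero_of_notMem_tsupport hy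
  constructor
  · funext i
    fin_cases i
    · show -(y 1) * h y = 0
      rw [h0, mul_zero]
    · show y 0 * h y = 0
      rw [h0, mul_zero]
    · rfl
  · intro i j
    fin_cases i
    · show pd j (fun z => sw h z 0) y = 0
      rw [pd_sw_zero C.hs, pd_eq_zero hy, h0]
      ring
    · show pd j (fun z => sw h z 1) y = 0
      rw [pd_sw_one C.hs, pd_eq_zero hy, h0]
      ring
    · exact pd_sw_two h j y

theorem pd_par (δ : ℝ) (i j : Fin 3) (y : V) : pd j (fun z => par δ h G z i) y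
    = pd j (fun z => str G z i) y + δ * pd j (fun z => sw (pd 2 h) z i) y := by
  have s1 := str_sm C.Gs i
  have s2 := sw_sm (C.hs.pd 2) i
  have s3 : Sm (fun z => δ * sw (pd 2 h) z i) := contDiff_const.mul s2
  show pd j (fun z => str G z i + δ * sw (pd 2 h) z i) y = _
  rw [pd_add (s1.diff y) (s3.diff y), pd_const_mul δ (s2.diff y)]

/-- Orthogonality in `L²`. -/
theorem ip_zero (δ : ℝ) : ip (par δ h G) (sw h) = 0 := by
  unfold ip
  have e : (fun y : V => ∑ i, par δ h G y i * sw h y i)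
      = fun y => δ * ((y 0 ^ 2 + y 1 ^ 2) * h y * pd 2 h y) := by
    funext y
    have e0 : ∀ i, par δ h G y i = str G y i + δ * sw (pd 2 h) y i := fun i => rfl
    rw [Fin.sum_univ_three, e0, e0, e0, str_zero, str_one, sw_zero, sw_one, sw_two, sw_two,
      sw_zero, sw_one]
    ring
  rw [e, integral_const_mul, C.int_hg, mul_zero]

/-- Orthogonality for the Dirichlet form. -/
theorem Dir_zero (δ : ℝ) : Dir (par δ h G) (sw h) = 0 := by
  unfold Dir
  have e : (fun y : V => ∑ i, ∑ j, pd j (fun z => par δ h G z i) y * pd j (fun z => sw h z i) y)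
      = fun y => δ * ∑ i : Fin 3, ∑ j : Fin 3,
        pd j (fun z => sw h z i) y * pd 2 (pd j (fun z => sw h z i)) y := by
    funext y
    have e1 : ∑ i : Fin 3, ∑ j : Fin 3, pd j (fun z => str G z i) y * pd j (fun z => sw h z i) y
        = 0 := by
      by_cases hy : y ∈ tsupport h
      · have h1 := (C.str_loc hy).2
        have h2 := sw_dvg C.hs C.ha y
        have h3 := pd_sw_two h 2 y
        unfold dvg at h2
        rw [Fin.sum_univ_three] at h2
        simp_rw [h1]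
        simp only [ite_mul, zero_mul, Finset.sum_ite_eq, Finset.mem_univ, if_true]
        rw [Fin.sum_univ_three]
        simp only [Matrix.cons_val_zero, Matrix.cons_val_one, Matrix.cons_val_two,
          Matrix.tail_cons, Matrix.head_cons]
        rw [h3] at h2 ⊢
        linarith
      · have h1 := (C.sw_out hy).2
        simp_rw [h1]
        simp
    have e2 : ∀ i j : Fin 3, pd j (fun z => sw (pd 2 h) z i) y
        = pd 2 (pd j (fun z => sw h z i)) y := by
      intro i j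
      have e3 : (fun z => sw (pd 2 h) z i) = pd 2 (fun z => sw h z i) := by
        funext w
        fin_cases i
        · show -(w 1) * pd 2 h w = pd 2 (fun z => sw h z 0) w
          rw [pd_sw_zero C.hs]
          simp
        · show w 0 * pd 2 h w = pd 2 (fun z => sw h z 1) w
          rw [pd_sw_one C.hs]
          simp
        · show (0 : ℝ) = pd 2 (fun z => sw h z 2) w
          rw [pd_sw_two]
      rw [e3, pd_comm (sw_sm C.hs i)]
    simp_rw [C.pd_par, e2, add_mul, Finset.sum_add_distrib]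
    rw [e1, zero_add, Finset.mul_sum]
    congr 1
    funext i
    rw [Finset.mul_sum]
    congr 1
    funext j
    ring
  rw [e, integral_const_mul]
  have hint : ∀ i j : Fin 3, Integrable (fun y : V => pd j (fun z => sw h z i) y
      * pd 2 (pd j (fun z => sw h z i)) y) volume := fun i j =>
    integrable_of_cs ((sw_sm C.hs i).pd j).continuous (pd_cs (sw_cs C.hc i) j)
      (((sw_sm C.hs i).pd j).pd 2).continuous
  rw [integral_finsetSum _ (fun i _ => integrable_finsetSum _ (fun j _ => hint i j))]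
  have hz : ∀ i : Fin 3, ∫ y : V, ∑ j : Fin 3, pd j (fun z => sw h z i) y
      * pd 2 (pd j (fun z => sw h z i)) y = 0 := by
    intro i
    rw [integral_finsetSum _ (fun j _ => hint i j)]
    apply Finset.sum_eq_zero
    intro j _
    exact self_zero ((sw_sm C.hs i).pd j) (pd_cs (sw_cs C.hc i) j) 2
  rw [Finset.sum_eq_zero (fun i _ => hz i), mul_zero]

/-- The child is amplified by the strain of the parent. -/
theorem tri_cPc (δ : ℝ) : tri (sw h) (par δ h G) (sw h)
    = -∫ y : V, (y 0 ^ 2 + y 1 ^ 2) * h y ^ 2 := by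
  unfold tri
  rw [← integral_neg]
  congr 1
  funext y
  by_cases hy : y ∈ tsupport h
  · have h1 := (C.str_loc hy).2
    have h2 := C.ha.pd_two C.hs y
    simp_rw [C.pd_par, h1, Fin.sum_univ_three]
    rw [pd_sw_zero (C.hs.pd 2), pd_sw_zero (C.hs.pd 2), pd_sw_zero (C.hs.pd 2),
      pd_sw_one (C.hs.pd 2), pd_sw_one (C.hs.pd 2), pd_sw_one (C.hs.pd 2),
      pd_sw_two, pd_sw_two, pd_sw_two, sw_zero, sw_one, sw_two]
    simp
    linear_combination (-(y 1) * h y * (δ * h y * (-(y 1))) + y 0 * h y * (δ * h y * y 0)) * h2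
  · have h3 := (C.sw_out hy).1
    have h0 : h y = 0 := image_eq_zero_of_notMem_tsupport hy
    simp_rw [h3, h0]
    simp

/-- The integrand of the seeding coefficient. -/
theorem seed_integrand (δ : ℝ) (y : V) :
    ∑ i, (∑ j, par δ h G y j * pd j (fun z => par δ h G z i) y) * sw h y i
    = δ * ((y 0 ^ 2 + y 1 ^ 2) * h y * (-2 * pd 2 h y - y 0 * pd 0 (pd 2 h) y
        - y 1 * pd 1 (pd 2 h) y + 2 * y 2 * pd 2 (pd 2 h) y))
      + δ * ((y 0 ^ 2 + y 1 ^ 2) * h y * pd 2 (pd 2 h) y) := by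
  by_cases hy : y ∈ tsupport h
  · have h1 := (C.str_loc hy).2
    have h1' := (C.str_loc hy).1
    have h2 := C.ha.pd_two C.hs y
    have e0 : ∀ i, par δ h G y i = str G y i + δ * sw (pd 2 h) y i := fun i => rfl
    simp_rw [C.pd_par, e0, h1, h1', Fin.sum_univ_three]
    rw [pd_sw_zero (C.hs.pd 2), pd_sw_zero (C.hs.pd 2), pd_sw_zero (C.hs.pd 2),
      pd_sw_one (C.hs.pd 2), pd_sw_one (C.hs.pd 2), pd_sw_one (C.hs.pd 2),
      pd_sw_two, pd_sw_two, pd_sw_two, sw_zero, sw_one, sw_two, sw_zero, sw_one, sw_two]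
    simp
    linear_combination (δ ^ 2 * pd 2 h y * (y 0 ^ 2 + y 1 ^ 2) * h y) * h2
  · have h3 := (C.sw_out hy).1
    have h0 : h y = 0 := image_eq_zero_of_notMem_tsupport hy
    simp_rw [h3, h0]
    simp

/-- The seeding coefficient. -/
theorem tri_PPc (δ : ℝ) : tri (par δ h G) (par δ h G) (sw h)
    = -(δ * ∫ y : V, (y 0 ^ 2 + y 1 ^ 2) * pd 2 h y ^ 2) := by
  unfold tri
  simp_rw [C.seed_integrand δ]
  have c0 : Continuous (fun y : V => (y 0 ^ 2 + y 1 ^ 2)) :=
    (((coord_sm 0).pow 2).add ((coord_sm 1).pow 2)).continuous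
  have i1 : Integrable (fun y : V => (y 0 ^ 2 + y 1 ^ 2) * h y * (-2 * pd 2 h y
      - y 0 * pd 0 (pd 2 h) y - y 1 * pd 1 (pd 2 h) y + 2 * y 2 * pd 2 (pd 2 h) y)) volume := by
    apply integrable_of_cs C.rho_h_sm.continuous C.rho_h_cs
    have s2 := (C.hs.pd 2)
    exact ((((contDiff_const.mul s2).sub ((coord_sm 0).mul (s2.pd 0))).sub
      ((coord_sm 1).mul (s2.pd 1))).add
      ((contDiff_const.mul (coord_sm 2)).mul (s2.pd 2))).continuous
  have i2 : Integrable (fun y : V => (y 0 ^ 2 + y 1 ^ 2) * h y * pd 2 (pd 2 h) y) volume :=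
    integrable_of_cs C.rho_h_sm.continuous C.rho_h_cs ((C.hs.pd 2).pd 2).continuous
  rw [integral_add (i1.const_mul δ) (i2.const_mul δ), integral_const_mul, integral_const_mul,
    C.int_hgg]
  have h0 : ∫ y : V, (y 0 ^ 2 + y 1 ^ 2) * h y * (-2 * pd 2 h y
      - y 0 * pd 0 (pd 2 h) y - y 1 * pd 1 (pd 2 h) y + 2 * y 2 * pd 2 (pd 2 h) y) = 0 := by
    apply integral_odd
    intro y
    rw [C.heven, C.pd_even, C.pd_pd_even, C.pd_pd_even, C.pd_pd_even]
    simp only [Pi.neg_apply]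
    ring
  rw [h0]
  ring

end Cpl

end Pool.Agent.Run7.h407
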