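import Mathlib
import Pool.Agent.Run7.h407.SwirlInt

/-!
The concrete profiles: a radial cut-off, the child profile and the parent potential.
-/

namespace Pool.Agent.Run7.h407

open Set Filter Topology MeasureTheory
open scoped ContDiff

/-- `|y|²`. -/
def s2 (y : V) : ℝ := y 0 ^ 2 + y 1 ^ 2 + y 2 ^ 2

theorem s2_sm : Sm s2 :=
  (((coord_sm 0).pow 2).add ((coord_sm 1).pow 2)).add ((coord_sm 2).pow 2)

theorem s2_neg (y : V) : s2 (-y) = s2 y := by
  unfold s2
  simp

theorem s2_smul (r : ℝ) (y : V) : s2 (r • y) = r ^ 2 * s2 y := by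
  unfold s2
  simp
  ring

theorem s2_nonneg (y : V) : 0 ≤ s2 y := by
  unfold s2
  positivity

theorem abs_coord_le {y : V} {r : ℝ} (hr : 0 ≤ r) (h : s2 y ≤ r ^ 2) (i : Fin 3) : |y i| ≤ r := by
  apply abs_le_of_sq_le_sq _ hr
  unfold s2 at h
  have h0 := sq_nonneg (y 0)
  have h1 := sq_nonneg (y 1)
  have h2 := sq_nonneg (y 2)
  fin_cases i
  · show y 0 ^ 2 ≤ r ^ 2
    linarith
  · show y 1 ^ 2 ≤ r ^ 2
    linarith
  · show y 2 ^ 2 ≤ r ^ 2
    linarith

/-- The radial cut-off: `1` for `|y|² ≤ 1/32`, `0` for `|y|² ≥ 1/16`. -/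
noncomputable def chi (y : V) : ℝ := Real.smoothTransition (2 - 32 * s2 y)

theorem chi_sm : Sm chi :=
  Real.smoothTransition.contDiff.comp (contDiff_const.sub (contDiff_const.mul s2_sm))

theorem chi_one {y : V} (hy : s2 y ≤ 1 / 32) : chi y = 1 :=
  Real.smoothTransition.one_of_one_le (by linarith)

theorem chi_zero {y : V} (hy : 1 / 16 ≤ s2 y) : chi y = 0 :=
  Real.smoothTransition.zero_of_nonpos (by linarith)

theorem chi_neg (y : V) : chi (-y) = chi y := by
  unfold chi
  rw [s2_neg]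

theorem chi_tsupport {y : V} (hy : y ∈ tsupport chi) : s2 y ≤ 1 / 16 := by
  have hsub : tsupport chi ⊆ {y | s2 y ≤ 1 / 16} := by
    apply closure_minimal _ (isClosed_le s2_sm.continuous continuous_const)
    intro z hz
    by_contra hcon
    exact hz (chi_zero (not_le.1 hcon).le)
  exact hsub hy

theorem chi_cs : HasCompactSupport chi := by
  apply HasCompactSupport.intro (isCompact_closedBall (0 : V) 1)
  intro y hy
  apply chi_zero
  by_contra hcon
  push Not at hcon
  apply hy
  rw [mem_closedBall_zero_iff, pi_norm_le_iff_of_nonneg (by norm_num)]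
  intro i
  rw [Real.norm_eq_abs]
  exact abs_coord_le (by norm_num) (by linarith) i

theorem pd_s2 (j : Fin 3) (y : V) : pd j s2 y = 2 * y j := by
  have hm : ∀ i : Fin 3, Sm (fun y : V => y i * y i) := fun i => (coord_sm i).mul (coord_sm i)
  have e : s2 = fun y : V => (y 0 * y 0 + y 1 * y 1) + y 2 * y 2 := by
    funext z
    unfold s2
    ring
  have s01 : Sm (fun y : V => y 0 * y 0 + y 1 * y 1) := (hm 0).add (hm 1)
  rw [e, pd_add (s01.diff y) ((hm 2).diff y), pd_add ((hm 0).diff y) ((hm 1).diff y),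
    pd_mul ((coord_sm 0).diff y) ((coord_sm 0).diff y),
    pd_mul ((coord_sm 1).diff y) ((coord_sm 1).diff y),
    pd_mul ((coord_sm 2).diff y) ((coord_sm 2).diff y), pd_coord, pd_coord, pd_coord]
  fin_cases j <;> simp <;> ring

theorem pd_chi (j : Fin 3) (y : V) :
    pd j chi y = -64 * y j * deriv Real.smoothTransition (2 - 32 * s2 y) := by
  have h1 : HasDerivAt Real.smoothTransition (deriv Real.smoothTransition (2 - 32 * s2 y))
      (2 - 32 * s2 y) :=
    ((Real.smoothTransition.contDiff (n := 1)).differentiable (by norm_num) _).hasDerivAt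
  have h2 : HasFDerivAt (fun z : V => 2 - 32 * s2 z) (-((32 : ℝ) • fderiv ℝ s2 y)) y :=
    ((s2_sm.diff y).hasFDerivAt.const_mul 32).const_sub 2
  have h3 : HasFDerivAt chi _ y := h1.comp_hasFDerivAt y h2
  have h4 := pd_s2 j y
  unfold pd at *
  rw [h3.fderiv]
  simp only [smul_apply, neg_apply, smul_eq_mul]
  rw [h4]
  ring

theorem chi_Ax : Ax chi := by
  intro y
  rw [pd_chi, pd_chi]
  ring

/-- The profile of the child. -/
noncomputable def hc (μ : ℝ) (y : V) : ℝ := μ ^ 5 * chi (μ ^ 2 • y)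

/-- The profile of the parent potential. -/
noncomputable def Gp (y : V) : ℝ := chi y * (y 2 + 1 / 2)

theorem chi_smul_sm (r : ℝ) : Sm (fun y : V => chi (r • y)) :=
  chi_sm.comp (contDiff_const_smul r)

theorem hc_sm (μ : ℝ) : Sm (hc μ) := contDiff_const.mul (chi_smul_sm (μ ^ 2))

theorem hc_supp {μ : ℝ} (hμ : 2 ≤ μ) {y : V} (hy : y ∈ tsupport (hc μ)) :
    s2 y ≤ 1 / (16 * μ ^ 4) := by
  have hμ0 : 0 < μ := by linarith
  have hsub : tsupport (hc μ) ⊆ {y | s2 y ≤ 1 / (16 * μ ^ 4)} := by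
    apply closure_minimal _ (isClosed_le s2_sm.continuous continuous_const)
    intro z hz
    by_contra hcon
    simp only [mem_ofPred_eq, not_le] at hcon
    apply hz
    unfold hc
    rw [chi_zero, mul_zero]
    rw [s2_smul]
    rw [div_lt_iff₀ (by positivity)] at hcon
    have e : (μ ^ 2) ^ 2 = μ ^ 4 := by ring
    rw [e]
    linarith
  exact hsub hy

theorem hc_cs {μ : ℝ} (hμ : 2 ≤ μ) : HasCompactSupport (hc μ) := by
  apply HasCompactSupport.intro (isCompact_closedBall (0 : V) 1)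
  intro y hy
  by_contra hcon
  apply hy
  have h1 := hc_supp hμ (subset_tsupport _ hcon)
  rw [mem_closedBall_zero_iff, pi_norm_le_iff_of_nonneg (by norm_num)]
  intro i
  rw [Real.norm_eq_abs]
  apply abs_coord_le (by norm_num) _ i
  have h2 : 1 / (16 * μ ^ 4) ≤ 1 := by
    have hμ4 : 1 ≤ μ ^ 4 := one_le_pow₀ (by linarith)
    rw [div_le_one (by positivity)]
    linarith
  linarith

theorem inv_mu4_small {μ : ℝ} (hμ : 2 ≤ μ) : 1 / (16 * μ ^ 4) ≤ 1 / 256 := by
  have h : (2 : ℝ) ^ 4 ≤ μ ^ 4 := pow_le_pow_left₀ (by norm_num) hμ 4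
  apply one_div_le_one_div_of_le (by norm_num)
  linarith

theorem Gp_sm : Sm Gp := chi_sm.mul ((coord_sm 2).add contDiff_const)

theorem Gp_cs : HasCompactSupport Gp := chi_cs.mul_right (f' := fun y : V => y 2 + 1 / 2)

theorem Gp_loc {y : V} (hy : s2 y < 1 / 32) : Gp =ᶠ[𝓝 y] fun z => z 2 + 1 / 2 := by
  have : {z : V | s2 z < 1 / 32} ∈ 𝓝 y :=
    (isOpen_lt s2_sm.continuous continuous_const).mem_nhds hy
  filter_upwards [this] with z hz
  unfold Gp
  rw [chi_one (le_of_lt hz), one_mul]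

theorem cpl {μ : ℝ} (hμ : 2 ≤ μ) : Cpl (hc μ) Gp where
  hs := hc_sm μ
  hc := hc_cs hμ
  ha := by
    intro y
    have h1 : ∀ j, pd j (hc μ) y = μ ^ 5 * (μ ^ 2 * pd j chi (μ ^ 2 • y)) := by
      intro j
      have := pd_const_mul (μ ^ 5) ((chi_smul_sm (μ ^ 2)).diff y) j
      rw [pd_comp_smul (chi_sm.differentiable (by simp))] at this
      exact this
    rw [h1, h1]
    have h2 := chi_Ax (μ ^ 2 • y)
    simp only [Pi.smul_apply, smul_eq_mul] at h2
    linear_combination μ ^ 5 * h2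
  heven := by
    intro y
    unfold hc
    rw [smul_neg, chi_neg]
  hpos := by
    have hμ0 : 0 < μ := by linarith
    apply Continuous.integral_pos_of_hasCompactSupport_nonneg_nonzero
      (x := (fun i : Fin 3 => if i = 0 then 1 / (8 * μ ^ 2) else 0 : V))
    · exact (((coord_sm 0).pow 2).add ((coord_sm 1).pow 2)).continuous.mul
        ((hc_sm μ).continuous.pow 2)
    · apply HasCompactSupport.intro (hc_cs hμ).isCompact
      intro x hx
      rw [image_eq_zero_of_notMem_tsupport hx]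
      ring
    · intro y
      show 0 ≤ (y 0 ^ 2 + y 1 ^ 2) * hc μ y ^ 2
      positivity
    · have e1 : s2 (μ ^ 2 • (fun i : Fin 3 => if i = 0 then 1 / (8 * μ ^ 2) else 0 : V))
          = 1 / 64 := by
        rw [s2_smul]
        unfold s2
        simp
        field_simp
        norm_num
      have e2 : hc μ (fun i : Fin 3 => if i = 0 then 1 / (8 * μ ^ 2) else 0 : V) = μ ^ 5 := by
        unfold hc
        rw [chi_one (by rw [e1]; norm_num), mul_one]
      rw [e2]
      simp
      exact hμ0.ne'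
  Gs := Gp_sm
  Gc := Gp_cs
  Gloc := by
    intro y hy
    apply Gp_loc
    have h1 := hc_supp hμ hy
    have h2 := inv_mu4_small hμ
    linarith

end Pool.Agent.Run7.h407
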