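import Mathlib
import Pool.Agent.Run7.h407.Profile

/-!
The field `psi` and its dilates.
-/

namespace Pool.Agent.Run7.h407

open Set Filter Topology MeasureTheory
open scoped ContDiff

/-- `L²`-normalised dilation. -/
noncomputable def dil (s : ℝ) (u : V → V) (x : V) : V := s ^ 3 • u (s ^ 2 • x)

theorem dil_apply (s : ℝ) (u : V → V) (x : V) (i : Fin 3) :
    dil s u x i = s ^ 3 * u (s ^ 2 • x) i := rfl

theorem dil_dil (s r : ℝ) (u : V → V) : dil s (dil r u) = dil (s * r) u := by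
  funext x
  unfold dil
  rw [smul_smul, smul_smul]
  congr 1
  · ring
  · congr 2
    ring

theorem dil_one (u : V → V) : dil 1 u = u := by
  funext x
  unfold dil
  simp

theorem comp_smul_cs {f : V → ℝ} (hf : HasCompactSupport f) {r : ℝ} (hr : r ≠ 0) :
    HasCompactSupport (fun x => f (r • x)) :=
  hf.comp_homeomorph (Homeomorph.smulOfNeZero r hr)

theorem dil_CF {u : V → V} (hu : CF u) {s : ℝ} (hs : s ≠ 0) : CF (dil s u) := by
  apply CF.of_comp
  · intro i
    exact contDiff_const.mul ((hu.smc i).comp (contDiff_const_smul (s ^ 2)))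
  · intro i
    exact (comp_smul_cs (hu.csc i) (pow_ne_zero 2 hs)).mul_left (f := fun _ => s ^ 3)

theorem pd_dil {u : V → V} (hu : ∀ i, Sm (fun y => u y i)) (s : ℝ) (i j : Fin 3) (x : V) :
    pd j (fun y => dil s u y i) x = s ^ 5 * pd j (fun y => u y i) (s ^ 2 • x) := by
  have h1 : Sm (fun y => u (s ^ 2 • y) i) := (hu i).comp (contDiff_const_smul (s ^ 2))
  have h2 := pd_const_mul (s ^ 3) (h1.diff x) j
  have h3 := pd_comp_smul ((hu i).differentiable (by simp)) (s ^ 2) x j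
  show pd j (fun y => s ^ 3 * u (s ^ 2 • y) i) x = _
  rw [h2, h3]
  ring

theorem dvg_dil {u : V → V} (hu : ∀ i, Sm (fun y => u y i)) (s : ℝ) (x : V) :
    dvg (dil s u) x = s ^ 5 * dvg u (s ^ 2 • x) := by
  unfold dvg
  rw [Finset.mul_sum]
  congr 1
  funext i
  exact pd_dil hu s i i x

theorem integral_scale (F : V → ℝ) {s : ℝ} (hs : 0 < s) :
    ∫ x, F (s ^ 2 • x) = (s ^ 6)⁻¹ * ∫ x, F x := by
  rw [Measure.integral_comp_smul]
  simp only [Module.finrank_fintype_fun_eq_card, Fintype.card_fin, smul_eq_mul]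
  rw [abs_of_pos (by positivity)]
  congr 2
  ring

theorem ip_dil (u v : V → V) {s : ℝ} (hs : 0 < s) : ip (dil s u) (dil s v) = ip u v := by
  unfold ip
  have e : (fun x => ∑ i, dil s u x i * dil s v x i)
      = fun x => (fun y => s ^ 6 * ∑ i, u y i * v y i) (s ^ 2 • x) := by
    funext x
    simp only [dil_apply]
    rw [Finset.mul_sum]
    congr 1
    funext i
    ring
  rw [e, integral_scale (fun y => s ^ 6 * ∑ i, u y i * v y i) hs, integral_const_mul]
  field_simp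

theorem Dir_dil {u v : V → V} (hu : ∀ i, Sm (fun y => u y i)) (hv : ∀ i, Sm (fun y => v y i))
    {s : ℝ} (hs : 0 < s) : Dir (dil s u) (dil s v) = s ^ 4 * Dir u v := by
  unfold Dir
  have e : (fun x => ∑ i, ∑ j, pd j (fun y => dil s u y i) x * pd j (fun y => dil s v y i) x)
      = fun x => (fun y => s ^ 10 * ∑ i, ∑ j, pd j (fun z => u z i) y * pd j (fun z => v z i) y)
        (s ^ 2 • x) := by
    funext x
    simp only [pd_dil hu, pd_dil hv]
    rw [Finset.mul_sum]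
    congr 1
    funext i
    rw [Finset.mul_sum]
    congr 1
    funext j
    ring
  rw [e, integral_scale (fun y => s ^ 10 * ∑ i, ∑ j, pd j (fun z => u z i) y
    * pd j (fun z => v z i) y) hs, integral_const_mul]
  field_simp

theorem tri_dil {u v w : V → V} (hv : ∀ i, Sm (fun y => v y i)) {s : ℝ} (hs : 0 < s) :
    tri (dil s u) (dil s v) (dil s w) = s ^ 5 * tri u v w := by
  unfold tri
  have e : (fun x => ∑ i, (∑ j, dil s u x j * pd j (fun y => dil s v y i) x) * dil s w x i)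
      = fun x => (fun y => s ^ 11 * ∑ i, (∑ j, u y j * pd j (fun z => v z i) y) * w y i)
        (s ^ 2 • x) := by
    funext x
    simp_rw [pd_dil hv]
    simp only [dil_apply]
    rw [Finset.mul_sum]
    congr 1
    funext i
    rw [Finset.sum_mul, Finset.sum_mul, Finset.mul_sum]
    congr 1
    funext j
    ring
  rw [e, integral_scale (fun y => s ^ 11 * ∑ i, (∑ j, u y j * pd j (fun z => v z i) y)
    * w y i) hs, integral_const_mul]
  field_simp

/-- The interface: all we need to know about the field `ψ`. -/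
structure Fld (μ ε : ℝ) (ψ : V → V) : Prop where
  cf : CF ψ
  dv : ∀ x, dvg ψ x = 0
  supp : ∀ x, ψ x ≠ 0 → 3 / 4 ≤ x 0 ∧ x 0 ≤ μ ^ 2 + 1 / 4
  ip1 : ip ψ (dil μ ψ) = 0
  Dir1 : Dir ψ (dil μ ψ) = 0
  beta : ∃ β > 0, tri (dil μ ψ) ψ (dil μ ψ) = -β ∧ tri ψ ψ (dil μ ψ) = -(ε * β)
  pt : ∃ x : V, x 0 = 9 / 8 ∧ ψ x 2 = 1 ∧ pd 2 (fun y => ψ y 2) x = 2

/-- The unit vector along the first axis. -/
def e1 : V := Pi.single 0 1

theorem e1_zero : e1 0 = 1 := by
  unfold e1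
  simp

/-- The field `ψ`. -/
noncomputable def psi (μ δ : ℝ) (x : V) : V :=
  par δ (hc μ) Gp (x - e1) + sw chi (x - μ ^ 2 • e1)

theorem sw_ne {h : V → ℝ} {y : V} (hy : sw h y ≠ 0) : y ∈ tsupport h := by
  by_contra hcon
  apply hy
  have h0 : h y = 0 := image_eq_zero_of_notMem_tsupport hcon
  funext i
  fin_cases i
  · show -(y 1) * h y = 0
    rw [h0, mul_zero]
  · show y 0 * h y = 0
    rw [h0, mul_zero]
  · rfl

theorem abs0_of_s2 {y : V} (h : s2 y ≤ 1 / 16) : |y 0| ≤ 1 / 4 :=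
  abs_coord_le (by norm_num) (by linarith) 0

theorem sw_chi_supp {y : V} (hy : sw chi y ≠ 0) : |y 0| ≤ 1 / 4 :=
  abs0_of_s2 (chi_tsupport (sw_ne hy))

theorem hc_supp' {μ : ℝ} (hμ : 2 ≤ μ) {y : V} (hy : y ∈ tsupport (hc μ)) : |y 0| ≤ 1 / 4 := by
  apply abs0_of_s2
  have h1 := hc_supp hμ hy
  have h2 := inv_mu4_small hμ
  linarith

theorem sw_hc_supp {μ : ℝ} (hμ : 2 ≤ μ) {y : V} (hy : sw (hc μ) y ≠ 0) : |y 0| ≤ 1 / 4 :=
  hc_supp' hμ (sw_ne hy)

theorem pd_tsupport {f : V → ℝ} (j : Fin 3) : tsupport (pd j f) ⊆ tsupport f := by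
  apply closure_minimal _ (isClosed_tsupport f)
  intro x hx
  by_contra hcon
  exact hx (pd_eq_zero hcon j)

theorem Gp_tsupport {y : V} (hy : y ∈ tsupport Gp) : s2 y ≤ 1 / 16 := by
  have hsub : tsupport Gp ⊆ {y | s2 y ≤ 1 / 16} := by
    apply closure_minimal _ (isClosed_le s2_sm.continuous continuous_const)
    intro z hz
    by_contra hcon
    apply hz
    unfold Gp
    rw [chi_zero (not_le.1 hcon).le, zero_mul]
  exact hsub hy

theorem par_supp {μ : ℝ} (hμ : 2 ≤ μ) (δ : ℝ) {y : V} (hy : par δ (hc μ) Gp y ≠ 0) :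
    |y 0| ≤ 1 / 4 := by
  by_contra hcon
  apply hy
  have h1 : y ∉ tsupport Gp := fun h => hcon (abs0_of_s2 (Gp_tsupport h))
  have h2 : sw (pd 2 (hc μ)) y = 0 := by
    by_contra h
    exact hcon (hc_supp' hμ (pd_tsupport 2 (sw_ne h)))
  unfold par
  rw [str_eq_zero h1, h2]
  simp

theorem sub_e1_zero (x : V) : (x - e1) 0 = x 0 - 1 := by
  simp [e1_zero]

theorem sub_mu_e1_zero (μ : ℝ) (x : V) : (x - μ ^ 2 • e1) 0 = x 0 - μ ^ 2 := by
  simp [e1_zero]

theorem nhds_lt {x : V} {c : ℝ} (hx : x 0 < c) : ∀ᶠ y in 𝓝 x, y 0 < c :=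
  ((continuous_apply 0).tendsto x).eventually (gt_mem_nhds hx)

theorem nhds_gt {x : V} {c : ℝ} (hx : c < x 0) : ∀ᶠ y in 𝓝 x, c < y 0 :=
  ((continuous_apply 0).tendsto x).eventually (lt_mem_nhds hx)

section local_forms

variable {μ : ℝ} (hμ : 2 ≤ μ) (δ : ℝ)

theorem dil_psi (μ δ : ℝ) (x : V) : dil μ (psi μ δ) x
    = μ ^ 3 • par δ (hc μ) Gp (μ ^ 2 • x - e1) + sw (hc μ) (x - e1) := by
  unfold dil psi
  rw [smul_add]
  congr 1
  have e : μ ^ 2 • x - μ ^ 2 • e1 = μ ^ 2 • (x - e1) := by rw [smul_sub]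
  rw [e]
  funext i
  fin_cases i
  · show μ ^ 3 * (-((μ ^ 2 • (x - e1)) 1) * chi (μ ^ 2 • (x - e1)))
      = -((x - e1) 1) * (μ ^ 5 * chi (μ ^ 2 • (x - e1)))
    simp only [Pi.smul_apply, smul_eq_mul]
    ring
  · show μ ^ 3 * (((μ ^ 2 • (x - e1)) 0) * chi (μ ^ 2 • (x - e1)))
      = ((x - e1) 0) * (μ ^ 5 * chi (μ ^ 2 • (x - e1)))
    simp only [Pi.smul_apply, smul_eq_mul]
    ring
  · show μ ^ 3 * (0 : ℝ) = 0
    ring

include hμ

theorem psi_left {x : V} (hx : x 0 < 2) : psi μ δ x = par δ (hc μ) Gp (x - e1) := by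
  have h : sw chi (x - μ ^ 2 • e1) = 0 := by
    by_contra hcon
    have h1 := abs_le.1 (sw_chi_supp hcon)
    rw [sub_mu_e1_zero] at h1
    nlinarith [h1.1]
  unfold psi
  rw [h, add_zero]

theorem par_left {x : V} (hx : x 0 < 3 / 4) : par δ (hc μ) Gp (x - e1) = 0 := by
  by_contra hcon
  have h1 := abs_le.1 (par_supp hμ δ hcon)
  rw [sub_e1_zero] at h1
  linarith [h1.1]

theorem psi_zero {x : V} (hx : x 0 < 3 / 4) : psi μ δ x = 0 := by
  rw [psi_left hμ δ (by linarith), par_left hμ δ hx]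

theorem dil_psi_right {x : V} (hx : 1 / 2 < x 0) :
    dil μ (psi μ δ) x = sw (hc μ) (x - e1) := by
  rw [dil_psi]
  have h : par δ (hc μ) Gp (μ ^ 2 • x - e1) = 0 := by
    by_contra hcon
    have h1 := abs_le.1 (par_supp hμ δ hcon)
    rw [sub_e1_zero] at h1
    simp only [Pi.smul_apply, smul_eq_mul] at h1
    nlinarith [h1.2]
  rw [h, smul_zero, zero_add]

theorem sw_hc_right {x : V} (hx : 3 / 2 < x 0) : sw (hc μ) (x - e1) = 0 := by
  by_contra hcon
  have h1 := abs_le.1 (sw_hc_supp hμ hcon)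
  rw [sub_e1_zero] at h1
  linarith [h1.2]

theorem dil_psi_zero {x : V} (hx : 3 / 2 < x 0) : dil μ (psi μ δ) x = 0 := by
  rw [dil_psi_right hμ δ (by linarith), sw_hc_right hμ hx]

end local_forms

end Pool.Agent.Run7.h407
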