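import Mathlib
import Pool.Agent.Run7.h407.Psi

/-!
The field `psi` satisfies the interface `Fld`.
-/

namespace Pool.Agent.Run7.h407

open Set Filter Topology MeasureTheory
open scoped ContDiff

theorem trans_CF {u : V → V} (hu : CF u) (a : V) : CF (fun x => u (x - a)) := by
  apply CF.of_comp
  · intro i
    exact (hu.smc i).comp (contDiff_id.sub contDiff_const)
  · intro i
    exact (hu.csc i).comp_homeomorph (Homeomorph.subRight a)

theorem pd_trans {u : V → V} (hu : CF u) (a x : V) (i j : Fin 3) :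
    pd j (fun y => u (y - a) i) x = pd j (fun y => u y i) (x - a) :=
  pd_comp_sub ((hu.smc i).differentiable (by simp)) a x j

theorem dvg_trans {u : V → V} (hu : CF u) (a x : V) :
    dvg (fun y => u (y - a)) x = dvg u (x - a) := by
  unfold dvg
  congr 1
  funext i
  exact pd_trans hu a x i i

theorem dvg_add {u v : V → V} (hu : CF u) (hv : CF v) (x : V) :
    dvg (fun y => u y + v y) x = dvg u x + dvg v x := by
  unfold dvg
  rw [← Finset.sum_add_distrib]
  congr 1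
  funext i
  exact pd_add ((hu.smc i).diff x) ((hv.smc i).diff x) i

theorem str_near {G : V → ℝ} {y : V} (hG : G =ᶠ[𝓝 y] fun z => z 2 + 1 / 2) :
    ∀ᶠ w in 𝓝 y, str G w = ![-(w 0), -(w 1), 2 * w 2 + 1] := by
  have hG2 := hG.eventually_nhds
  have hpd : ∀ j, ∀ᶠ w in 𝓝 y, pd j G w = if (2 : Fin 3) = j then 1 else 0 := by
    intro j
    filter_upwards [hG2] with w hw
    rw [pd_congr hw j, pd_add ((coord_sm 2).diff w) (differentiableAt_const _), pd_coord, pd_const]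
    simp
  filter_upwards [hpd 0, hpd 1, hpd 2, hG] with w h0 h1 h2 h3
  unfold str
  rw [h0, h1, h2, h3]
  simp
  ring

section

variable {μ : ℝ} (hμ : 2 ≤ μ) (δ : ℝ)

include hμ

theorem sw_hc_CF : CF (sw (hc μ)) := sw_CF (hc_sm μ) (hc_cs hμ)

theorem psi_CF : CF (psi μ δ) :=
  (trans_CF ((cpl hμ).par_CF δ) e1).add (trans_CF (sw_CF chi_sm chi_cs) (μ ^ 2 • e1))

theorem psi_dvg (x : V) : dvg (psi μ δ) x = 0 := by
  have h1 := dvg_add (trans_CF ((cpl hμ).par_CF δ) e1)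
    (trans_CF (sw_CF chi_sm chi_cs) (μ ^ 2 • e1)) x
  have h2 : dvg (psi μ δ) x = dvg (fun y => par δ (hc μ) Gp (y - e1) + sw chi (y - μ ^ 2 • e1)) x :=
    rfl
  rw [h2, h1, dvg_trans ((cpl hμ).par_CF δ), dvg_trans (sw_CF chi_sm chi_cs), (cpl hμ).par_dvg,
    sw_dvg chi_sm chi_Ax]
  ring

theorem psi_supp (x : V) (hx : psi μ δ x ≠ 0) : 3 / 4 ≤ x 0 ∧ x 0 ≤ μ ^ 2 + 1 / 4 := by
  constructor
  · by_contra hcon
    exact hx (psi_zero hμ δ (not_le.1 hcon))
  · by_contra hcon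
    push Not at hcon
    apply hx
    unfold psi
    have h1 : par δ (hc μ) Gp (x - e1) = 0 := by
      by_contra h
      have h2 := abs_le.1 (par_supp hμ δ h)
      rw [sub_e1_zero] at h2
      nlinarith [h2.2]
    have h3 : sw chi (x - μ ^ 2 • e1) = 0 := by
      by_contra h
      have h2 := abs_le.1 (sw_chi_supp h)
      rw [sub_mu_e1_zero] at h2
      linarith [h2.2]
    rw [h1, h3, add_zero]

/-- Derivatives of `ψ` on the left. -/
theorem pd_psi_left {x : V} (hx : x 0 < 2) (i j : Fin 3) :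
    pd j (fun y => psi μ δ y i) x = pd j (fun y => par δ (hc μ) Gp y i) (x - e1) := by
  rw [← pd_trans ((cpl hμ).par_CF δ)]
  apply pd_congr
  filter_upwards [nhds_lt hx] with y hy
  rw [psi_left hμ δ hy]

theorem pd_psi_zero {x : V} (hx : x 0 < 3 / 4) (i j : Fin 3) :
    pd j (fun y => psi μ δ y i) x = 0 := by
  have : (fun y => psi μ δ y i) =ᶠ[𝓝 x] fun _ => (0 : ℝ) := by
    filter_upwards [nhds_lt hx] with y hy
    rw [psi_zero hμ δ hy]
    rfl
  rw [pd_congr this, pd_const]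

theorem pd_par_zero {x : V} (hx : x 0 < 3 / 4) (i j : Fin 3) :
    pd j (fun y => par δ (hc μ) Gp y i) (x - e1) = 0 := by
  rw [← pd_psi_left hμ δ (by linarith), pd_psi_zero hμ δ hx]

theorem pd_dil_right {x : V} (hx : 1 / 2 < x 0) (i j : Fin 3) :
    pd j (fun y => dil μ (psi μ δ) y i) x = pd j (fun y => sw (hc μ) y i) (x - e1) := by
  rw [← pd_trans (sw_hc_CF hμ)]
  apply pd_congr
  filter_upwards [nhds_gt hx] with y hy
  rw [dil_psi_right hμ δ hy]

theorem pd_dil_zero {x : V} (hx : 3 / 2 < x 0) (i j : Fin 3) :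
    pd j (fun y => dil μ (psi μ δ) y i) x = 0 := by
  have : (fun y => dil μ (psi μ δ) y i) =ᶠ[𝓝 x] fun _ => (0 : ℝ) := by
    filter_upwards [nhds_gt hx] with y hy
    rw [dil_psi_zero hμ δ hy]
    rfl
  rw [pd_congr this, pd_const]

theorem pd_sw_zero' {x : V} (hx : 3 / 2 < x 0) (i j : Fin 3) :
    pd j (fun y => sw (hc μ) y i) (x - e1) = 0 := by
  rw [← pd_dil_right hμ 0 (by linarith), pd_dil_zero hμ 0 hx]

theorem ip_psi : ip (psi μ δ) (dil μ (psi μ δ)) = ip (par δ (hc μ) Gp) (sw (hc μ)) := by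
  unfold ip
  rw [← integral_sub_right_eq_self (fun y => ∑ i, par δ (hc μ) Gp y i * sw (hc μ) y i) e1]
  congr 1
  funext x
  rcases lt_or_ge (x 0) (3 / 4) with h | h
  · rw [psi_zero hμ δ h, par_left hμ δ h]
    simp
  · rcases lt_or_ge (3 / 2) (x 0) with h' | h'
    · rw [dil_psi_zero hμ δ h', sw_hc_right hμ h']
      simp
    · rw [psi_left hμ δ (by linarith), dil_psi_right hμ δ (by linarith)]

theorem Dir_psi : Dir (psi μ δ) (dil μ (psi μ δ)) = Dir (par δ (hc μ) Gp) (sw (hc μ)) := by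
  unfold Dir
  rw [← integral_sub_right_eq_self (fun x => ∑ i, ∑ j, pd j (fun y => par δ (hc μ) Gp y i) x
    * pd j (fun y => sw (hc μ) y i) x) e1]
  congr 1
  funext x
  rcases lt_or_ge (x 0) (3 / 4) with h | h
  · simp_rw [pd_psi_zero hμ δ h, pd_par_zero hμ δ h]
    simp
  · rcases lt_or_ge (3 / 2) (x 0) with h' | h'
    · simp_rw [pd_dil_zero hμ δ h', pd_sw_zero' hμ h']
      simp
    · simp_rw [pd_psi_left hμ δ (show x 0 < 2 by linarith),
        pd_dil_right hμ δ (show 1 / 2 < x 0 by linarith)]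

theorem tri_psi1 : tri (psi μ δ) (psi μ δ) (dil μ (psi μ δ))
    = tri (par δ (hc μ) Gp) (par δ (hc μ) Gp) (sw (hc μ)) := by
  unfold tri
  rw [← integral_sub_right_eq_self (fun x => ∑ i, (∑ j, par δ (hc μ) Gp x j
    * pd j (fun y => par δ (hc μ) Gp y i) x) * sw (hc μ) x i) e1]
  congr 1
  funext x
  rcases lt_or_ge (x 0) (3 / 4) with h | h
  · simp_rw [pd_psi_zero hμ δ h, pd_par_zero hμ δ h]
    simp
  · rcases lt_or_ge (3 / 2) (x 0) with h' | h'
    · rw [dil_psi_zero hμ δ h', sw_hc_right hμ h']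
      simp
    · simp_rw [pd_psi_left hμ δ (show x 0 < 2 by linarith)]
      rw [psi_left hμ δ (by linarith), dil_psi_right hμ δ (by linarith)]

theorem tri_psi2 : tri (dil μ (psi μ δ)) (psi μ δ) (dil μ (psi μ δ))
    = tri (sw (hc μ)) (par δ (hc μ) Gp) (sw (hc μ)) := by
  unfold tri
  rw [← integral_sub_right_eq_self (fun x => ∑ i, (∑ j, sw (hc μ) x j
    * pd j (fun y => par δ (hc μ) Gp y i) x) * sw (hc μ) x i) e1]
  congr 1
  funext x
  rcases lt_or_ge (x 0) (3 / 4) with h | h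
  · simp_rw [pd_psi_zero hμ δ h, pd_par_zero hμ δ h]
    simp
  · rcases lt_or_ge (3 / 2) (x 0) with h' | h'
    · rw [dil_psi_zero hμ δ h', sw_hc_right hμ h']
      simp
    · simp_rw [pd_psi_left hμ δ (show x 0 < 2 by linarith)]
      rw [dil_psi_right hμ δ (by linarith)]

theorem psi_pt : ∃ x : V, x 0 = 9 / 8 ∧ psi μ δ x 2 = 1 ∧ pd 2 (fun y => psi μ δ y 2) x = 2 := by
  refine ⟨(9 / 8 : ℝ) • e1, ?_, ?_⟩
  · simp [e1_zero]
  · set x : V := (9 / 8 : ℝ) • e1 with hx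
    have hx0 : x 0 = 9 / 8 := by
      rw [hx]
      simp [e1_zero]
    have hs : s2 (x - e1) = 1 / 64 := by
      have : x - e1 = (1 / 8 : ℝ) • e1 := by
        rw [hx, show (9 / 8 : ℝ) • e1 - e1 = ((9 / 8 : ℝ) - 1) • e1 by rw [sub_smul, one_smul]]
        norm_num
      rw [this, s2_smul]
      unfold s2 e1
      simp
      norm_num
    have h1 := str_near (Gp_loc (y := x - e1) (by rw [hs]; norm_num))
    have h2 : ∀ᶠ w in 𝓝 (x - e1), w ∉ tsupport (hc μ) := by
      apply (isClosed_tsupport _).isOpen_compl.mem_nhds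
      intro hcon
      have h3 := hc_supp hμ hcon
      have h4 := inv_mu4_small hμ
      rw [hs] at h3
      norm_num at h3 h4
      linarith
    have h5 : ∀ᶠ w in 𝓝 (x - e1), par δ (hc μ) Gp w 2 = 2 * w 2 + 1 := by
      filter_upwards [h1, h2] with w hw1 hw2
      have h6 : sw (pd 2 (hc μ)) w = 0 := by
        by_contra h
        exact hw2 (pd_tsupport 2 (sw_ne h))
      unfold par
      rw [hw1, h6]
      simp
    have h7 : x 2 = 0 := by
      rw [hx]
      unfold e1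
      simp
    have h8 : e1 2 = 0 := by
      unfold e1
      simp
    have s0 : Sm (fun z : V => 2 * z 2) := contDiff_const.mul (coord_sm 2)
    constructor
    · rw [psi_left hμ δ (by rw [hx0]; norm_num), h5.self_of_nhds]
      simp [h7, h8]
    · rw [pd_psi_left hμ δ (by rw [hx0]; norm_num)]
      have h9 : (fun y => par δ (hc μ) Gp y 2) =ᶠ[𝓝 (x - e1)] fun w => 2 * w 2 + 1 := h5
      rw [pd_congr h9, pd_add (s0.diff _) (differentiableAt_const _),
        pd_const_mul 2 ((coord_sm 2).diff _), pd_coord, pd_const]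
      simp

end

/-- Existence of the field `ψ`. -/
theorem exists_fld {μ ε : ℝ} (hμ : 2 ≤ μ) (_hε : 0 < ε) : ∃ ψ : V → V, Fld μ ε ψ := by
  set S := ∫ y : V, (y 0 ^ 2 + y 1 ^ 2) * pd 2 (hc μ) y ^ 2 with hS
  set β := ∫ y : V, (y 0 ^ 2 + y 1 ^ 2) * hc μ y ^ 2 with hβ
  have hSp : 0 < S := (cpl hμ).S_pos
  have hβp : 0 < β := (cpl hμ).hpos
  set δ := ε * β / S with hδ
  refine ⟨psi μ δ, psi_CF hμ δ, psi_dvg hμ δ, psi_supp hμ δ, ?_, ?_, ⟨β, hβp, ?_, ?_⟩,
    psi_pt hμ δ⟩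
  · rw [ip_psi hμ δ, (cpl hμ).ip_zero]
  · rw [Dir_psi hμ δ, (cpl hμ).Dir_zero]
  · rw [tri_psi2 hμ δ, (cpl hμ).tri_cPc]
  · rw [tri_psi1 hμ δ, (cpl hμ).tri_PPc, ← hS, hδ]
    field_simp

end Pool.Agent.Run7.h407
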