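import Mathlib
import Pool.Agent.Run7.h407.PsiFld

/-!
Local representation of superpositions of the dilates of `ψ`.
-/

namespace Pool.Agent.Run7.h407

open Set Filter Topology MeasureTheory
open scoped ContDiff

/-- The `n`-th dilate of `ψ`. -/
noncomputable def ph (μ : ℝ) (ψ : V → V) (n : ℕ) : V → V := dil (μ ^ n) ψ

/-- `v` is the superposition of the dilates of `ψ` with coefficients `c`. -/
def Mem (μ : ℝ) (ψ : V → V) (c : ℕ → ℝ) (v : V → V) : Prop :=
  ∀ x, HasSum (fun n => c n • ph μ ψ n x) (v x)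

/-- Shift of the coefficients. -/
def shf (c : ℕ → ℝ) : ℕ → ℝ
  | 0 => 0
  | (j + 1) => c j

variable {μ ε : ℝ} {ψ : V → V}

theorem dil_ne (hF : Fld μ ε ψ) {s : ℝ} {x : V} (h : dil s ψ x ≠ 0) :
    3 / 4 ≤ s ^ 2 * x 0 ∧ s ^ 2 * x 0 ≤ μ ^ 2 + 1 / 4 := by
  have h1 : ψ (s ^ 2 • x) ≠ 0 := by
    intro h0
    apply h
    unfold dil
    rw [h0, smul_zero]
  have := hF.supp _ h1
  simpa using this

theorem ph_ne (hF : Fld μ ε ψ) {n : ℕ} {x : V} (h : ph μ ψ n x ≠ 0) :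
    3 / 4 ≤ μ ^ (2 * n) * x 0 ∧ μ ^ (2 * n) * x 0 ≤ μ ^ 2 + 1 / 4 := by
  have h1 := dil_ne hF h
  have e : (μ ^ n) ^ 2 = μ ^ (2 * n) := by ring
  rwa [e] at h1

/-- In the shell of the `n`-th dilate away from the others only the `n`-th term counts. -/
theorem rep_one (hF : Fld μ ε ψ) (hμ : 2 ≤ μ) {c : ℕ → ℝ} {v : V → V} (hm : Mem μ ψ c v)
    (n : ℕ) {x : V} (h1 : 17 / 16 < μ ^ (2 * n) * x 0) (h2 : μ ^ (2 * n) * x 0 < 3) :
    v x = c n • ph μ ψ n x := by
  have hμ0 : 0 < μ := by linarith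
  have hz : ∀ k, k ≠ n → c k • ph μ ψ k x = 0 := by
    intro k hk
    by_cases h : ph μ ψ k x = 0
    · rw [h, smul_zero]
    · exfalso
      have h3 := ph_ne hF h
      rcases lt_or_gt_of_ne hk with hlt | hgt
      · obtain ⟨m, rfl⟩ : ∃ m, n = k + 1 + m := ⟨n - k - 1, by omega⟩
        have e : μ ^ (2 * (k + 1 + m)) * x 0 = μ ^ 2 * μ ^ (2 * m) * (μ ^ (2 * k) * x 0) := by ring
        have h4 : (1 : ℝ) ≤ μ ^ (2 * m) := one_le_pow₀ (by linarith)
        have h5 : (4 : ℝ) ≤ μ ^ 2 := by nlinarith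
        have h6 : (4 : ℝ) ≤ μ ^ 2 * μ ^ (2 * m) := by nlinarith
        rw [e] at h2
        nlinarith [h3.1]
      · obtain ⟨m, rfl⟩ : ∃ m, k = n + 1 + m := ⟨k - n - 1, by omega⟩
        have e : μ ^ (2 * (n + 1 + m)) * x 0 = μ ^ 2 * μ ^ (2 * m) * (μ ^ (2 * n) * x 0) := by ring
        rw [e] at h3
        have h4 : (1 : ℝ) ≤ μ ^ (2 * m) := one_le_pow₀ (by linarith)
        have h5 : (4 : ℝ) ≤ μ ^ 2 := by nlinarith
        have h6 : μ ^ 2 ≤ μ ^ 2 * μ ^ (2 * m) := by nlinarith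
        have h7 : μ ^ 2 * (17 / 16) < μ ^ 2 * μ ^ (2 * m) * (μ ^ (2 * n) * x 0) := by
          calc μ ^ 2 * (17 / 16) < μ ^ 2 * (μ ^ (2 * n) * x 0) := by
                apply mul_lt_mul_of_pos_left h1 (by positivity)
            _ ≤ _ := by
                apply mul_le_mul_of_nonneg_right h6
                linarith
        nlinarith [h3.2]
  have h3 := hasSum_single n hz
  exact (hm x).unique h3

theorem hasSum_shift {c : ℕ → ℝ} {v : V → V} (hμ : μ ≠ 0) (hm : Mem μ ψ c v) (x : V) :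
    HasSum (fun j => shf c j • dil (μ ^ j / μ) ψ x) (v x) := by
  rw [← hasSum_nat_add_iff' 1]
  simp only [Finset.range_one, Finset.sum_singleton]
  have e0 : shf c 0 • dil (μ ^ 0 / μ) ψ x = 0 := by
    show (0 : ℝ) • _ = _
    rw [zero_smul]
  rw [e0, sub_zero]
  have e : (fun n => shf c (n + 1) • dil (μ ^ (n + 1) / μ) ψ x)
      = fun n => c n • ph μ ψ n x := by
    funext n
    have : μ ^ (n + 1) / μ = μ ^ n := by
      rw [pow_succ]
      field_simp
    rw [this]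
    rfl
  rw [e]
  exact hm x

/-- Near the support of the dilate number `m` only three terms count. -/
theorem rep_three (hF : Fld μ ε ψ) (hμ : 2 ≤ μ) {c : ℕ → ℝ} {v : V → V} (hm : Mem μ ψ c v)
    (m : ℕ) {x : V} (h1 : 2 / μ ^ 4 < (μ ^ m / μ) ^ 2 * x 0) (h2 : (μ ^ m / μ) ^ 2 * x 0 < 2) :
    v x = shf c m • dil (μ ^ m / μ) ψ x + shf c (m + 1) • dil (μ ^ m / μ) (dil μ ψ) x
      + shf c (m + 2) • dil (μ ^ m / μ) (dil (μ ^ 2) ψ) x := by
  have hμ0 : 0 < μ := by linarith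
  have hz : ∀ j, j ∉ ({m, m + 1, m + 2} : Finset ℕ) → shf c j • dil (μ ^ j / μ) ψ x = 0 := by
    intro j hj
    by_cases h : dil (μ ^ j / μ) ψ x = 0
    · rw [h, smul_zero]
    · exfalso
      have h3 := dil_ne hF h
      simp only [Finset.mem_insert, Finset.mem_singleton, not_or] at hj
      rcases Nat.lt_or_ge j m with hlt | hge
      · obtain ⟨k, rfl⟩ : ∃ k, m = j + 1 + k := ⟨m - j - 1, by omega⟩
        have e : (μ ^ (j + 1 + k) / μ) ^ 2 * x 0
            = μ ^ 2 * μ ^ (2 * k) * ((μ ^ j / μ) ^ 2 * x 0) := by ring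
        have h4 : (1 : ℝ) ≤ μ ^ (2 * k) := one_le_pow₀ (by linarith)
        have h5 : (4 : ℝ) ≤ μ ^ 2 := by nlinarith
        have h6 : (4 : ℝ) ≤ μ ^ 2 * μ ^ (2 * k) := by nlinarith
        rw [e] at h2
        nlinarith [h3.1]
      · obtain ⟨k, rfl⟩ : ∃ k, j = m + 3 + k := ⟨j - m - 3, by omega⟩
        have e : (μ ^ (m + 3 + k) / μ) ^ 2 * x 0
            = μ ^ 6 * μ ^ (2 * k) * ((μ ^ m / μ) ^ 2 * x 0) := by ring
        rw [e] at h3
        have h4 : (1 : ℝ) ≤ μ ^ (2 * k) := one_le_pow₀ (by linarith)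
        have h6 : μ ^ 6 ≤ μ ^ 6 * μ ^ (2 * k) := by
          have : 0 < μ ^ 6 := by positivity
          nlinarith
        have h5 : (4 : ℝ) ≤ μ ^ 2 := by nlinarith
        have h7 : 2 * μ ^ 2 ≤ μ ^ 6 * μ ^ (2 * k) * ((μ ^ m / μ) ^ 2 * x 0) := by
          calc 2 * μ ^ 2 = μ ^ 6 * (2 / μ ^ 4) := by
                field_simp
            _ ≤ μ ^ 6 * ((μ ^ m / μ) ^ 2 * x 0) := by
                apply mul_le_mul_of_nonneg_left h1.le (by positivity)
            _ ≤ _ := by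
                apply mul_le_mul_of_nonneg_right h6
                have : 0 < 2 / μ ^ 4 := by positivity
                linarith
        nlinarith [h3.2]
  have h3 : HasSum (fun j => shf c j • dil (μ ^ j / μ) ψ x)
      (∑ j ∈ ({m, m + 1, m + 2} : Finset ℕ), shf c j • dil (μ ^ j / μ) ψ x) :=
    hasSum_sum_of_ne_finset_zero hz
  have h4 := (hasSum_shift hμ0.ne' hm x).unique h3
  rw [h4, Finset.sum_insert (by simp), Finset.sum_insert (by simp), Finset.sum_singleton,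
    ← add_assoc, dil_dil, dil_dil]
  have e1 : μ ^ (m + 1) / μ = μ ^ m / μ * μ := by ring
  have e2 : μ ^ (m + 2) / μ = μ ^ m / μ * μ ^ 2 := by ring
  rw [e1, e2]

end Pool.Agent.Run7.h407
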