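import Mathlib
import Pool.Agent.Run7.h407.Rep

/-!
Multilinearity of the forms and their values on combinations of three consecutive dilates.
-/

namespace Pool.Agent.Run7.h407

open Set Filter Topology MeasureTheory
open scoped ContDiff

theorem tri_add_left {u1 u2 v w : V → V} (h1 : CF u1) (h2 : CF u2) (hv : CF v) (hw : CF w) :
    tri (fun x => u1 x + u2 x) v w = tri u1 v w + tri u2 v w := by
  unfold tri
  rw [← integral_add (tri_int h1.sm.continuous hv.sm hw) (tri_int h2.sm.continuous hv.sm hw)]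
  congr 1
  funext x
  rw [← Finset.sum_add_distrib]
  congr 1
  funext i
  rw [← add_mul, ← Finset.sum_add_distrib]
  congr 2
  funext j
  simp only [Pi.add_apply]
  ring

theorem tri_smul_left (c : ℝ) (u v w : V → V) :
    tri (fun x => c • u x) v w = c * tri u v w := by
  unfold tri
  rw [← integral_const_mul]
  congr 1
  funext x
  rw [Finset.mul_sum]
  congr 1
  funext i
  rw [← mul_assoc, Finset.mul_sum]
  congr 2
  funext j
  simp only [Pi.smul_apply, smul_eq_mul]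
  ring

theorem tri_add_mid {u v1 v2 w : V → V} (hu : CF u) (h1 : CF v1) (h2 : CF v2) (hw : CF w) :
    tri u (fun x => v1 x + v2 x) w = tri u v1 w + tri u v2 w := by
  unfold tri
  rw [← integral_add (tri_int hu.sm.continuous h1.sm hw) (tri_int hu.sm.continuous h2.sm hw)]
  congr 1
  funext x
  rw [← Finset.sum_add_distrib]
  congr 1
  funext i
  rw [← add_mul, ← Finset.sum_add_distrib]
  congr 2
  funext j
  have : pd j (fun y => (v1 y + v2 y) i) x
      = pd j (fun y => v1 y i) x + pd j (fun y => v2 y i) x :=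
    pd_add ((h1.smc i).diff x) ((h2.smc i).diff x) j
  rw [this]
  ring

theorem tri_smul_mid (c : ℝ) {u v w : V → V} (hv : CF v) :
    tri u (fun x => c • v x) w = c * tri u v w := by
  unfold tri
  rw [← integral_const_mul]
  congr 1
  funext x
  rw [Finset.mul_sum]
  congr 1
  funext i
  rw [← mul_assoc, Finset.mul_sum]
  congr 2
  funext j
  have : pd j (fun y => (c • v y) i) x = c * pd j (fun y => v y i) x :=
    pd_const_mul c ((hv.smc i).diff x) j
  rw [this]
  ring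

theorem ip_add_left {u1 u2 v : V → V} (h1 : CF u1) (h2 : CF u2) (hv : CF v) :
    ip (fun x => u1 x + u2 x) v = ip u1 v + ip u2 v := by
  unfold ip
  rw [← integral_add (ip_int h1.sm.continuous hv) (ip_int h2.sm.continuous hv)]
  congr 1
  funext x
  rw [← Finset.sum_add_distrib]
  congr 1
  funext i
  simp only [Pi.add_apply]
  ring

theorem ip_smul_left (c : ℝ) (u v : V → V) : ip (fun x => c • u x) v = c * ip u v := by
  unfold ip
  rw [← integral_const_mul]
  congr 1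
  funext x
  rw [Finset.mul_sum]
  congr 1
  funext i
  simp only [Pi.smul_apply, smul_eq_mul]
  ring

theorem ip_comm (u v : V → V) : ip u v = ip v u := by
  unfold ip
  congr 1
  funext x
  congr 1
  funext i
  ring

theorem Dir_comm (u v : V → V) : Dir u v = Dir v u := by
  unfold Dir
  congr 1
  funext x
  congr 1
  funext i
  congr 1
  funext j
  ring

theorem Dir_add_left {u1 u2 v : V → V} (h1 : CF u1) (h2 : CF u2) (hv : CF v) :
    Dir (fun x => u1 x + u2 x) v = Dir u1 v + Dir u2 v := by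
  unfold Dir
  rw [← integral_add (Dir_int h1.sm hv) (Dir_int h2.sm hv)]
  congr 1
  funext x
  rw [← Finset.sum_add_distrib]
  congr 1
  funext i
  rw [← Finset.sum_add_distrib]
  congr 1
  funext j
  have : pd j (fun y => (u1 y + u2 y) i) x
      = pd j (fun y => u1 y i) x + pd j (fun y => u2 y i) x :=
    pd_add ((h1.smc i).diff x) ((h2.smc i).diff x) j
  rw [this]
  ring

theorem Dir_smul_left (c : ℝ) {u v : V → V} (hu : CF u) :
    Dir (fun x => c • u x) v = c * Dir u v := by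
  unfold Dir
  rw [← integral_const_mul]
  congr 1
  funext x
  rw [Finset.mul_sum]
  congr 1
  funext i
  rw [Finset.mul_sum]
  congr 1
  funext j
  have : pd j (fun y => (c • u y) i) x = c * pd j (fun y => u y i) x :=
    pd_const_mul c ((hu.smc i).diff x) j
  rw [this]
  ring

section

variable {μ ε : ℝ} {ψ : V → V}

/-- The combination of three consecutive dilates. -/
noncomputable def cmb (μ : ℝ) (ψ : V → V) (a b c : ℝ) (x : V) : V :=
  a • ψ x + b • dil μ ψ x + c • dil (μ ^ 2) ψ x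

theorem cmb_CF (hF : Fld μ ε ψ) (hμ : 2 ≤ μ) (a b c : ℝ) : CF (cmb μ ψ a b c) :=
  ((hF.cf.smul a).add ((dil_CF hF.cf (by linarith)).smul b)).add
    ((dil_CF hF.cf (by positivity)).smul c)

theorem dil_two (μ : ℝ) (ψ : V → V) : dil (μ ^ 2) ψ = dil μ (dil μ ψ) := by
  rw [dil_dil]
  congr 1
  ring

theorem ip_cmb (hF : Fld μ ε ψ) (hμ : 2 ≤ μ) (a b c : ℝ) :
    ip (cmb μ ψ a b c) (dil μ ψ) = b * ip ψ ψ := by
  have hμ0 : 0 < μ := by linarith
  have h0 := hF.cf
  have h1 := dil_CF hF.cf hμ0.ne'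
  have h2 : CF (dil (μ ^ 2) ψ) := dil_CF hF.cf (by positivity)
  have e : ip (cmb μ ψ a b c) (dil μ ψ) = a * ip ψ (dil μ ψ) + b * ip (dil μ ψ) (dil μ ψ)
      + c * ip (dil (μ ^ 2) ψ) (dil μ ψ) := by
    unfold cmb
    rw [ip_add_left ((h0.smul a).add (h1.smul b)) (h2.smul c) h1,
      ip_add_left (h0.smul a) (h1.smul b) h1, ip_smul_left, ip_smul_left, ip_smul_left]
  rw [e, hF.ip1, ip_dil _ _ hμ0, dil_two, ip_dil _ _ hμ0,
    ip_comm (dil μ ψ) ψ, hF.ip1]
  ring

theorem Dir_cmb (hF : Fld μ ε ψ) (hμ : 2 ≤ μ) (a b c : ℝ) :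
    Dir (cmb μ ψ a b c) (dil μ ψ) = b * μ ^ 4 * Dir ψ ψ := by
  have hμ0 : 0 < μ := by linarith
  have h0 := hF.cf
  have h1 := dil_CF hF.cf hμ0.ne'
  have h2 : CF (dil (μ ^ 2) ψ) := dil_CF hF.cf (by positivity)
  have e : Dir (cmb μ ψ a b c) (dil μ ψ) = a * Dir ψ (dil μ ψ) + b * Dir (dil μ ψ) (dil μ ψ)
      + c * Dir (dil (μ ^ 2) ψ) (dil μ ψ) := by
    unfold cmb
    rw [Dir_add_left ((h0.smul a).add (h1.smul b)) (h2.smul c) h1,
      Dir_add_left (h0.smul a) (h1.smul b) h1, Dir_smul_left _ h0, Dir_smul_left _ h1,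
      Dir_smul_left _ h2]
  rw [e, hF.Dir1, Dir_dil h0.smc h0.smc hμ0, dil_two, Dir_dil h1.smc h0.smc hμ0,
    Dir_comm (dil μ ψ) ψ, hF.Dir1]
  ring

theorem dvg_dil_zero (hF : Fld μ ε ψ) (s : ℝ) (x : V) : dvg (dil s ψ) x = 0 := by
  rw [dvg_dil hF.cf.smc, hF.dv, mul_zero]

/-- The supports of `ψ` and of its second dilate are disjoint. -/
theorem two_disj (hF : Fld μ ε ψ) (hμ : 2 ≤ μ) (x : V) :
    (∀ᶠ y in 𝓝 x, ψ y = 0) ∨ (∀ᶠ y in 𝓝 x, dil (μ ^ 2) ψ y = 0) := by
  have hμ0 : 0 < μ := by linarith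
  have hμ2 : (4 : ℝ) ≤ μ ^ 2 := by nlinarith
  rcases lt_or_ge (x 0) (3 / 4) with h | h
  · left
    filter_upwards [nhds_lt h] with y hy
    by_contra hcon
    linarith [(hF.supp y hcon).1]
  · right
    filter_upwards [nhds_gt (show 2 / 3 < x 0 by linarith)] with y hy
    by_contra hcon
    have h1 := (dil_ne hF hcon).2
    have e : (μ ^ 2) ^ 2 * y 0 = μ ^ 2 * (μ ^ 2 * y 0) := by ring
    rw [e] at h1
    have h2 : μ ^ 2 * (8 / 3) ≤ μ ^ 2 * (μ ^ 2 * y 0) := by
      apply mul_le_mul_of_nonneg_left _ (by positivity)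
      nlinarith
    nlinarith

theorem tri_cmb (hF : Fld μ ε ψ) (hμ : 2 ≤ μ) {β : ℝ}
    (hβ1 : tri (dil μ ψ) ψ (dil μ ψ) = -β) (hβ2 : tri ψ ψ (dil μ ψ) = -(ε * β)) (a b c : ℝ) :
    tri (cmb μ ψ a b c) (cmb μ ψ a b c) (dil μ ψ)
      = -(β * (ε * a ^ 2 + a * b)) + μ ^ 5 * β * (ε * (b * c) + c ^ 2) := by
  have hμ0 : 0 < μ := by linarith
  have h0 := hF.cf
  have h1 := dil_CF hF.cf hμ0.ne'
  have h2 : CF (dil (μ ^ 2) ψ) := dil_CF hF.cf (by positivity)
  have hd0 := hF.dv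
  have hd1 := dvg_dil_zero hF μ
  have hd2 := dvg_dil_zero hF (μ ^ 2)
  have e1 : ∀ u : V → V, CF u → tri u (cmb μ ψ a b c) (dil μ ψ)
      = a * tri u ψ (dil μ ψ) + b * tri u (dil μ ψ) (dil μ ψ)
      + c * tri u (dil (μ ^ 2) ψ) (dil μ ψ) := by
    intro u hu
    unfold cmb
    rw [tri_add_mid hu ((h0.smul a).add (h1.smul b)) (h2.smul c) h1,
      tri_add_mid hu (h0.smul a) (h1.smul b) h1, tri_smul_mid _ h0, tri_smul_mid _ h1,
      tri_smul_mid _ h2]
  have e2 : ∀ v : V → V, CF v → tri (cmb μ ψ a b c) v (dil μ ψ)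
      = a * tri ψ v (dil μ ψ) + b * tri (dil μ ψ) v (dil μ ψ)
      + c * tri (dil (μ ^ 2) ψ) v (dil μ ψ) := by
    intro v hv
    unfold cmb
    rw [tri_add_left ((h0.smul a).add (h1.smul b)) (h2.smul c) hv h1,
      tri_add_left (h0.smul a) (h1.smul b) hv h1, tri_smul_left, tri_smul_left,
      tri_smul_left]
  rw [e2 _ (cmb_CF hF hμ a b c), e1 ψ h0, e1 _ h1, e1 _ h2]
  have t01 : tri ψ (dil μ ψ) (dil μ ψ) = 0 := tri_self h0 hd0 h1
  have t11 : tri (dil μ ψ) (dil μ ψ) (dil μ ψ) = 0 := tri_self h1 hd1 h1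
  have t21 : tri (dil (μ ^ 2) ψ) (dil μ ψ) (dil μ ψ) = 0 := tri_self h2 hd2 h1
  have t12 : tri (dil μ ψ) (dil (μ ^ 2) ψ) (dil μ ψ) = μ ^ 5 * (ε * β) := by
    rw [tri_anti h1 hd1 h2 h1, dil_two, tri_dil h0.smc hμ0, hβ2]
    ring
  have t22 : tri (dil (μ ^ 2) ψ) (dil (μ ^ 2) ψ) (dil μ ψ) = μ ^ 5 * β := by
    rw [tri_anti h2 hd2 h2 h1, dil_two, tri_dil h0.smc hμ0, hβ1]
    ring
  have t02 : tri ψ (dil (μ ^ 2) ψ) (dil μ ψ) = 0 := by
    unfold tri
    have : (fun x => ∑ i, (∑ j, ψ x j * pd j (fun y => dil (μ ^ 2) ψ y i) x) * dil μ ψ x i)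
        = fun _ => 0 := by
      funext x
      rcases two_disj hF hμ x with h | h
      · rw [h.self_of_nhds]
        simp
      · have h3 : ∀ i j, pd j (fun y => dil (μ ^ 2) ψ y i) x = 0 := by
          intro i j
          have : (fun y => dil (μ ^ 2) ψ y i) =ᶠ[𝓝 x] fun _ => (0 : ℝ) := by
            filter_upwards [h] with y hy
            rw [hy]
            rfl
          rw [pd_congr this, pd_const]
        simp_rw [h3]
        simp
    rw [this]
    simp
  have t20 : tri (dil (μ ^ 2) ψ) ψ (dil μ ψ) = 0 := by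
    unfold tri
    have : (fun x => ∑ i, (∑ j, dil (μ ^ 2) ψ x j * pd j (fun y => ψ y i) x) * dil μ ψ x i)
        = fun _ => 0 := by
      funext x
      rcases two_disj hF hμ x with h | h
      · have h3 : ∀ i j, pd j (fun y => ψ y i) x = 0 := by
          intro i j
          have : (fun y => ψ y i) =ᶠ[𝓝 x] fun _ => (0 : ℝ) := by
            filter_upwards [h] with y hy
            rw [hy]
            rfl
          rw [pd_congr this, pd_const]
        simp_rw [h3]
        simp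
      · rw [h.self_of_nhds]
        simp
    rw [this]
    simp
  rw [hβ2, t01, t02, hβ1, t11, t12, t20, t21, t22]
  ring

end

end Pool.Agent.Run7.h407
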