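import Mathlib
import Pool.Agent.Run7.h407.Base

/-!
Testing the Navier-Stokes residual of a superposition of dilates with a dilate gives the
reduced system.
-/

namespace Pool.Agent.Run7.h407

open Set Filter Topology MeasureTheory
open scoped ContDiff

/-- The `i`-th component of `∂ₜu + (u·∇)u - ν Δu`. -/
noncomputable def residual (ν : ℝ) (u : ℝ → V → V) (t : ℝ) (x : V) (i : Fin 3) : ℝ :=
  deriv (fun s => u s x i) t + ∑ j, u t x j * pd j (fun y => u t y i) x
    - ν * ∑ j, pd j (pd j (fun y => u t y i)) x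

variable {μ ε : ℝ} {ψ : V → V}

theorem cmb_dil (σ a b c : ℝ) (x : V) : dil σ (cmb μ ψ a b c) x
    = a • dil σ ψ x + b • dil σ (dil μ ψ) x + c • dil σ (dil (μ ^ 2) ψ) x := by
  funext i
  simp only [dil, cmb, Pi.smul_apply, Pi.add_apply, smul_eq_mul]
  ring

theorem shf_hasDerivAt {c : ℕ → ℝ → ℝ} {c' : ℕ → ℝ} {t : ℝ} (hc : ∀ n, HasDerivAt (c n) (c' n) t)
    (j : ℕ) : HasDerivAt (fun s => shf (fun n => c n s) j) (shf c' j) t := by
  cases j with
  | zero => exact hasDerivAt_const t 0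
  | succ j => exact hc j

theorem ph_slab (hF : Fld μ ε ψ) (hμ : 2 ≤ μ) {m : ℕ} {x : V}
    (hx : dil (μ ^ m / μ) (dil μ ψ) x ≠ 0) :
    2 / μ ^ 4 < (μ ^ m / μ) ^ 2 * x 0 ∧ (μ ^ m / μ) ^ 2 * x 0 < 2 := by
  have hμ0 : 0 < μ := by linarith
  have hμ2 : (4 : ℝ) ≤ μ ^ 2 := by nlinarith
  rw [dil_dil] at hx
  have h := dil_ne hF hx
  have e : (μ ^ m / μ * μ) ^ 2 * x 0 = μ ^ 2 * ((μ ^ m / μ) ^ 2 * x 0) := by ring
  rw [e] at h
  constructor
  · rw [div_lt_iff₀ (by positivity)]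
    have e2 : (μ ^ m / μ) ^ 2 * x 0 * μ ^ 4 = μ ^ 2 * (μ ^ 2 * ((μ ^ m / μ) ^ 2 * x 0)) := by ring
    rw [e2]
    nlinarith [h.1]
  · by_contra hcon
    push Not at hcon
    nlinarith [h.2]

/-- The Galerkin identity. -/
theorem red (hF : Fld μ ε ψ) (hμ : 2 ≤ μ) {β : ℝ}
    (hβ1 : tri (dil μ ψ) ψ (dil μ ψ) = -β) (hβ2 : tri ψ ψ (dil μ ψ) = -(ε * β))
    {w : ℝ → V → V} {T' : ℝ} {c : ℕ → ℝ → ℝ}
    (hm : ∀ s ∈ Ico 0 T', Mem μ ψ (fun n => c n s) (w s)) {t : ℝ} (ht : t ∈ Ioo 0 T')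
    {c' : ℕ → ℝ} (hc : ∀ n, HasDerivAt (c n) (c' n) t) (ν : ℝ) (m : ℕ) :
    ∫ x, ∑ i, residual ν w t x i * ph μ ψ m x i
      = c' m * ip ψ ψ + ν * (c m t * μ ^ (4 * m) * Dir ψ ψ)
        + μ ^ (5 * m) * β * (ε * (c m t * c (m + 1) t) + c (m + 1) t ^ 2)
        - μ ^ (5 * m) / μ ^ 5 * β * (ε * shf (fun n => c n t) m ^ 2
          + shf (fun n => c n t) m * c m t) := by
  have hμ0 : 0 < μ := by linarith
  set σ : ℝ := μ ^ m / μ with hσ
  have hσ0 : 0 < σ := by positivity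
  set Y : ℝ → ℕ → ℝ := fun s => shf (fun n => c n s) with hY
  set C0 : V → V := cmb μ ψ (Y t m) (Y t (m + 1)) (Y t (m + 2)) with hC0
  set C1 : V → V := cmb μ ψ (shf c' m) (shf c' (m + 1)) (shf c' (m + 2)) with hC1
  set U : V → V := dil σ C0 with hU
  set W : V → V := dil σ C1 with hW
  set Θ : V → V := dil σ (dil μ ψ) with hΘ
  have hph : ph μ ψ m = Θ := by
    rw [hΘ, dil_dil, hσ]
    unfold ph
    congr 1
    field_simp
  have hC0f : CF C0 := cmb_CF hF hμ _ _ _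
  have hC1f : CF C1 := cmb_CF hF hμ _ _ _
  have hUf : CF U := dil_CF hC0f hσ0.ne'
  have hWf : CF W := dil_CF hC1f hσ0.ne'
  have hdf : CF (dil μ ψ) := dil_CF hF.cf hμ0.ne'
  have hΘf : CF Θ := dil_CF hdf hσ0.ne'
  -- local representation
  have hrep : ∀ s ∈ Ico 0 T', ∀ y : V, 2 / μ ^ 4 < σ ^ 2 * y 0 → σ ^ 2 * y 0 < 2 →
      w s y = Y s m • dil σ ψ y + Y s (m + 1) • dil σ (dil μ ψ) y
        + Y s (m + 2) • dil σ (dil (μ ^ 2) ψ) y := by
    intro s hs y h1 h2
    exact rep_three hF hμ (hm s hs) m h1 h2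
  have htm : t ∈ Ico 0 T' := ⟨ht.1.le, ht.2⟩
  have hint : ∀ x, (∑ i, residual ν w t x i * ph μ ψ m x i)
      = (∑ i, W x i * Θ x i) + (∑ i, (∑ j, U x j * pd j (fun y => U y i) x) * Θ x i)
        - ν * ∑ i, (∑ j, pd j (pd j (fun y => U y i)) x) * Θ x i := by
    intro x
    rw [hph]
    by_cases hx : Θ x = 0
    · rw [hx]
      simp
    · have hsl := ph_slab hF hμ hx
      have hnear : ∀ᶠ y in 𝓝 x, 2 / μ ^ 4 < σ ^ 2 * y 0 ∧ σ ^ 2 * y 0 < 2 := by
        have hcont : Continuous (fun y : V => σ ^ 2 * y 0) :=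
          continuous_const.mul (continuous_apply 0)
        exact (hcont.tendsto x).eventually (Ioo_mem_nhds hsl.1 hsl.2)
      have hwU : ∀ᶠ y in 𝓝 x, w t y = U y := by
        filter_upwards [hnear] with y hy
        rw [hrep t htm y hy.1 hy.2, hU, hC0, cmb_dil]
      have hwx : w t x = U x := hwU.self_of_nhds
      have hpd : ∀ i j, pd j (fun y => w t y i) x = pd j (fun y => U y i) x := by
        intro i j
        apply pd_congr
        filter_upwards [hwU] with y hy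
        rw [hy]
      have hpd2 : ∀ i j, pd j (pd j (fun y => w t y i)) x = pd j (pd j (fun y => U y i)) x := by
        intro i j
        apply pd_congr
        filter_upwards [hwU.eventually_nhds] with y hy
        apply pd_congr
        filter_upwards [hy] with z hz
        rw [hz]
      have hdt : ∀ i, deriv (fun s => w s x i) t = W x i := by
        intro i
        have h1 : HasDerivAt (fun s => Y s m * dil σ ψ x i + Y s (m + 1) * dil σ (dil μ ψ) x i
            + Y s (m + 2) * dil σ (dil (μ ^ 2) ψ) x i)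
            (shf c' m * dil σ ψ x i + shf c' (m + 1) * dil σ (dil μ ψ) x i
            + shf c' (m + 2) * dil σ (dil (μ ^ 2) ψ) x i) t :=
          (((shf_hasDerivAt hc m).mul_const _).add ((shf_hasDerivAt hc (m + 1)).mul_const _)).add
            ((shf_hasDerivAt hc (m + 2)).mul_const _)
        have h2 : (fun s => w s x i) =ᶠ[𝓝 t] fun s => Y s m * dil σ ψ x i
            + Y s (m + 1) * dil σ (dil μ ψ) x i + Y s (m + 2) * dil σ (dil (μ ^ 2) ψ) x i := by
          filter_upwards [Ioo_mem_nhds ht.1 ht.2] with s hs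
          rw [hrep s ⟨hs.1.le, hs.2⟩ x hsl.1 hsl.2]
          rfl
        rw [h2.deriv_eq, h1.deriv, hW, hC1, cmb_dil]
        rfl
      unfold residual
      simp_rw [hwx, hpd, hpd2, hdt]
      rw [← Finset.sum_add_distrib, Finset.mul_sum, ← Finset.sum_sub_distrib]
      congr 1
      funext i
      ring
  simp_rw [hint]
  have i1 : Integrable (fun x => ∑ i, W x i * Θ x i) volume := ip_int hWf.sm.continuous hΘf
  have i2 : Integrable (fun x => ∑ i, (∑ j, U x j * pd j (fun y => U y i) x) * Θ x i) volume :=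
    tri_int hUf.sm.continuous hUf.sm hΘf
  have i3 : Integrable (fun x => ∑ i, (∑ j, pd j (pd j (fun y => U y i)) x) * Θ x i) volume := by
    apply integrable_finsetSum
    intro i _
    have hcn : Continuous (fun x => ∑ j, pd j (pd j (fun y => U y i)) x) := by
      apply continuous_finsetSum
      intro j _
      exact (((hUf.smc i).pd j).pd j).continuous
    have h := integrable_of_cs (hΘf.smc i).continuous (hΘf.csc i) hcn
    simpa [mul_comm] using h
  have i12 : Integrable (fun x => (∑ i, W x i * Θ x i)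
      + ∑ i, (∑ j, U x j * pd j (fun y => U y i) x) * Θ x i) volume := i1.add i2
  rw [integral_sub i12 (i3.const_mul ν), integral_add i1 i2, integral_const_mul,
    lap_ip hUf.sm hΘf]
  have e1 : ∫ x, ∑ i, W x i * Θ x i = shf c' (m + 1) * ip ψ ψ := by
    have : ∫ x, ∑ i, W x i * Θ x i = ip W Θ := rfl
    rw [this, hW, hΘ, ip_dil _ _ hσ0, hC1, ip_cmb hF hμ]
  have e2 : ∫ x, ∑ i, (∑ j, U x j * pd j (fun y => U y i) x) * Θ x i
      = σ ^ 5 * (-(β * (ε * Y t m ^ 2 + Y t m * Y t (m + 1)))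
        + μ ^ 5 * β * (ε * (Y t (m + 1) * Y t (m + 2)) + Y t (m + 2) ^ 2)) := by
    have : ∫ x, ∑ i, (∑ j, U x j * pd j (fun y => U y i) x) * Θ x i = tri U U Θ := rfl
    rw [this, hU, hΘ, tri_dil hC0f.smc hσ0, hC0, tri_cmb hF hμ hβ1 hβ2]
  have e3 : Dir U Θ = σ ^ 4 * (Y t (m + 1) * μ ^ 4 * Dir ψ ψ) := by
    rw [hU, hΘ, Dir_dil hC0f.smc hdf.smc hσ0, hC0, Dir_cmb hF hμ]
  rw [e1, e2, e3]
  have y1 : Y t (m + 1) = c m t := rfl
  have y2 : Y t (m + 2) = c (m + 1) t := rfl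
  have y3 : shf c' (m + 1) = c' m := rfl
  rw [y1, y2, y3]
  have s4 : σ ^ 4 * μ ^ 4 = μ ^ (4 * m) := by
    rw [hσ]
    field_simp
    ring
  have s5 : σ ^ 5 = μ ^ (5 * m) / μ ^ 5 := by
    rw [hσ]
    ring
  have s6 : σ ^ 5 * μ ^ 5 = μ ^ (5 * m) := by
    rw [s5]
    field_simp
  rw [← s4, ← s5, ← s6]
  ring

end Pool.Agent.Run7.h407
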