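import Mathlib
import Pool.Agent.Run7.h407.Limit2
import Pool.Agent.Run7.h407.Smooth
import Pool.Agent.Run7.h407.Red

/-!
Regularity of the solution of the reduced system and of the corresponding velocity field.
-/

namespace Pool.Agent.Run7.h407

open Set Filter Topology MeasureTheory
open scoped ContDiff

theorem RC.rhsf {k : ℕ} {b : ℝ} (p : Par) {B : ℕ → ℝ → ℝ} (hB : RC k b B) :
    RC k b (fun i t => rhs p B i t) := by
  have e : (fun i t => rhs p B i t) = fun i t =>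
      (((-p.d * p.Λ ^ i * B (i + 1) t + B i t * B (i + 1) t)
        + p.ε * p.K * 1 ^ i * (B i t * B i t))
        + -(p.ε / p.K) * 1 ^ i * (B (i + 1) t * B (i + 2) t))
        + -(1 / p.K ^ 2) * 1 ^ i * (B (i + 2) t * B (i + 2) t) := by
    funext i t
    unfold rhs
    rw [one_pow]
    ring
  rw [e]
  have h0 := hB
  have h1 := hB.shift 1
  have h2 := hB.shift 2
  exact ((((h1.geom (-p.d) p.Λpos).add (h0.mul h1)).add
    ((h0.mul h0).geom (p.ε * p.K) one_pos)).add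
    ((h1.mul h2).geom (-(p.ε / p.K)) one_pos)).add
    ((h2.mul h2).geom (-(1 / p.K ^ 2)) one_pos)

theorem RC.const (k : ℕ) {b : ℝ} : ∀ {a : ℕ → ℝ}, (∀ c > 0, ∃ C, ∀ j, |a j| * c ^ j ≤ C) →
    RC k b (fun j _ => a j) := by
  induction k with
  | zero =>
    intro a ha
    refine ⟨fun c hc => ?_, fun j => continuousOn_const⟩
    obtain ⟨C, hC⟩ := ha c hc
    exact ⟨C, fun j t _ => hC j⟩
  | succ k ih =>
    intro a ha
    refine ⟨fun c hc => ?_, fun _ _ => 0, fun j t _ => hasDerivAt_const t _, ?_⟩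
    · obtain ⟨C, hC⟩ := ha c hc
      exact ⟨C, fun j t _ => hC j⟩
    · apply ih
      intro c _
      refine ⟨0, fun j => ?_⟩
      simp

theorem sub_Ioo {b t : ℝ} (hb : 0 < b) (ht : t ∈ Ioo (-1) b) : uIcc 0 t ⊆ Ioo (-1) b := by
  intro s hs
  rcases le_total 0 t with h | h
  · rw [uIcc_of_le h] at hs
    exact ⟨by linarith [hs.1], by linarith [hs.2, ht.2]⟩
  · rw [uIcc_of_ge h] at hs
    exact ⟨by linarith [hs.1, ht.1], by linarith [hs.2]⟩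

theorem RC.integral {k : ℕ} {b : ℝ} (hb : 0 < b) {F : ℕ → ℝ → ℝ} (hF : RC k b F) :
    RC (k + 1) b (fun i t => ∫ s in (0 : ℝ)..t, F i s) := by
  refine ⟨fun c hc => ?_, F, fun j t ht => ?_, hF⟩
  · obtain ⟨C, hC0, hC⟩ := hF.rd.nonneg_const hc
    refine ⟨C * (1 + b), fun j t ht => ?_⟩
    have hcj : 0 < c ^ j := by positivity
    have h1 : ‖∫ s in (0 : ℝ)..t, F j s‖ ≤ (C / c ^ j) * |t - 0| := by
      apply intervalIntegral.norm_integral_le_of_norm_le_const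
      intro s hs
      have hs' := sub_Ioo hb ht (uIoc_subset_uIcc hs)
      rw [Real.norm_eq_abs, le_div_iff₀ hcj]
      exact hC j s hs'
    rw [Real.norm_eq_abs, sub_zero] at h1
    have h2 : |t| ≤ 1 + b := by
      rw [abs_le]
      constructor <;> linarith [ht.1, ht.2]
    calc |∫ s in (0 : ℝ)..t, F j s| * c ^ j ≤ ((C / c ^ j) * |t|) * c ^ j :=
          mul_le_mul_of_nonneg_right h1 hcj.le
      _ = C * |t| := by
          field_simp
      _ ≤ _ := mul_le_mul_of_nonneg_left h2 hC0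
  · have hc := hF.cont j
    apply intervalIntegral.integral_hasDerivAt_right
    · exact (hc.mono (sub_Ioo hb ht)).intervalIntegrable
    · exact ContinuousOn.stronglyMeasurableAtFilter isOpen_Ioo hc t ht
    · exact hc.continuousAt (Ioo_mem_nhds ht.1 ht.2)

/-- Picard iterates; they coincide with the solution for `t ≥ 0` and gain one derivative at each
step also to the left of `t = 0`. -/
noncomputable def PI (p : Par) (A : ℕ → ℝ → ℝ) : ℕ → ℕ → ℝ → ℝ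
  | 0 => fun j t => A j (max t 0)
  | (k + 1) => fun j t => A j 0 + unsh (fun i t => ∫ s in (0 : ℝ)..t, rhs p (PI p A k) i s) j t

theorem PI_RC {p : Par} {Tb : ℝ} {A : ℕ → ℝ → ℝ} (S : Sol p Tb A) {b : ℝ} (hb : 0 < b)
    (hbT : b < Tb) (k : ℕ) : RC k b (PI p A k) := by
  have h0 : ∀ c > 0, ∃ C, ∀ j, |A j 0| * c ^ j ≤ C := by
    intro c hc
    obtain ⟨C, hC⟩ := S.decay b hbT c hc
    exact ⟨C, fun j => hC j 0 ⟨le_rfl, hb.le⟩⟩
  induction k with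
  | zero =>
    refine ⟨fun c hc => ?_, fun j => ?_⟩
    · obtain ⟨C, hC⟩ := S.decay b hbT c hc
      refine ⟨C, fun j t ht => ?_⟩
      show |A j (max t 0)| * c ^ j ≤ C
      exact hC j _ ⟨le_max_right _ _, max_le ht.2.le hb.le⟩
    · exact ((S.cont j).comp (continuous_id.max continuous_const)).continuousOn
  | succ k ih =>
    exact (RC.const (k + 1) h0).add ((ih.rhsf p).integral hb).unsh

theorem PI_eq {p : Par} {Tb : ℝ} {A : ℕ → ℝ → ℝ} (S : Sol p Tb A) (k : ℕ) :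
    ∀ j, ∀ t ∈ Ico 0 Tb, PI p A k j t = A j t := by
  induction k with
  | zero =>
    intro j t ht
    show A j (max t 0) = A j t
    rw [max_eq_left ht.1]
  | succ k ih =>
    intro j t ht
    cases j with
    | zero =>
      show A 0 0 + 0 = A 0 t
      rw [S.zero, S.zero, add_zero]
    | succ i =>
      show A (i + 1) 0 + ∫ s in (0 : ℝ)..t, rhs p (PI p A k) i s = A (i + 1) t
      rw [S.eqn i t ht]
      congr 1
      apply intervalIntegral.integral_congr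
      intro s hs
      rw [uIcc_of_le ht.1] at hs
      have hs' : s ∈ Ico 0 Tb := ⟨hs.1, hs.2.trans_lt ht.2⟩
      show rhs p (PI p A k) i s = rhs p A i s
      unfold rhs
      rw [ih i s hs', ih (i + 1) s hs', ih (i + 2) s hs']

/-- Derivative of the modes inside the interval of existence. -/
theorem Sol.deriv {p : Par} {Tb : ℝ} {A : ℕ → ℝ → ℝ} (S : Sol p Tb A) (i : ℕ) {t : ℝ}
    (ht : t ∈ Ioo 0 Tb) : HasDerivAt (A (i + 1)) (rhs p A i t) t := by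
  have hc : Continuous (rhs p A i) := by
    unfold rhs
    have h := S.cont
    exact ((((continuous_const.mul (h _)).add ((h _).mul (h _))).add
      (continuous_const.mul ((h _).pow 2))).sub
      ((continuous_const.mul (h _)).mul (h _))).sub (((h _).pow 2).div_const _)
  have h1 : HasDerivAt (fun t => A (i + 1) 0 + ∫ s in (0 : ℝ)..t, rhs p A i s)
      (rhs p A i t) t :=
    (intervalIntegral.integral_hasDerivAt_right (hc.intervalIntegrable _ _)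
      (hc.stronglyMeasurableAtFilter _ _) hc.continuousAt).const_add _
  apply h1.congr_of_eventuallyEq
  filter_upwards [Ioo_mem_nhds ht.1 ht.2] with s hs
  exact S.eqn i s ⟨hs.1.le, hs.2⟩

/-- Coefficient family of the velocity field. -/
noncomputable def cfam (μ κ : ℝ) (B : ℕ → ℝ → ℝ) (n : ℕ) (t : ℝ) : ℝ :=
  1 / κ * ((μ ^ 2)⁻¹) ^ n * B (n + 1) t

/-- Coefficients with respect to the normalised dilates. -/
noncomputable def coef (μ κ : ℝ) (A : ℕ → ℝ → ℝ) (n : ℕ) (t : ℝ) : ℝ :=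
  1 / κ * ((μ ^ 5)⁻¹) ^ n * A (n + 1) t

/-- The velocity field. -/
noncomputable def vel (μ κ : ℝ) (ψ : V → V) (A : ℕ → ℝ → ℝ) (t : ℝ) (x : V) : V :=
  Ser (μ ^ 2) (cfam μ κ A) ψ (t, x)

theorem cfam_RC {k : ℕ} {b : ℝ} {μ : ℝ} (hμ : 0 < μ) (κ : ℝ) {B : ℕ → ℝ → ℝ} (hB : RC k b B) :
    RC k b (cfam μ κ B) :=
  (hB.shift 1).geom (1 / κ) (by positivity)

theorem cfam_ph {μ κ : ℝ} (hμ : 0 < μ) (ψ : V → V) (A : ℕ → ℝ → ℝ) (n : ℕ) (t : ℝ) (x : V) :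
    coef μ κ A n t • ph μ ψ n x = cfam μ κ A n t • ψ ((μ ^ 2) ^ n • x) := by
  unfold coef cfam ph dil
  rw [smul_smul]
  have e : (μ ^ n) ^ 2 = (μ ^ 2) ^ n := by ring
  rw [e]
  congr 1
  have e2 : ((μ ^ 5)⁻¹) ^ n * (μ ^ n) ^ 3 = ((μ ^ 2)⁻¹) ^ n := by
    rw [inv_pow, inv_pow]
    field_simp
    ring
  rw [← e2]
  ring

theorem vel_mem {p : Par} {Tb : ℝ} {A : ℕ → ℝ → ℝ} (S : Sol p Tb A) {μ κ ε : ℝ} (hμ : 2 ≤ μ)
    {ψ : V → V} (hF : Fld μ ε ψ) {t : ℝ} (ht : t ∈ Ico 0 Tb) :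
    Mem μ ψ (fun n => coef μ κ A n t) (vel μ κ ψ A t) := by
  have hμ0 : 0 < μ := by linarith
  intro x
  simp_rw [cfam_ph hμ0]
  obtain ⟨b, hb1, hb2⟩ := exists_between ht.2
  have hb0 : 0 < b := ht.1.trans_lt hb1
  have h1 := cfam_RC hμ0 κ (PI_RC S hb0 hb2 0)
  have h2 := ser_summable (r := μ ^ 2) h1.rd hF.cf.sm hF.cf.cs (z := (t, x))
    ⟨by linarith [ht.1], hb1⟩
  have h3 : (fun j => cfam μ κ (PI p A 0) j t • ψ ((μ ^ 2) ^ j • x))
      = fun j => cfam μ κ A j t • ψ ((μ ^ 2) ^ j • x) := by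
    funext j
    unfold cfam
    rw [PI_eq S 0 (j + 1) t ht]
  have h4 : Summable (fun j => cfam μ κ A j t • ψ ((μ ^ 2) ^ j • x)) := by
    rw [← h3]
    exact h2
  exact h4.hasSum

theorem vel_smooth {p : Par} {Tb : ℝ} {A : ℕ → ℝ → ℝ} (S : Sol p Tb A) {μ κ ε : ℝ} (hμ : 2 ≤ μ)
    {ψ : V → V} (hF : Fld μ ε ψ) :
    ContDiffOn ℝ ∞ (fun z : ℝ × V => vel μ κ ψ A z.1 z.2) (Ico 0 Tb ×ˢ univ) := by
  have hμ0 : 0 < μ := by linarith
  rw [contDiffOn_infty]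
  intro k z hz
  obtain ⟨b, hb1, hb2⟩ := exists_between hz.1.2
  have hb0 : 0 < b := hz.1.1.trans_lt hb1
  have h1 := ser_smooth (b := b) k V (μ ^ 2) (by positivity) (cfam μ κ (PI p A k))
    (cfam_RC hμ0 κ (PI_RC S hb0 hb2 k)) ψ hF.cf.sm hF.cf.cs
  have hs : IsOpen (Ioo (-1) b ×ˢ (univ : Set V)) := isOpen_Ioo.prod isOpen_univ
  have hzm : z ∈ Ioo (-1) b ×ˢ (univ : Set V) := ⟨⟨by linarith [hz.1.1], hb1⟩, mem_univ _⟩
  have h2 : ContDiffAt ℝ k (Ser (μ ^ 2) (cfam μ κ (PI p A k)) ψ) z :=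
    h1.contDiffAt (hs.mem_nhds hzm)
  have he : ∀ y ∈ Ico 0 Tb ×ˢ (univ : Set V), vel μ κ ψ A y.1 y.2
      = Ser (μ ^ 2) (cfam μ κ (PI p A k)) ψ y := by
    intro y hy
    unfold vel Ser
    congr 1
    funext j
    unfold cfam
    rw [PI_eq S k (j + 1) y.1 hy.1]
  exact (h2.contDiffWithinAt (s := Ico 0 Tb ×ˢ (univ : Set V))).congr he (he z hz)

theorem coef_deriv {p : Par} {Tb : ℝ} {A : ℕ → ℝ → ℝ} (S : Sol p Tb A) (μ κ : ℝ) (n : ℕ) {t : ℝ}
    (ht : t ∈ Ioo 0 Tb) : HasDerivAt (coef μ κ A n) (1 / κ * ((μ ^ 5)⁻¹) ^ n * rhs p A n t) t :=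
  (S.deriv n ht).const_mul _

/-- The parameters fit the field. -/
structure Fit (μ ε β ν : ℝ) (ψ : V → V) (p : Par) (κ : ℝ) : Prop where
  Λe : p.Λ = μ ^ 4
  Ke : p.K = μ ^ 5
  εe : p.ε = ε
  N : 0 < ip ψ ψ
  βp : 0 < β
  κe : κ = β / ip ψ ψ
  de : p.d = ν * Dir ψ ψ / ip ψ ψ

theorem shf_coef {p : Par} {Tb : ℝ} {A : ℕ → ℝ → ℝ} (S : Sol p Tb A) {μ : ℝ} (hμ : 0 < μ) (κ : ℝ)
    (m : ℕ) (t : ℝ) : shf (fun n => coef μ κ A n t) m
      = μ ^ 5 * (1 / κ * ((μ ^ 5)⁻¹) ^ m * A m t) := by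
  cases m with
  | zero =>
    show (0 : ℝ) = _
    rw [S.zero]
    ring
  | succ m =>
    show coef μ κ A m t = _
    unfold coef
    have e : ((μ ^ 5)⁻¹) ^ (m + 1) = ((μ ^ 5)⁻¹) ^ m * (μ ^ 5)⁻¹ := by ring
    rw [e]
    field_simp

/-- The Galerkin equations hold. -/
theorem vel_galerkin {p : Par} {Tb : ℝ} {A : ℕ → ℝ → ℝ} (S : Sol p Tb A) {μ κ ε β ν : ℝ}
    (hμ : 2 ≤ μ) {ψ : V → V} (hF : Fld μ ε ψ) (hβ1 : tri (dil μ ψ) ψ (dil μ ψ) = -β)
    (hβ2 : tri ψ ψ (dil μ ψ) = -(ε * β)) (hfit : Fit μ ε β ν ψ p κ) {t : ℝ}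
    (ht : t ∈ Ioo 0 Tb) (m : ℕ) :
    ∫ x, ∑ i, residual ν (vel μ κ ψ A) t x i * ph μ ψ m x i = 0 := by
  have hμ0 : 0 < μ := by linarith
  rw [red hF hμ hβ1 hβ2 (T' := Tb) (c := coef μ κ A) (fun s hs => vel_mem S hμ hF hs) ht
    (fun n => coef_deriv S μ κ n ht) ν m]
  rw [shf_coef S hμ0]
  have hN := hfit.N
  have hβ := hfit.βp
  have hκ : 0 < κ := by
    rw [hfit.κe]
    positivity
  unfold coef rhs
  rw [hfit.Λe, hfit.Ke, hfit.εe, hfit.de]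
  have hβe : β = κ * ip ψ ψ := by
    rw [hfit.κe]
    field_simp
  rw [hβe]
  have e1 : ((μ ^ 5)⁻¹) ^ (m + 1) = ((μ ^ 5)⁻¹) ^ m * (μ ^ 5)⁻¹ := by ring
  have e2 : (μ ^ (5 * m)) = (μ ^ 5) ^ m := by ring
  have e3 : ((μ ^ 5)⁻¹) ^ m = ((μ ^ 5) ^ m)⁻¹ := by rw [inv_pow]
  have e4 : μ ^ (4 * m) = (μ ^ 4) ^ m := by ring
  rw [e1, e2, e3, e4]
  have hM : (μ ^ 5) ^ m ≠ 0 := by positivity
  field_simp
  ring

end Pool.Agent.Run7.h407
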