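import Mathlib
import Pool.Agent.Run7.h407.Reg2

/-!
Uniqueness for the reduced system in the class of bounded families.
-/

namespace Pool.Agent.Run7.h407

open Set Filter Topology MeasureTheory
open scoped ContDiff

theorem le_of_deriv_nonneg' {f f' : ℝ → ℝ} {a b : ℝ} (hab : a ≤ b)
    (hc : ContinuousOn f (Icc a b))
    (hf : ∀ x ∈ Ioo a b, HasDerivAt f (f' x) x) (h : ∀ x ∈ Ioo a b, 0 ≤ f' x) :
    f a ≤ f b := by
  have hm : MonotoneOn f (Icc a b) := by
    apply monotoneOn_of_deriv_nonneg (convex_Icc a b) hc
    · intro x hx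
      rw [interior_Icc] at hx
      exact (hf x hx).differentiableAt.differentiableWithinAt
    · intro x hx
      rw [interior_Icc] at hx
      rw [(hf x hx).deriv]
      exact h x hx
  exact hm (left_mem_Icc.2 hab) (right_mem_Icc.2 hab) hab

/-- The Lipschitz constant of the undamped part on bounded families. -/
noncomputable def LC (p : Par) (M : ℝ) : ℝ :=
  2 * M + 2 * (p.ε * p.K) * M + 2 * (p.ε / p.K) * M + 2 * M / p.K ^ 2

theorem rhs_diff {p : Par} {A B : ℕ → ℝ → ℝ} {t M S : ℝ} (_hM : 0 ≤ M)
    (hA : ∀ j, |A j t| ≤ M) (hB : ∀ j, |B j t| ≤ M) (hS : ∀ j, |A j t - B j t| ≤ S) (i : ℕ) :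
    |p.d * p.Λ ^ i * (A (i + 1) t - B (i + 1) t) + (rhs p A i t - rhs p B i t)| ≤ LC p M * S := by
  have hK := p.Kpos
  have hε := p.hε
  have hεK := p.εKpos
  have hS0 : 0 ≤ S := (abs_nonneg _).trans (hS 0)
  have e : p.d * p.Λ ^ i * (A (i + 1) t - B (i + 1) t) + (rhs p A i t - rhs p B i t)
      = (A i t * (A (i + 1) t - B (i + 1) t) + B (i + 1) t * (A i t - B i t))
        + p.ε * p.K * ((A i t + B i t) * (A i t - B i t))
        + -(p.ε / p.K * (A (i + 1) t * (A (i + 2) t - B (i + 2) t)
          + B (i + 2) t * (A (i + 1) t - B (i + 1) t)))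
        + -((A (i + 2) t + B (i + 2) t) * (A (i + 2) t - B (i + 2) t) / p.K ^ 2) := by
    unfold rhs
    ring
  rw [e]
  have hm : ∀ x y : ℝ, |x| ≤ M → |y| ≤ S → |x * y| ≤ M * S := fun x y hx hy => by
    rw [abs_mul]
    exact mul_le_mul hx hy (abs_nonneg _) _hM
  have hm2 : ∀ x y z : ℝ, |x| ≤ M → |y| ≤ M → |z| ≤ S → |(x + y) * z| ≤ 2 * M * S :=
    fun x y z hx hy hz => by
      rw [abs_mul]
      have : |x + y| ≤ 2 * M := (abs_add_le _ _).trans (by linarith)
      exact mul_le_mul this hz (abs_nonneg _) (by linarith)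
  have t1 : |A i t * (A (i + 1) t - B (i + 1) t) + B (i + 1) t * (A i t - B i t)|
      ≤ 2 * M * S := by
    refine (abs_add_le _ _).trans ?_
    have h1 := hm _ _ (hA i) (hS (i + 1))
    have h2 := hm _ _ (hB (i + 1)) (hS i)
    linarith
  have t2 : |p.ε * p.K * ((A i t + B i t) * (A i t - B i t))| ≤ 2 * (p.ε * p.K) * M * S := by
    rw [abs_mul, abs_of_pos hεK]
    have h1 := mul_le_mul_of_nonneg_left (hm2 _ _ _ (hA i) (hB i) (hS i)) hεK.le
    linarith
  have t3 : |-(p.ε / p.K * (A (i + 1) t * (A (i + 2) t - B (i + 2) t)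
          + B (i + 2) t * (A (i + 1) t - B (i + 1) t)))| ≤ 2 * (p.ε / p.K) * M * S := by
    have h0 : 0 < p.ε / p.K := by positivity
    rw [abs_neg, abs_mul, abs_of_pos h0]
    have h1 := hm _ _ (hA (i + 1)) (hS (i + 2))
    have h2 := hm _ _ (hB (i + 2)) (hS (i + 1))
    have h3 := (abs_add_le (A (i + 1) t * (A (i + 2) t - B (i + 2) t))
      (B (i + 2) t * (A (i + 1) t - B (i + 1) t))).trans (add_le_add h1 h2)
    have h4 := mul_le_mul_of_nonneg_left h3 h0.le
    linarith
  have t4 : |-((A (i + 2) t + B (i + 2) t) * (A (i + 2) t - B (i + 2) t) / p.K ^ 2)|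
      ≤ 2 * M / p.K ^ 2 * S := by
    rw [abs_neg, abs_div, abs_of_pos (by positivity : 0 < p.K ^ 2)]
    have h1 := hm2 _ _ _ (hA (i + 2)) (hB (i + 2)) (hS (i + 2))
    calc |(A (i + 2) t + B (i + 2) t) * (A (i + 2) t - B (i + 2) t)| / p.K ^ 2
        ≤ (2 * M * S) / p.K ^ 2 := div_le_div_of_nonneg_right h1 (by positivity)
      _ = _ := by ring
  unfold LC
  refine (abs_add_le _ _).trans ?_
  refine (add_le_add (abs_add_le _ _) le_rfl).trans ?_
  refine (add_le_add (add_le_add (abs_add_le _ _) le_rfl) le_rfl).trans ?_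
  linarith

theorem ode_unique {p : Par} {A B : ℕ → ℝ → ℝ} {b M : ℝ} (hM : 0 ≤ M)
    (hA0 : ∀ t, A 0 t = 0) (hB0 : ∀ t, B 0 t = 0)
    (hAc : ∀ j, ContinuousOn (A j) (Icc 0 b)) (hBc : ∀ j, ContinuousOn (B j) (Icc 0 b))
    (hA : ∀ i, ∀ t ∈ Ioo 0 b, HasDerivAt (A (i + 1)) (rhs p A i t) t)
    (hB : ∀ i, ∀ t ∈ Ioo 0 b, HasDerivAt (B (i + 1)) (rhs p B i t) t)
    (hAM : ∀ j, ∀ t ∈ Icc 0 b, |A j t| ≤ M) (hBM : ∀ j, ∀ t ∈ Icc 0 b, |B j t| ≤ M)
    (h0 : ∀ j, A j 0 = B j 0) :
    ∀ j, ∀ t ∈ Icc 0 b, A j t = B j t := by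
  have hK := p.Kpos
  have hε := p.hε
  have hL0 : 0 ≤ LC p M := by
    unfold LC
    positivity
  have hind : ∀ k : ℕ, ∀ j, ∀ t ∈ Icc 0 b,
      |A j t - B j t| ≤ 2 * M * ((LC p M * t) ^ k / k.factorial) := by
    intro k
    induction k with
    | zero =>
      intro j t ht
      simp only [pow_zero, Nat.factorial_zero, Nat.cast_one, div_one, mul_one]
      have h1 := hAM j t ht
      have h2 := hBM j t ht
      have h3 := abs_sub (A j t) (B j t)
      linarith
    | succ k ih =>
      intro j t ht
      have hb0 : 0 ≤ t := ht.1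
      cases j with
      | zero =>
        rw [hA0, hB0, sub_zero, abs_zero]
        have : 0 ≤ LC p M * t := mul_nonneg hL0 hb0
        positivity
      | succ i =>
        set D := p.d * p.Λ ^ i with hD
        have hD0 : 0 ≤ D := mul_nonneg p.hd (pow_nonneg p.Λpos.le _)
        -- the comparison function
        set G : ℝ → ℝ := fun s => Real.exp (D * s) *
          (2 * M * ((LC p M * s) ^ (k + 1) / (k + 1).factorial)) with hG
        set G' : ℝ → ℝ := fun s => (Real.exp (D * s) * D) *
          (2 * M * ((LC p M * s) ^ (k + 1) / (k + 1).factorial))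
          + Real.exp (D * s) * (2 * M * (((k + 1 : ℕ) * (LC p M * s) ^ k * LC p M)
            / (k + 1).factorial)) with hG'
        have hGd : ∀ s, HasDerivAt G (G' s) s := by
          intro s
          have h1 : HasDerivAt (fun s : ℝ => Real.exp (D * s)) (Real.exp (D * s) * D) s := by
            have := ((hasDerivAt_id s).const_mul D).exp
            simpa using this
          have h2 : HasDerivAt (fun s : ℝ => (LC p M * s) ^ (k + 1))
              ((k + 1 : ℕ) * (LC p M * s) ^ k * LC p M) s := by
            have h3 : HasDerivAt (fun y : ℝ => LC p M * y) (LC p M) s := by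
              have := (hasDerivAt_id s).const_mul (LC p M)
              simpa using this
            have h4 := h3.fun_pow (k + 1)
            simpa using h4
          exact h1.mul ((h2.div_const _).const_mul _)
        set F : ℝ → ℝ := fun s => Real.exp (D * s) * (A (i + 1) s - B (i + 1) s) with hF
        set F' : ℝ → ℝ := fun s => Real.exp (D * s) *
          (D * (A (i + 1) s - B (i + 1) s) + (rhs p A i s - rhs p B i s)) with hF'
        have hFd : ∀ s ∈ Ioo 0 b, HasDerivAt F (F' s) s := by
          intro s hs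
          have h1 : HasDerivAt (fun s : ℝ => Real.exp (D * s)) (Real.exp (D * s) * D) s := by
            have := ((hasDerivAt_id s).const_mul D).exp
            simpa using this
          have h2 := h1.mul ((hA i s hs).sub (hB i s hs))
          have e : F' s = Real.exp (D * s) * D * (A (i + 1) s - B (i + 1) s)
              + Real.exp (D * s) * (rhs p A i s - rhs p B i s) := by
            rw [hF']
            ring
          rw [e]
          exact h2
        have hsub : Icc 0 t ⊆ Icc 0 b := Icc_subset_Icc_right ht.2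
        have hsub' : Ioo 0 t ⊆ Ioo 0 b := Ioo_subset_Ioo_right ht.2
        have hFc : ContinuousOn F (Icc 0 t) := by
          apply ContinuousOn.mul
          · exact (Real.continuous_exp.comp (continuous_const.mul continuous_id)).continuousOn
          · exact ((hAc (i + 1)).mono hsub).sub ((hBc (i + 1)).mono hsub)
        have hGc : ContinuousOn G (Icc 0 t) := fun s _ => (hGd s).continuousAt.continuousWithinAt
        have hbd : ∀ s ∈ Ioo 0 t, |F' s| ≤ G' s := by
          intro s hs
          have hs' : s ∈ Icc 0 b := hsub (Ioo_subset_Icc_self hs)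
          have hs0 : 0 ≤ LC p M * s := mul_nonneg hL0 hs.1.le
          have h1 := rhs_diff (p := p) hM (fun j => hAM j s hs') (fun j => hBM j s hs')
            (fun j => ih j s hs') i
          have h2 : |F' s| ≤ Real.exp (D * s) *
              (LC p M * (2 * M * ((LC p M * s) ^ k / k.factorial))) := by
            rw [hF']
            simp only
            rw [abs_mul, abs_of_pos (Real.exp_pos _)]
            exact mul_le_mul_of_nonneg_left h1 (Real.exp_pos _).le
          have h3 : LC p M * (2 * M * ((LC p M * s) ^ k / k.factorial))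
              = 2 * M * (((k + 1 : ℕ) * (LC p M * s) ^ k * LC p M) / (k + 1).factorial) := by
            rw [Nat.factorial_succ]
            push_cast
            field_simp
          rw [h3] at h2
          refine h2.trans ?_
          rw [hG']
          simp only
          have h4 : 0 ≤ (Real.exp (D * s) * D) *
              (2 * M * ((LC p M * s) ^ (k + 1) / (k + 1).factorial)) := by positivity
          linarith
        have hA0' : F 0 = 0 := by
          rw [hF]
          simp only
          rw [h0 (i + 1)]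
          ring
        have hG0 : G 0 = 0 := by
          rw [hG]
          simp
        have u1 := le_of_deriv_nonneg' (f := fun s => G s - F s) (f' := fun s => G' s - F' s)
          hb0 (hGc.sub hFc) (fun s hs => (hGd s).sub (hFd s (hsub' hs)))
          (fun s hs => sub_nonneg.2 ((le_abs_self _).trans (hbd s hs)))
        have u2 := le_of_deriv_nonneg' (f := fun s => G s + F s) (f' := fun s => G' s + F' s)
          hb0 (hGc.add hFc) (fun s hs => (hGd s).add (hFd s (hsub' hs)))
          (fun s hs => by
            have := (neg_le_abs (F' s)).trans (hbd s hs)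
            linarith)
        simp only [hA0', hG0] at u1 u2
        have u3 : |F t| ≤ G t := by
          rw [abs_le]
          constructor <;> linarith
        rw [hF, hG] at u3
        simp only at u3
        rw [abs_mul, abs_of_pos (Real.exp_pos _)] at u3
        exact le_of_mul_le_mul_left u3 (Real.exp_pos _)
  intro j t ht
  have h1 : Tendsto (fun k : ℕ => 2 * M * ((LC p M * t) ^ k / k.factorial)) atTop
      (𝓝 (2 * M * 0)) :=
    (FloorSemiring.tendsto_pow_div_factorial_atTop (LC p M * t)).const_mul _
  rw [mul_zero] at h1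
  have h2 : |A j t - B j t| ≤ 0 :=
    ge_of_tendsto' h1 fun k => hind k j t ht
  have h3 : A j t - B j t = 0 := abs_eq_zero.1 (le_antisymm h2 (abs_nonneg _))
  linarith

end Pool.Agent.Run7.h407
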