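import Mathlib
import Pool.Agent.Run7.h407.Uniq

/-!
Blow-up and uniqueness for the velocity field.
-/

namespace Pool.Agent.Run7.h407

open Set Filter Topology MeasureTheory
open scoped ContDiff

/-- The points at which the coefficients are read off. -/
noncomputable def xs (μ : ℝ) (x₀ : V) (n : ℕ) : V := ((μ ^ n) ^ 2)⁻¹ • x₀

theorem xs_coord {μ : ℝ} (hμ : 0 < μ) {x₀ : V} (h : x₀ 0 = 9 / 8) (n : ℕ) :
    μ ^ (2 * n) * xs μ x₀ n 0 = 9 / 8 := by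
  unfold xs
  simp only [Pi.smul_apply, smul_eq_mul]
  rw [h]
  have e : μ ^ (2 * n) = (μ ^ n) ^ 2 := by ring
  rw [e]
  field_simp

theorem xs_norm {μ : ℝ} (hμ : 2 ≤ μ) (x₀ : V) (n : ℕ) : ‖xs μ x₀ n‖ ≤ ‖x₀‖ := by
  unfold xs
  rw [norm_smul, Real.norm_eq_abs]
  have h1 : 1 ≤ (μ ^ n) ^ 2 := one_le_pow₀ (one_le_pow₀ (by linarith))
  have h2 : |((μ ^ n) ^ 2)⁻¹| ≤ 1 := by
    rw [abs_of_nonneg (by positivity)]
    exact inv_le_one_of_one_le₀ h1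
  have := norm_nonneg x₀
  nlinarith

theorem ph_at {μ : ℝ} (hμ : 0 < μ) (ψ : V → V) (x₀ : V) (n : ℕ) :
    ph μ ψ n (xs μ x₀ n) = (μ ^ n) ^ 3 • ψ x₀ := by
  unfold ph dil xs
  rw [smul_smul]
  have : (μ ^ n) ^ 2 * ((μ ^ n) ^ 2)⁻¹ = 1 := by field_simp
  rw [this, one_smul]

theorem pd_ph_at {μ ε : ℝ} (hμ : 0 < μ) {ψ : V → V} (hF : Fld μ ε ψ) (x₀ : V) (n : ℕ) :
    pd 2 (fun y => ph μ ψ n y 2) (xs μ x₀ n) = (μ ^ n) ^ 5 * pd 2 (fun y => ψ y 2) x₀ := by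
  have h := pd_dil hF.cf.smc (μ ^ n) 2 2 (xs μ x₀ n)
  have e : (μ ^ n) ^ 2 • xs μ x₀ n = x₀ := by
    unfold xs
    rw [smul_smul]
    have : (μ ^ n) ^ 2 * ((μ ^ n) ^ 2)⁻¹ = 1 := by field_simp
    rw [this, one_smul]
  rw [e] at h
  exact h

/-- Reading off a coefficient. -/
theorem read_coef {μ ε : ℝ} (hμ : 2 ≤ μ) {ψ : V → V} (hF : Fld μ ε ψ) {x₀ : V}
    (hx : x₀ 0 = 9 / 8) (hψ : ψ x₀ 2 = 1) {c : ℕ → ℝ} {v : V → V} (hm : Mem μ ψ c v) (n : ℕ) :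
    v (xs μ x₀ n) 2 = c n * (μ ^ n) ^ 3 := by
  have hμ0 : 0 < μ := by linarith
  have h1 := xs_coord hμ0 hx n
  rw [rep_one hF hμ hm n (by rw [h1]; norm_num) (by rw [h1]; norm_num), ph_at hμ0]
  simp [hψ]

theorem read_grad {μ ε : ℝ} (hμ : 2 ≤ μ) {ψ : V → V} (hF : Fld μ ε ψ) {x₀ : V}
    (hx : x₀ 0 = 9 / 8) (hψ2 : pd 2 (fun y => ψ y 2) x₀ = 2) {c : ℕ → ℝ}
    {v : V → V} (hm : Mem μ ψ c v) (n : ℕ) :
    pd 2 (fun y => v y 2) (xs μ x₀ n) = c n * ((μ ^ n) ^ 5 * 2) := by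
  have hμ0 : 0 < μ := by linarith
  have h1 := xs_coord hμ0 hx n
  have h2 : (fun y => v y 2) =ᶠ[𝓝 (xs μ x₀ n)] fun y => c n * ph μ ψ n y 2 := by
    have hcont : Continuous (fun y : V => μ ^ (2 * n) * y 0) :=
      continuous_const.mul (continuous_apply 0)
    have h3 : ∀ᶠ y in 𝓝 (xs μ x₀ n), 17 / 16 < μ ^ (2 * n) * y 0 ∧ μ ^ (2 * n) * y 0 < 3 :=
      (hcont.tendsto _).eventually (Ioo_mem_nhds (by rw [h1]; norm_num) (by rw [h1]; norm_num))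
    filter_upwards [h3] with y hy
    rw [rep_one hF hμ hm n hy.1 hy.2]
    rfl
  have h4 : CF (ph μ ψ n) := dil_CF hF.cf (by positivity)
  rw [pd_congr h2, pd_const_mul (c n) ((h4.smc 2).diff _), pd_ph_at hμ0 hF, hψ2]

/-- Blow-up, with a uniform location. -/
theorem vel_blow {p : Par} {Tb : ℝ} {A : ℕ → ℝ → ℝ} (S : Sol p Tb A) {μ κ ε β ν : ℝ}
    (hμ : 2 ≤ μ) {ψ : V → V} (hF : Fld μ ε ψ) (hfit : Fit μ ε β ν ψ p κ) {x₀ : V}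
    (hx : x₀ 0 = 9 / 8) (hψ : ψ x₀ 2 = 1) {b : ℝ} (hb : b < Tb) (hb0 : 0 ≤ b) (M : ℝ) :
    ∃ t ∈ Ioo b Tb, ∃ x, ‖x‖ ≤ ‖x₀‖ ∧ M < ‖vel μ κ ψ A t x‖ := by
  have hμ0 : 0 < μ := by linarith
  have hκ : 0 < κ := by
    rw [hfit.κe]
    exact div_pos hfit.βp hfit.N
  have ha0 := p.ha0
  have ht : Tendsto (fun n : ℕ => p.a0 / (2 * κ) * (μ ^ 2) ^ n) atTop atTop := by
    apply Tendsto.const_mul_atTop (by positivity)
    exact tendsto_pow_atTop_atTop_of_one_lt (by nlinarith)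
  obtain ⟨n0, hn0⟩ := (ht.eventually_gt_atTop M).exists_forall_of_atTop
  obtain ⟨n, hn, t, ht1, ht2⟩ := S.blow b hb n0
  refine ⟨t, ht1, xs μ x₀ n, xs_norm hμ x₀ n, ?_⟩
  have htm : t ∈ Ico 0 Tb := ⟨hb0.trans ht1.1.le, ht1.2⟩
  have h1 := read_coef hμ hF hx hψ (vel_mem S hμ hF htm (κ := κ)) n
  have h2 : |vel μ κ ψ A t (xs μ x₀ n) 2| ≤ ‖vel μ κ ψ A t (xs μ x₀ n)‖ := by
    rw [← Real.norm_eq_abs]
    exact norm_le_pi_norm _ 2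
  refine (hn0 n hn).trans_le (le_trans ?_ ((le_abs_self _).trans h2))
  rw [h1]
  unfold coef
  rw [hfit.Λe] at ht2
  have e1 : 1 / κ * ((μ ^ 5)⁻¹) ^ n * A (n + 1) t * (μ ^ n) ^ 3
      = 1 / κ * ((μ ^ 2)⁻¹) ^ n * A (n + 1) t := by
    have e2 : ((μ ^ 5)⁻¹) ^ n * (μ ^ n) ^ 3 = ((μ ^ 2)⁻¹) ^ n := by
      rw [inv_pow, inv_pow]
      field_simp
      ring
    rw [← e2]
    ring
  rw [e1]
  have e3 : p.a0 / (2 * κ) * (μ ^ 2) ^ n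
      = 1 / κ * ((μ ^ 2)⁻¹) ^ n * (p.a0 / 2 * (μ ^ 4) ^ n) := by
    have e4 : ((μ ^ 2)⁻¹) ^ n * (μ ^ 4) ^ n = (μ ^ 2) ^ n := by
      rw [inv_pow]
      field_simp
      ring
    rw [← e4]
    field_simp
  rw [e3]
  exact mul_le_mul_of_nonneg_left ht2 (by positivity)

/-- The rescaled coefficients of a Galerkin solution solve the reduced system. -/
theorem galerkin_ode {μ ε β ν κ : ℝ} {p : Par} (hμ : 2 ≤ μ) {ψ : V → V} (hF : Fld μ ε ψ)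
    (hβ1 : tri (dil μ ψ) ψ (dil μ ψ) = -β)
    (hβ2 : tri ψ ψ (dil μ ψ) = -(ε * β)) (hfit : Fit μ ε β ν ψ p κ)
    {w : ℝ → V → V} {T' : ℝ} {c : ℕ → ℝ → ℝ}
    (hm : ∀ s ∈ Ico 0 T', Mem μ ψ (fun n => c n s) (w s)) {t : ℝ} (ht : t ∈ Ioo 0 T')
    {c' : ℕ → ℝ} (hc : ∀ n, HasDerivAt (c n) (c' n) t)
    (hg : ∀ m, ∫ x, ∑ i, residual ν w t x i * ph μ ψ m x i = 0)
    (B : ℕ → ℝ → ℝ) (hB0 : ∀ s, B 0 s = 0) (hB : ∀ i s, B (i + 1) s = κ * (μ ^ 5) ^ i * c i s)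
    (i : ℕ) : HasDerivAt (B (i + 1)) (rhs p B i t) t := by
  have hμ0 : 0 < μ := by linarith
  have hN := hfit.N
  have hβ := hfit.βp
  have hκ : 0 < κ := by
    rw [hfit.κe]
    exact div_pos hfit.βp hfit.N
  have h1 := hg i
  rw [red hF hμ hβ1 hβ2 hm ht hc ν i] at h1
  have h2 : B (i + 1) = fun s => κ * (μ ^ 5) ^ i * c i s := funext (hB i)
  have h3 : HasDerivAt (B (i + 1)) (κ * (μ ^ 5) ^ i * c' i) t := by
    rw [h2]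
    exact (hc i).const_mul _
  have hs : μ ^ 5 * B i t = κ * (μ ^ 5) ^ i * shf (fun n => c n t) i * (μ ^ 5) ^ 0
      * (μ ^ 5) ^ 0 := by
    cases i with
    | zero =>
      rw [hB0]
      show _ = κ * (μ ^ 5) ^ 0 * 0 * _ * _
      ring
    | succ k =>
      rw [hB]
      show _ = κ * (μ ^ 5) ^ (k + 1) * c k t * _ * _
      ring
  have hs' : shf (fun n => c n t) i = μ ^ 5 * B i t / (κ * (μ ^ 5) ^ i) := by
    rw [hs]
    field_simp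
  have hci : c i t = B (i + 1) t / (κ * (μ ^ 5) ^ i) := by
    rw [hB]
    field_simp
  have hci1 : c (i + 1) t = B (i + 2) t / (κ * (μ ^ 5) ^ (i + 1)) := by
    rw [hB]
    field_simp
  have hβe : β = κ * ip ψ ψ := by
    rw [hfit.κe]
    field_simp
  have e : κ * (μ ^ 5) ^ i * c' i = rhs p B i t := by
    unfold rhs
    rw [hfit.Λe, hfit.Ke, hfit.εe, hfit.de]
    rw [hs', hci, hci1, hβe] at h1
    have e2 : (μ ^ (5 * i)) = (μ ^ 5) ^ i := by ring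
    have e4 : μ ^ (4 * i) = (μ ^ 4) ^ i := by ring
    rw [e2, e4, pow_succ] at h1
    have hM : (μ ^ 5) ^ i ≠ 0 := by positivity
    linear_combination (norm := skip) (κ * (μ ^ 5) ^ i / ip ψ ψ) * h1
    field_simp
    ring
  rw [← e]
  exact h3

end Pool.Agent.Run7.h407
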