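import Mathlib
import Pool.Agent.Run7.h407.Field

/-!
Blow-up for the Navier-Stokes equations restricted to the span of the dilates of one field.
-/

namespace Pool.Agent.Run7.h407

open Set Filter Topology MeasureTheory
open scoped ContDiff

/-- Smooth Galerkin solutions on `[0,T)`. -/
structure IsGal (μ : ℝ) (ψ : V → V) (ν T : ℝ) (u : ℝ → V → V) : Prop where
  smooth : ContDiffOn ℝ ∞ (fun z : ℝ × V => u z.1 z.2) (Ico 0 T ×ˢ univ)
  mem : ∀ t ∈ Ico 0 T, ∃ c : ℕ → ℝ, Summable (fun n => c n ^ 2) ∧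
    ∀ x, HasSum (fun n => c n • ph μ ψ n x) (u t x)
  gal : ∀ t ∈ Ioo 0 T, ∀ n, ∫ x, ∑ i, residual ν u t x i * ph μ ψ n x i = 0

theorem coef_sq_summable {p : Par} {Tb : ℝ} {A : ℕ → ℝ → ℝ} (S : Sol p Tb A) {μ κ : ℝ}
    (hμ : 2 ≤ μ) {t : ℝ} (ht : t ∈ Ico 0 Tb) : Summable (fun n => coef μ κ A n t ^ 2) := by
  have hμ0 : 0 < μ := by linarith
  obtain ⟨C, hC⟩ := S.decay t ht.2 1 one_pos
  have hC' : ∀ j, |A j t| ≤ C := fun j => by
    have := hC j t ⟨ht.1, le_rfl⟩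
    rwa [one_pow, mul_one] at this
  have hC0 : 0 ≤ C := (abs_nonneg _).trans (hC' 0)
  have h5 : (32 : ℝ) ≤ μ ^ 5 := by
    calc (32 : ℝ) = 2 ^ 5 := by norm_num
      _ ≤ μ ^ 5 := pow_le_pow_left₀ (by norm_num) hμ 5
  have hr : (μ ^ 5)⁻¹ ≤ 1 / 2 := by
    rw [inv_le_comm₀ (by positivity) (by norm_num)]
    linarith
  have hr0 : 0 < (μ ^ 5)⁻¹ := by positivity
  apply Summable.of_nonneg_of_le (fun n => sq_nonneg _) (f := fun n : ℕ =>
    (|1 / κ| * C) ^ 2 * (1 / 2) ^ n) _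
    ((summable_geometric_of_lt_one (by norm_num) (by norm_num)).mul_left _)
  intro n
  have h1 : |coef μ κ A n t| ≤ |1 / κ| * C * (1 / 2) ^ n := by
    unfold coef
    rw [abs_mul, abs_mul, abs_of_pos (by positivity : 0 < ((μ ^ 5)⁻¹) ^ n)]
    have h2 : ((μ ^ 5)⁻¹) ^ n ≤ (1 / 2) ^ n := pow_le_pow_left₀ hr0.le hr n
    have h3 : |1 / κ| * ((μ ^ 5)⁻¹) ^ n ≤ |1 / κ| * (1 / 2) ^ n :=
      mul_le_mul_of_nonneg_left h2 (abs_nonneg _)
    have h4 : |1 / κ| * ((μ ^ 5)⁻¹) ^ n * |A (n + 1) t| ≤ |1 / κ| * (1 / 2) ^ n * C :=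
      mul_le_mul h3 (hC' _) (abs_nonneg _) (by positivity)
    linarith
  have h2 : coef μ κ A n t ^ 2 ≤ (|1 / κ| * C * (1 / 2) ^ n) ^ 2 := by
    rw [← sq_abs]
    exact pow_le_pow_left₀ (abs_nonneg _) h1 2
  have h3 : ((1 : ℝ) / 2) ^ n ≤ 1 := pow_le_one₀ (by norm_num) (by norm_num)
  have h4 : (0 : ℝ) < (1 / 2) ^ n := by positivity
  calc coef μ κ A n t ^ 2 ≤ (|1 / κ| * C * (1 / 2) ^ n) ^ 2 := h2
    _ = (|1 / κ| * C) ^ 2 * ((1 / 2) ^ n * (1 / 2) ^ n) := by ring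
    _ ≤ (|1 / κ| * C) ^ 2 * ((1 / 2) ^ n * 1) := by
        apply mul_le_mul_of_nonneg_left _ (by positivity)
        exact mul_le_mul_of_nonneg_left h3 h4.le
    _ = _ := by ring

theorem vel_isGal {p : Par} {Tb : ℝ} {A : ℕ → ℝ → ℝ} (S : Sol p Tb A) {μ κ ε β ν : ℝ}
    (hμ : 2 ≤ μ) {ψ : V → V} (hF : Fld μ ε ψ) (hβ1 : tri (dil μ ψ) ψ (dil μ ψ) = -β)
    (hβ2 : tri ψ ψ (dil μ ψ) = -(ε * β)) (hfit : Fit μ ε β ν ψ p κ) :
    IsGal μ ψ ν Tb (vel μ κ ψ A) where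
  smooth := vel_smooth S hμ hF
  mem := fun _ ht => ⟨fun n => coef μ κ A n _, coef_sq_summable S hμ ht, vel_mem S hμ hF ht⟩
  gal := fun _ ht n => vel_galerkin S hμ hF hβ1 hβ2 hfit ht n

theorem vel_init {p : Par} {Tb : ℝ} {A : ℕ → ℝ → ℝ} (S : Sol p Tb A) {μ κ ε : ℝ}
    (hμ : 2 ≤ μ) {ψ : V → V} (hF : Fld μ ε ψ) (x : V) :
    vel μ κ ψ A 0 x = (p.a0 / κ) • ψ x := by
  have h1 := vel_mem S hμ hF (κ := κ) ⟨le_rfl, S.Tpos⟩ x
  have h2 : ∀ n, n ≠ 0 → coef μ κ A n 0 • ph μ ψ n x = 0 := by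
    intro n hn
    obtain ⟨m, rfl⟩ : ∃ m, n = m + 1 := ⟨n - 1, by omega⟩
    unfold coef
    rw [S.init1]
    simp
  have h3 := hasSum_single 0 h2
  rw [h1.unique h3]
  unfold coef ph
  rw [pow_zero, pow_zero, dil_one, S.init0]
  congr 1
  ring

theorem field_unique {p : Par} {Tb : ℝ} {A : ℕ → ℝ → ℝ} (S : Sol p Tb A) {μ κ ε β ν : ℝ}
    (hμ : 2 ≤ μ) {ψ : V → V} (hF : Fld μ ε ψ) (hβ1 : tri (dil μ ψ) ψ (dil μ ψ) = -β)
    (hβ2 : tri ψ ψ (dil μ ψ) = -(ε * β)) (hfit : Fit μ ε β ν ψ p κ)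
    {T' : ℝ} {w : ℝ → V → V} (hw : IsGal μ ψ ν T' w) (h0 : ∀ x, w 0 x = vel μ κ ψ A 0 x)
    {t : ℝ} (ht : t ∈ Ico 0 T') (htb : t < Tb) (x : V) : w t x = vel μ κ ψ A t x := by
  have hμ0 : 0 < μ := by linarith
  have hκ : 0 < κ := by
    rw [hfit.κe]
    exact div_pos hfit.βp hfit.N
  obtain ⟨x₀, hx0, hψ1, hψ2⟩ := hF.pt
  -- the coefficients of `w`
  set c : ℕ → ℝ → ℝ := fun n s => w s (xs μ x₀ n) 2 / (μ ^ n) ^ 3 with hc
  have hmem : ∀ s ∈ Ico 0 T', Mem μ ψ (fun n => c n s) (w s) := by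
    intro s hs
    obtain ⟨c1, _, hc1⟩ := hw.mem s hs
    have h1 : (fun n => c n s) = c1 := by
      funext n
      rw [hc]
      simp only
      rw [read_coef hμ hF hx0 hψ1 hc1 n]
      field_simp
    rw [h1]
    exact hc1
  -- choose a slightly bigger interval
  obtain ⟨b, hb1, hb2⟩ := exists_between (lt_min ht.2 htb)
  have hbT' : b < T' := hb2.trans_le (min_le_left _ _)
  have hbTb : b < Tb := hb2.trans_le (min_le_right _ _)
  have hb0 : 0 ≤ b := ht.1.trans hb1.le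
  have hT'0 : 0 < T' := ht.1.trans_lt ht.2
  -- continuity and differentiability of the coefficients
  have hcont : ∀ y : V, ContinuousOn (fun s => w s y 2) (Ico 0 T') := by
    intro y
    have h1 : ContinuousOn (fun s : ℝ => (fun z : ℝ × V => w z.1 z.2) (s, y)) (Ico 0 T') :=
      hw.smooth.continuousOn.comp (by fun_prop) (fun s hs => ⟨hs, mem_univ _⟩)
    exact (continuous_apply 2).comp_continuousOn h1
  have hdiff : ∀ y : V, ∀ s ∈ Ioo 0 T', DifferentiableAt ℝ (fun s => w s y 2) s := by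
    intro y s hs
    have hn : Ico 0 T' ×ˢ (univ : Set V) ∈ 𝓝 (s, y) :=
      prod_mem_nhds (Ico_mem_nhds hs.1 hs.2) univ_mem
    have h1 : DifferentiableAt ℝ (fun z : ℝ × V => w z.1 z.2) (s, y) :=
      (hw.smooth.contDiffAt hn).differentiableAt (by simp)
    have h2 : DifferentiableAt ℝ (fun s : ℝ => (s, y)) s := by fun_prop
    have h3' : DifferentiableAt ℝ ((fun z : ℝ × V => w z.1 z.2) ∘ fun s : ℝ => (s, y)) s :=
      DifferentiableAt.comp s h1 h2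
    have h3 : DifferentiableAt ℝ (fun s : ℝ => w s y) s := h3'
    exact (differentiableAt_pi.1 h3) 2
  have hcd : ∀ s ∈ Ioo 0 T', ∀ n, HasDerivAt (c n) (deriv (c n) s) s := by
    intro s hs n
    have : DifferentiableAt ℝ (c n) s := (hdiff _ s hs).div_const _
    exact this.hasDerivAt
  -- the rescaled coefficients
  set B : ℕ → ℝ → ℝ := fun j s => match j with
    | 0 => 0
    | (i + 1) => κ * (μ ^ 5) ^ i * c i s with hB
  have hB0 : ∀ s, B 0 s = 0 := fun s => rfl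
  have hBs : ∀ i s, B (i + 1) s = κ * (μ ^ 5) ^ i * c i s := fun i s => rfl
  -- gradient bound
  have hgrad : ∃ C, 0 ≤ C ∧ ∀ s ∈ Icc 0 b, ∀ n, |c n s| * (μ ^ n) ^ 5 ≤ C := by
    set sset : Set (ℝ × V) := Ico 0 T' ×ˢ univ with hsset
    have hu : UniqueDiffOn ℝ sset := (uniqueDiffOn_Ico 0 T').prod uniqueDiffOn_univ
    have hGc : ContinuousOn (fderivWithin ℝ (fun z : ℝ × V => w z.1 z.2) sset) sset :=
      hw.smooth.continuousOn_fderivWithin hu (by simp)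
    have hK : IsCompact (Icc 0 b ×ˢ Metric.closedBall (0 : V) ‖x₀‖) :=
      isCompact_Icc.prod (isCompact_closedBall _ _)
    have hKs : Icc 0 b ×ˢ Metric.closedBall (0 : V) ‖x₀‖ ⊆ sset := by
      rintro ⟨s, y⟩ ⟨hs, _⟩
      exact ⟨⟨hs.1, hs.2.trans_lt hbT'⟩, mem_univ _⟩
    obtain ⟨C, hC⟩ := hK.exists_bound_of_continuousOn (hGc.mono hKs)
    have hC0 : 0 ≤ C := (norm_nonneg _).trans (hC (0, 0) ⟨⟨le_rfl, hb0⟩, by simp⟩)
    refine ⟨C, hC0, fun s hs n => ?_⟩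
    have hsT : s ∈ Ico 0 T' := ⟨hs.1, hs.2.trans_lt hbT'⟩
    have h1 := read_grad hμ hF hx0 hψ2 (hmem s hsT) n
    set y := xs μ x₀ n with hy
    have hym : (s, y) ∈ sset := ⟨hsT, mem_univ _⟩
    have h2 : HasFDerivWithinAt (fun z : ℝ × V => w z.1 z.2)
        (fderivWithin ℝ (fun z : ℝ × V => w z.1 z.2) sset (s, y)) sset (s, y) :=
      ((hw.smooth (s, y) hym).differentiableWithinAt (by simp)).hasFDerivWithinAt
    have h3 : HasFDerivWithinAt (fun y : V => (s, y)) (ContinuousLinearMap.inr ℝ ℝ V) univ y :=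
      (hasFDerivAt_prodMk_right s y).hasFDerivWithinAt
    have h4 := h2.comp (t := sset) y h3 (fun z _ => ⟨hsT, mem_univ _⟩)
    rw [hasFDerivWithinAt_univ] at h4
    have h5 : HasFDerivAt (fun y : V => w s y 2) ((ContinuousLinearMap.proj (R := ℝ)
        (φ := fun _ : Fin 3 => ℝ) 2).comp ((fderivWithin ℝ (fun z : ℝ × V => w z.1 z.2) sset
        (s, y)).comp (ContinuousLinearMap.inr ℝ ℝ V))) y :=
      (ContinuousLinearMap.proj (R := ℝ) (φ := fun _ : Fin 3 => ℝ) 2).hasFDerivAt.comp y h4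
    have h6 : |pd 2 (fun y => w s y 2) y| ≤ C := by
      unfold pd
      rw [h5.fderiv]
      simp only [ContinuousLinearMap.comp_apply, ContinuousLinearMap.proj_apply,
        ContinuousLinearMap.inr_apply]
      have h7 := hC (s, y) ⟨hs, by
        rw [mem_closedBall_zero_iff]
        exact xs_norm hμ x₀ n⟩
      rw [← Real.norm_eq_abs]
      refine (norm_le_pi_norm _ 2).trans ?_
      refine (ContinuousLinearMap.le_opNorm _ _).trans ?_
      have h8 : ‖((0 : ℝ), (Pi.single 2 1 : V))‖ ≤ 1 := by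
        rw [Prod.norm_def]
        refine max_le (by simp) ?_
        rw [pi_norm_le_iff_of_nonneg zero_le_one]
        intro i
        fin_cases i <;> simp
      calc _ ≤ C * 1 := mul_le_mul h7 h8 (norm_nonneg _) hC0
        _ = C := mul_one C
    rw [h1, abs_mul, abs_of_pos (by positivity : 0 < (μ ^ n) ^ 5 * 2)] at h6
    have h9 : 0 ≤ |c n s| * (μ ^ n) ^ 5 := by positivity
    linarith
  obtain ⟨C, hC0, hC⟩ := hgrad
  obtain ⟨M, hM⟩ := S.decay b hbTb 1 one_pos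
  have hM' : ∀ j, ∀ s ∈ Icc 0 b, |A j s| ≤ M := fun j s hs => by
    have := hM j s hs
    rwa [one_pow, mul_one] at this
  have hM0 : 0 ≤ M := (abs_nonneg _).trans (hM' 0 0 ⟨le_rfl, hb0⟩)
  have key := ode_unique (p := p) (A := A) (B := B) (b := b) (M := max M (κ * C))
    (le_max_of_le_left hM0) S.zero hB0 (fun j => (S.cont j).continuousOn)
    (by
      intro j
      cases j with
      | zero => exact continuousOn_const
      | succ i =>
        have h1 : ContinuousOn (c i) (Icc 0 b) :=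
          ((hcont _).mono (Icc_subset_Ico_right hbT')).div_const _
        exact continuousOn_const.mul h1)
    (fun i s hs => S.deriv i ⟨hs.1, hs.2.trans hbTb⟩)
    (fun i s hs => by
      have hs' : s ∈ Ioo 0 T' := ⟨hs.1, hs.2.trans hbT'⟩
      exact galerkin_ode hμ hF hβ1 hβ2 hfit hmem hs' (hcd s hs') (fun m => hw.gal s hs' m)
        B hB0 hBs i)
    (fun j s hs => (hM' j s hs).trans (le_max_left _ _))
    (by
      intro j s hs
      cases j with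
      | zero =>
        have h1 : B 0 s = 0 := hB0 s
        rw [h1, abs_zero]
        exact le_max_of_le_left hM0
      | succ i =>
        refine le_trans ?_ (le_max_right _ _)
        rw [hBs, abs_mul, abs_of_pos (by positivity : 0 < κ * (μ ^ 5) ^ i)]
        have h1 := mul_le_mul_of_nonneg_left (hC s hs i) hκ.le
        have e : κ * (μ ^ 5) ^ i * |c i s| = κ * (|c i s| * (μ ^ i) ^ 5) := by ring
        rw [e]
        exact h1)
    (by
      intro j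
      cases j with
      | zero =>
        have h1 : B 0 0 = 0 := hB0 0
        rw [S.zero, h1]
      | succ i =>
        rw [hBs, hc]
        simp only
        rw [h0, read_coef hμ hF hx0 hψ1 (vel_mem S hμ hF (κ := κ) ⟨le_rfl, S.Tpos⟩) i]
        unfold coef
        rw [inv_pow]
        field_simp)
  have hcoef : ∀ n, c n t = coef μ κ A n t := by
    intro n
    have h1 := key (n + 1) t ⟨ht.1, hb1.le⟩
    unfold coef
    rw [h1, hBs, inv_pow]
    field_simp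
  have h1 := hmem t ht x
  have h2 := vel_mem S hμ hF (κ := κ) ⟨ht.1, htb⟩ x
  simp_rw [hcoef] at h1
  exact h1.unique h2

/-- Any other Galerkin solution with the same datum lives at most until `Tb`. -/
theorem max_time {p : Par} {Tb : ℝ} {A : ℕ → ℝ → ℝ} (S : Sol p Tb A) {μ κ ε β ν : ℝ}
    (hμ : 2 ≤ μ) {ψ : V → V} (hF : Fld μ ε ψ) (hβ1 : tri (dil μ ψ) ψ (dil μ ψ) = -β)
    (hβ2 : tri ψ ψ (dil μ ψ) = -(ε * β)) (hfit : Fit μ ε β ν ψ p κ)
    {T' : ℝ} {w : ℝ → V → V} (hw : IsGal μ ψ ν T' w) (h0 : ∀ x, w 0 x = vel μ κ ψ A 0 x) :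
    T' ≤ Tb := by
  by_contra hcon
  push Not at hcon
  obtain ⟨x₀, hx0, hψ1, hψ2⟩ := hF.pt
  have hK : IsCompact (Icc 0 Tb ×ˢ Metric.closedBall (0 : V) ‖x₀‖) :=
    isCompact_Icc.prod (isCompact_closedBall _ _)
  have hKs : Icc 0 Tb ×ˢ Metric.closedBall (0 : V) ‖x₀‖ ⊆ Ico 0 T' ×ˢ univ := by
    rintro ⟨s, y⟩ ⟨hs, _⟩
    exact ⟨⟨hs.1, hs.2.trans_lt hcon⟩, mem_univ _⟩
  obtain ⟨C, hC⟩ := hK.exists_bound_of_continuousOn (hw.smooth.continuousOn.mono hKs)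
  obtain ⟨t, ht, x, hx, hM⟩ := vel_blow S hμ hF hfit hx0 hψ1 (b := 0) S.Tpos le_rfl C
  have h1 := hC (t, x) ⟨⟨ht.1.le, ht.2.le⟩, by
    rw [mem_closedBall_zero_iff]
    exact hx⟩
  have h2 := field_unique S hμ hF hβ1 hβ2 hfit hw h0 ⟨ht.1.le, ht.2.trans hcon⟩ ht.2 x
  simp only at h1
  rw [h2] at h1
  linarith

end Pool.Agent.Run7.h407
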