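import Mathlib
import Pool.Agent.Run7.h407.Red

/-!
Smooth time-dependent fields supported in a fixed ball: derivative of the energy.
-/

namespace Pool.Agent.Run7.h407

open Set Filter Topology MeasureTheory
open scoped ContDiff

/-- Smooth time-dependent fields on `[0,T)` supported in a fixed ball. -/
structure TF (T R : ℝ) (w : ℝ → V → V) : Prop where
  sm : ContDiffOn ℝ ∞ (fun z : ℝ × V => w z.1 z.2) (Ico 0 T ×ˢ univ)
  sp : ∀ t ∈ Ico 0 T, ∀ x : V, R < ‖x‖ → w t x = 0

/-- The full derivative. -/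
noncomputable def FD (T : ℝ) (w : ℝ → V → V) (z : ℝ × V) : ℝ × V →L[ℝ] V :=
  fderivWithin ℝ (fun z : ℝ × V => w z.1 z.2) (Ico 0 T ×ˢ univ) z

namespace TF

variable {T R : ℝ} {w : ℝ → V → V}

theorem FD_cont (h : TF T R w) : ContinuousOn (FD T w) (Ico 0 T ×ˢ univ) :=
  h.sm.continuousOn_fderivWithin ((uniqueDiffOn_Ico 0 T).prod uniqueDiffOn_univ) (by simp)

theorem FD_has (h : TF T R w) {z : ℝ × V} (hz : z ∈ Ico 0 T ×ˢ (univ : Set V)) :
    HasFDerivWithinAt (fun z : ℝ × V => w z.1 z.2) (FD T w z) (Ico 0 T ×ˢ univ) z :=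
  ((h.sm z hz).differentiableWithinAt (by simp)).hasFDerivWithinAt

theorem slice_cont (h : TF T R w) {t : ℝ} (ht : t ∈ Ico 0 T) : ContDiff ℝ ∞ (w t) := by
  rw [← contDiffOn_univ]
  have h1 : ContDiffOn ℝ ∞ (fun x : V => (t, x)) univ :=
    (contDiff_const.prodMk contDiff_id).contDiffOn
  exact h.sm.comp h1 (fun x _ => ⟨ht, mem_univ _⟩)

theorem slice_CF (h : TF T R w) {t : ℝ} (ht : t ∈ Ico 0 T) : CF (w t) := by
  refine ⟨h.slice_cont ht, ?_⟩
  apply HasCompactSupport.intro (isCompact_closedBall (0 : V) R)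
  intro x hx
  apply h.sp t ht x
  rw [mem_closedBall_zero_iff, not_le] at hx
  exact hx

theorem space_deriv (h : TF T R w) {t : ℝ} (ht : t ∈ Ico 0 T) (x : V) (i j : Fin 3) :
    pd j (fun y => w t y i) x = FD T w (t, x) (0, Pi.single j 1) i := by
  have hym : (t, x) ∈ Ico 0 T ×ˢ (univ : Set V) := ⟨ht, mem_univ _⟩
  have h2 := h.FD_has hym
  have h3 : HasFDerivWithinAt (fun y : V => (t, y)) (ContinuousLinearMap.inr ℝ ℝ V) univ x :=
    (hasFDerivAt_prodMk_right t x).hasFDerivWithinAt
  have h4 := h2.comp (t := Ico 0 T ×ˢ (univ : Set V)) x h3 (fun z _ => ⟨ht, mem_univ _⟩)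
  rw [hasFDerivWithinAt_univ] at h4
  have h5 : HasFDerivAt (fun y : V => w t y i) ((ContinuousLinearMap.proj (R := ℝ)
      (φ := fun _ : Fin 3 => ℝ) i).comp ((FD T w (t, x)).comp (ContinuousLinearMap.inr ℝ ℝ V))) x :=
    (ContinuousLinearMap.proj (R := ℝ) (φ := fun _ : Fin 3 => ℝ) i).hasFDerivAt.comp x h4
  unfold pd
  rw [h5.fderiv]
  simp only [ContinuousLinearMap.comp_apply, ContinuousLinearMap.proj_apply,
    ContinuousLinearMap.inr_apply]

theorem time_deriv (h : TF T R w) {t : ℝ} (ht : t ∈ Ioo 0 T) (x : V) (i : Fin 3) :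
    HasDerivAt (fun s => w s x i) (FD T w (t, x) (1, 0) i) t := by
  have hn : Ico 0 T ×ˢ (univ : Set V) ∈ 𝓝 (t, x) :=
    prod_mem_nhds (Ico_mem_nhds ht.1 ht.2) univ_mem
  have h1 : HasFDerivAt (fun z : ℝ × V => w z.1 z.2) (FD T w (t, x)) (t, x) :=
    (h.FD_has ⟨⟨ht.1.le, ht.2⟩, mem_univ _⟩).hasFDerivAt hn
  have h2 : HasDerivAt (fun s : ℝ => (s, x)) ((1 : ℝ), (0 : V)) t :=
    (hasDerivAt_id t).prodMk (hasDerivAt_const t x)
  have h3 := h1.comp_hasDerivAt t h2
  exact (hasDerivAt_pi.1 h3) i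

theorem coord_cont (h : TF T R w) (i : Fin 3) :
    ContinuousOn (fun z : ℝ × V => w z.1 z.2 i) (Ico 0 T ×ˢ univ) :=
  (continuous_apply i).comp_continuousOn h.sm.continuousOn

theorem FDv_cont (h : TF T R w) (v : ℝ × V) (i : Fin 3) :
    ContinuousOn (fun z : ℝ × V => FD T w z v i) (Ico 0 T ×ˢ univ) :=
  (continuous_apply i).comp_continuousOn (h.FD_cont.clm_apply continuousOn_const)

theorem energy_cont (h : TF T R w) : ContinuousOn (fun s => ip (w s) (w s)) (Ico 0 T) := by
  unfold ip
  apply continuousOn_integral_of_compact_support (isCompact_closedBall (0 : V) R)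
  · show ContinuousOn (fun z : ℝ × V => ∑ i, w z.1 z.2 i * w z.1 z.2 i) _
    apply continuousOn_finsetSum
    intro i _
    exact (h.coord_cont i).mul (h.coord_cont i)
  · intro s x hs hx
    have h1 : w s x = 0 := by
      apply h.sp s hs x
      rw [mem_closedBall_zero_iff, not_le] at hx
      exact hx
    rw [h1]
    simp

theorem dir_cont (h : TF T R w) : ContinuousOn (fun s => Dir (w s) (w s)) (Ico 0 T) := by
  unfold Dir
  apply continuousOn_integral_of_compact_support (isCompact_closedBall (0 : V) R)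
  · show ContinuousOn (fun z : ℝ × V => ∑ i, ∑ j, pd j (fun y => w z.1 y i) z.2
      * pd j (fun y => w z.1 y i) z.2) _
    apply continuousOn_finsetSum
    intro i _
    apply continuousOn_finsetSum
    intro j _
    have h1 : ContinuousOn (fun z : ℝ × V => pd j (fun y => w z.1 y i) z.2)
        (Ico 0 T ×ˢ univ) := by
      apply (h.FDv_cont (0, Pi.single j 1) i).congr
      intro z hz
      exact h.space_deriv hz.1 z.2 i j
    exact h1.mul h1
  · intro s x hs hx
    have h0 : x ∉ tsupport (fun y => w s y) := by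
      intro hcon
      have h2 : tsupport (fun y => w s y) ⊆ Metric.closedBall (0 : V) R := by
        apply closure_minimal _ Metric.isClosed_closedBall
        intro y hy
        by_contra hyc
        apply hy
        apply h.sp s hs y
        rw [mem_closedBall_zero_iff, not_le] at hyc
        exact hyc
      exact hx (h2 hcon)
    have h1 : ∀ i j, pd j (fun y => w s y i) x = 0 := by
      intro i j
      apply pd_eq_zero
      intro hcon
      apply h0
      have h3 : tsupport (fun y => w s y i) ⊆ tsupport (fun y => w s y) := by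
        apply closure_mono
        intro y hy hy0
        apply hy
        show w s y i = 0
        have : w s y = 0 := hy0
        rw [this]
        rfl
      exact h3 hcon
    simp_rw [h1]
    simp

theorem energy_deriv (h : TF T R w) {t : ℝ} (ht : t ∈ Ioo 0 T) :
    HasDerivAt (fun s => ip (w s) (w s))
      (∫ x, ∑ i, (FD T w (t, x) (1, 0) i * w t x i + w t x i * FD T w (t, x) (1, 0) i)) t := by
  obtain ⟨a, ha0, hat⟩ := exists_between ht.1
  obtain ⟨b, htb, hbT⟩ := exists_between ht.2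
  have hsub : Icc a b ×ˢ Metric.closedBall (0 : V) R ⊆ Ico 0 T ×ˢ (univ : Set V) := by
    rintro ⟨s, x⟩ ⟨hs, _⟩
    exact ⟨⟨ha0.le.trans hs.1, hs.2.trans_lt hbT⟩, mem_univ _⟩
  have hG : ContinuousOn (fun z : ℝ × V => ∑ i, (FD T w z (1, 0) i * w z.1 z.2 i
      + w z.1 z.2 i * FD T w z (1, 0) i)) (Ico 0 T ×ˢ univ) := by
    apply continuousOn_finsetSum
    intro i _
    exact ((h.FDv_cont (1, 0) i).mul (h.coord_cont i)).add
      ((h.coord_cont i).mul (h.FDv_cont (1, 0) i))
  obtain ⟨C, hC⟩ := (isCompact_Icc.prod (isCompact_closedBall (0 : V) R)).exists_bound_of_continuousOn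
    (hG.mono hsub)
  have hsl : ∀ s ∈ Ico 0 T, Continuous (fun x : V => ∑ i, (FD T w (s, x) (1, 0) i * w s x i
      + w s x i * FD T w (s, x) (1, 0) i)) := by
    intro s hs
    rw [← continuousOn_univ]
    exact hG.comp (f := fun x : V => (s, x)) (by fun_prop) (fun x _ => ⟨hs, mem_univ _⟩)
  have key := hasDerivAt_integral_of_dominated_loc_of_deriv_le (μ := (volume : Measure V))
    (F := fun s x => ∑ i, w s x i * w s x i)
    (F' := fun s x => ∑ i, (FD T w (s, x) (1, 0) i * w s x i + w s x i * FD T w (s, x) (1, 0) i))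
    (x₀ := t) (s := Icc a b) (bound := (Metric.closedBall (0 : V) R).indicator fun _ => C)
    (Icc_mem_nhds hat htb) ?_ ?_ ?_ ?_ ?_ ?_
  · exact key.2
  · filter_upwards [Ioo_mem_nhds ht.1 ht.2] with s hs
    exact (ip_int (h.slice_cont ⟨hs.1.le, hs.2⟩).continuous
      (h.slice_CF ⟨hs.1.le, hs.2⟩)).aestronglyMeasurable
  · exact ip_int (h.slice_cont ⟨ht.1.le, ht.2⟩).continuous (h.slice_CF ⟨ht.1.le, ht.2⟩)
  · exact (hsl t ⟨ht.1.le, ht.2⟩).aestronglyMeasurable
  · apply Eventually.of_forall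
    intro x s hs
    by_cases hx : x ∈ Metric.closedBall (0 : V) R
    · rw [indicator_of_mem hx]
      exact hC (s, x) ⟨hs, hx⟩
    · rw [indicator_of_notMem hx]
      have h1 : w s x = 0 := by
        apply h.sp s ⟨ha0.le.trans hs.1, hs.2.trans_lt hbT⟩ x
        rw [mem_closedBall_zero_iff, not_le] at hx
        exact hx
      rw [h1]
      simp
  · rw [integrable_indicator_iff measurableSet_closedBall]
    exact integrableOn_const (isCompact_closedBall (0 : V) R).measure_ne_top
  · apply Eventually.of_forall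
    intro x s hs
    apply HasDerivAt.fun_sum
    intro i _
    have h1 := h.time_deriv (t := s) ⟨ha0.trans_le hs.1, hs.2.trans_lt hbT⟩ x i
    exact h1.mul h1

end TF

end Pool.Agent.Run7.h407
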