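import Mathlib
import Pool.Agent.Run7.h407.Main
import Pool.Agent.Run7.h407.TimeField

/-!
Support, divergence and energy balance of the velocity field.
-/

namespace Pool.Agent.Run7.h407

open Set Filter Topology MeasureTheory
open scoped ContDiff

variable {μ ε : ℝ} {ψ : V → V}

theorem fld_radius (hF : Fld μ ε ψ) : ∃ R, 0 < R ∧ ∀ x, ψ x ≠ 0 → ‖x‖ ≤ R := by
  obtain ⟨R, hR⟩ := hF.cf.cs.isCompact.isBounded.subset_closedBall 0
  refine ⟨max R 1, lt_max_of_lt_right one_pos, fun x hx => ?_⟩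
  have := hR (subset_tsupport ψ hx)
  rw [mem_closedBall_zero_iff] at this
  exact this.trans (le_max_left _ _)

theorem ph_radius (hμ : 2 ≤ μ) {R : ℝ} (hR : ∀ x, ψ x ≠ 0 → ‖x‖ ≤ R) {n : ℕ} {x : V}
    (hx : ph μ ψ n x ≠ 0) : μ ^ (2 * n) * ‖x‖ ≤ R := by
  have h1 : ψ ((μ ^ n) ^ 2 • x) ≠ 0 := by
    intro h0
    apply hx
    unfold ph dil
    rw [h0, smul_zero]
  have h2 := hR _ h1
  rw [norm_smul, Real.norm_eq_abs, abs_of_nonneg (by positivity)] at h2
  have e : μ ^ (2 * n) = (μ ^ n) ^ 2 := by ring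
  rw [e]
  exact h2

theorem mem_support (hμ : 2 ≤ μ) {R : ℝ} (hR : ∀ x, ψ x ≠ 0 → ‖x‖ ≤ R) {c : ℕ → ℝ} {v : V → V}
    (hm : Mem μ ψ c v) {x : V} (hx : R < ‖x‖) : v x = 0 := by
  have h1 : ∀ n, c n • ph μ ψ n x = 0 := by
    intro n
    by_cases h : ph μ ψ n x = 0
    · rw [h, smul_zero]
    · exfalso
      have h2 := ph_radius hμ hR h
      have h3 : (1 : ℝ) ≤ μ ^ (2 * n) := one_le_pow₀ (by linarith)
      have h4 := norm_nonneg x
      nlinarith
  have h2 := hm x
  simp_rw [h1] at h2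
  exact h2.unique hasSum_zero

theorem dvg_add' {u v : V → V} (hu : CF u) (hv : CF v) (x : V) :
    dvg (fun y => u y + v y) x = dvg u x + dvg v x := by
  unfold dvg
  rw [← Finset.sum_add_distrib]
  congr 1
  funext i
  exact pd_add ((hu.smc i).diff x) ((hv.smc i).diff x) i

theorem dvg_smul (c : ℝ) {u : V → V} (hu : CF u) (x : V) :
    dvg (fun y => c • u y) x = c * dvg u x := by
  unfold dvg
  rw [Finset.mul_sum]
  congr 1
  funext i
  exact pd_const_mul c ((hu.smc i).diff x) i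

theorem dvg_congr {u v : V → V} {x : V} (h : ∀ᶠ y in 𝓝 x, u y = v y) : dvg u x = dvg v x := by
  unfold dvg
  congr 1
  funext i
  apply pd_congr
  filter_upwards [h] with y hy
  rw [hy]

theorem mem_local (hF : Fld μ ε ψ) (hμ : 2 ≤ μ) {c : ℕ → ℝ} {v : V → V} (hm : Mem μ ψ c v)
    {x : V} (hx : x 0 ≠ 0) : dvg v x = 0 := by
  have hμ0 : 0 < μ := by linarith
  have hμ2 : (4 : ℝ) ≤ μ ^ 2 := by nlinarith
  have hzero : (∀ᶠ y : V in 𝓝 x, ∀ n, ph μ ψ n y = 0) → dvg v x = 0 := by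
    intro h
    have h1 : ∀ᶠ y in 𝓝 x, v y = (fun _ => (0 : V)) y := by
      filter_upwards [h] with y hy
      have h2 := hm y
      simp_rw [hy, smul_zero] at h2
      exact h2.unique hasSum_zero
    rw [dvg_congr h1]
    unfold dvg
    simp [pd_const]
  rcases lt_or_gt_of_ne hx with hneg | hpos
  · apply hzero
    filter_upwards [nhds_lt hneg] with y hy n
    by_contra hcon
    have h1 := (ph_ne hF hcon).1
    have h2 : 0 < μ ^ (2 * n) := by positivity
    nlinarith
  · rcases lt_or_ge (x 0) (2 * μ ^ 2) with hlt | hge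
    · -- the local representation
      have hex : ∃ m : ℕ, 2 / μ ^ 2 < μ ^ (2 * m) * x 0 := by
        have h1 : Tendsto (fun m : ℕ => (μ ^ 2) ^ m * x 0) atTop atTop :=
          (tendsto_pow_atTop_atTop_of_one_lt (by linarith)).atTop_mul_const hpos
        obtain ⟨m, hm⟩ := (h1.eventually_gt_atTop (2 / μ ^ 2)).exists
        refine ⟨m, ?_⟩
        have e : μ ^ (2 * m) = (μ ^ 2) ^ m := by ring
        rw [e]
        exact hm
      classical
      set m := Nat.find hex with hmdef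
      have hm1 : 2 / μ ^ 2 < μ ^ (2 * m) * x 0 := Nat.find_spec hex
      have hm2 : μ ^ (2 * m) * x 0 < 2 * μ ^ 2 := by
        rcases Nat.eq_zero_or_pos m with h0 | h0
        · rw [h0]
          simpa using hlt
        · obtain ⟨k, hk⟩ : ∃ k, m = k + 1 := ⟨m - 1, by omega⟩
          have h1 : ¬ 2 / μ ^ 2 < μ ^ (2 * k) * x 0 := Nat.find_min hex (by omega)
          rw [not_lt, le_div_iff₀ (by positivity)] at h1
          have e : μ ^ (2 * m) * x 0 = μ ^ (2 * k) * x 0 * μ ^ 2 := by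
            rw [hk]
            ring
          rw [e]
          linarith
      have e1 : (μ ^ m / μ) ^ 2 * x 0 = μ ^ (2 * m) * x 0 / μ ^ 2 := by
        field_simp
        ring
      have h1 : 2 / μ ^ 4 < (μ ^ m / μ) ^ 2 * x 0 := by
        rw [e1, lt_div_iff₀ (by positivity)]
        have : 2 / μ ^ 4 * μ ^ 2 = 2 / μ ^ 2 := by
          field_simp
        rw [this]
        exact hm1
      have h2 : (μ ^ m / μ) ^ 2 * x 0 < 2 := by
        rw [e1, div_lt_iff₀ (by positivity)]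
        exact hm2
      have hnear : ∀ᶠ y in 𝓝 x, 2 / μ ^ 4 < (μ ^ m / μ) ^ 2 * y 0 ∧ (μ ^ m / μ) ^ 2 * y 0 < 2 := by
        have hcont : Continuous (fun y : V => (μ ^ m / μ) ^ 2 * y 0) :=
          continuous_const.mul (continuous_apply 0)
        exact (hcont.tendsto x).eventually (Ioo_mem_nhds h1 h2)
      have h3 : ∀ᶠ y in 𝓝 x, v y = (shf c m • dil (μ ^ m / μ) ψ y
          + shf c (m + 1) • dil (μ ^ m / μ * μ) ψ y)
          + shf c (m + 2) • dil (μ ^ m / μ * μ ^ 2) ψ y := by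
        filter_upwards [hnear] with y hy
        rw [rep_three hF hμ hm m hy.1 hy.2, dil_dil, dil_dil]
      have c0 : CF (dil (μ ^ m / μ) ψ) := dil_CF hF.cf (by positivity)
      have c1 : CF (dil (μ ^ m / μ * μ) ψ) := dil_CF hF.cf (by positivity)
      have c2 : CF (dil (μ ^ m / μ * μ ^ 2) ψ) := dil_CF hF.cf (by positivity)
      rw [dvg_congr h3, dvg_add' ((c0.smul _).add (c1.smul _)) (c2.smul _),
        dvg_add' (c0.smul _) (c1.smul _), dvg_smul _ c0, dvg_smul _ c1, dvg_smul _ c2,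
        dvg_dil_zero hF, dvg_dil_zero hF, dvg_dil_zero hF]
      ring
    · apply hzero
      have hgt : μ ^ 2 + 1 / 4 < x 0 := by linarith
      filter_upwards [nhds_gt hgt] with y hy n
      by_contra hcon
      have h1 := (ph_ne hF hcon).2
      have h2 : (1 : ℝ) ≤ μ ^ (2 * n) := one_le_pow₀ (by linarith)
      nlinarith

theorem mem_dvg (hF : Fld μ ε ψ) (hμ : 2 ≤ μ) {c : ℕ → ℝ} {v : V → V} (hm : Mem μ ψ c v)
    (hv : ContDiff ℝ ∞ v) (x : V) : dvg v x = 0 := by
  by_cases hx : x 0 = 0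
  · have hc : Continuous (dvg v) := by
      unfold dvg
      apply continuous_finsetSum
      intro i _
      exact ((sm_comp hv i).pd i).continuous
    have hl : Continuous (fun t : ℝ => x + t • (Pi.single 0 1 : V)) := by fun_prop
    have h1 : Tendsto (fun t : ℝ => dvg v (x + t • (Pi.single 0 1 : V))) (𝓝[≠] 0)
        (𝓝 (dvg v (x + (0 : ℝ) • (Pi.single 0 1 : V)))) :=
      ((hc.comp hl).tendsto 0).mono_left nhdsWithin_le_nhds
    have h2 : Tendsto (fun t : ℝ => dvg v (x + t • (Pi.single 0 1 : V))) (𝓝[≠] 0) (𝓝 0) := by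
      apply tendsto_const_nhds.congr'
      filter_upwards [self_mem_nhdsWithin] with t ht
      symm
      apply mem_local hF hμ hm
      simp only [Pi.add_apply, Pi.smul_apply, Pi.single_eq_same, smul_eq_mul, mul_one]
      rw [hx, zero_add]
      exact ht
    have h3 := tendsto_nhds_unique h1 h2
    simpa using h3
  · exact mem_local hF hμ hm hx

theorem ph_CF (hF : Fld μ ε ψ) (hμ : 2 ≤ μ) (n : ℕ) : CF (ph μ ψ n) :=
  dil_CF hF.cf (pow_ne_zero _ (by linarith))

theorem ph_L1 (ψ : V → V) (hμ : 2 ≤ μ) (n : ℕ) :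
    ∫ x, ‖ph μ ψ n x‖ ≤ ∫ x, ‖ψ x‖ := by
  have hμ0 : 0 < μ := by linarith
  have hs : 0 < μ ^ n := by positivity
  have h1 : (fun x => ‖ph μ ψ n x‖) = fun x => (fun y => (μ ^ n) ^ 3 * ‖ψ y‖) ((μ ^ n) ^ 2 • x) := by
    funext x
    unfold ph dil
    rw [norm_smul, Real.norm_eq_abs, abs_of_pos (by positivity)]
  rw [h1, integral_scale (fun y => (μ ^ n) ^ 3 * ‖ψ y‖) hs, integral_const_mul]
  have h2 : 0 ≤ ∫ x, ‖ψ x‖ := integral_nonneg fun x => norm_nonneg _
  have h3 : ((μ ^ n) ^ 6)⁻¹ * ((μ ^ n) ^ 3 * ∫ x, ‖ψ x‖) = ((μ ^ n) ^ 3)⁻¹ * ∫ x, ‖ψ x‖ := by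
    field_simp
  rw [h3]
  have h4 : ((μ ^ n) ^ 3)⁻¹ ≤ 1 := inv_le_one_of_one_le₀ (one_le_pow₀ (one_le_pow₀ (by linarith)))
  nlinarith

/-- Exchange of the integral with the series. -/
theorem exchange (hF : Fld μ ε ψ) (hμ : 2 ≤ μ) {c : ℕ → ℝ} {v : V → V} (hm : Mem μ ψ c v)
    (hc : Summable fun n => |c n|) {f : V → V} (hf : Continuous f) :
    HasSum (fun n => c n * ∫ x, ∑ i, f x i * ph μ ψ n x i) (∫ x, ∑ i, f x i * v x i) := by
  obtain ⟨R, hR0, hR⟩ := fld_radius hF
  obtain ⟨C, hC⟩ := (isCompact_closedBall (0 : V) R).exists_bound_of_continuousOn hf.continuousOn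
  have hC0 : 0 ≤ C := (norm_nonneg _).trans (hC 0 (by
    rw [mem_closedBall_zero_iff, norm_zero]
    exact hR0.le))
  have hpt : ∀ n x, ‖c n * ∑ i, f x i * ph μ ψ n x i‖ ≤ |c n| * (3 * C) * ‖ph μ ψ n x‖ := by
    intro n x
    rw [norm_mul, Real.norm_eq_abs, mul_assoc]
    apply mul_le_mul_of_nonneg_left _ (abs_nonneg _)
    by_cases h : ph μ ψ n x = 0
    · rw [h]
      simp
    · have h1 := ph_radius hμ hR h
      have h2 : (1 : ℝ) ≤ μ ^ (2 * n) := one_le_pow₀ (by linarith)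
      have h3 : ‖x‖ ≤ R := by
        have := norm_nonneg x
        nlinarith
      have h4 := hC x (by rw [mem_closedBall_zero_iff]; exact h3)
      calc ‖∑ i, f x i * ph μ ψ n x i‖ ≤ ∑ i : Fin 3, ‖f x i * ph μ ψ n x i‖ := norm_sum_le _ _
        _ ≤ ∑ i : Fin 3, C * ‖ph μ ψ n x‖ := by
            apply Finset.sum_le_sum
            intro i _
            rw [norm_mul]
            exact mul_le_mul ((norm_le_pi_norm _ i).trans h4) (norm_le_pi_norm _ i)
              (norm_nonneg _) hC0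
        _ = 3 * C * ‖ph μ ψ n x‖ := by
            rw [Finset.sum_const, Finset.card_univ, Fintype.card_fin]
            simp
            ring
  have hint : ∀ n, Integrable (fun x => c n * ∑ i, f x i * ph μ ψ n x i) volume := fun n =>
    (ip_int hf (ph_CF hF hμ n)).const_mul _
  have hnint : ∀ n, Integrable (fun x => ‖ph μ ψ n x‖) volume := fun n =>
    ((ph_CF hF hμ n).sm.continuous.integrable_of_hasCompactSupport (ph_CF hF hμ n).cs).norm
  have hsum : Summable fun n => ∫ x, ‖c n * ∑ i, f x i * ph μ ψ n x i‖ := by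
    apply Summable.of_nonneg_of_le (fun n => integral_nonneg fun x => norm_nonneg _)
      (f := fun n => |c n| * (3 * C * ∫ x, ‖ψ x‖)) _ (hc.mul_right _)
    intro n
    calc ∫ x, ‖c n * ∑ i, f x i * ph μ ψ n x i‖
        ≤ ∫ x, |c n| * (3 * C) * ‖ph μ ψ n x‖ :=
          integral_mono (hint n).norm ((hnint n).const_mul _) (hpt n)
      _ = |c n| * (3 * C) * ∫ x, ‖ph μ ψ n x‖ := integral_const_mul _ _
      _ ≤ |c n| * (3 * C) * ∫ x, ‖ψ x‖ :=
          mul_le_mul_of_nonneg_left (ph_L1 ψ hμ n) (by positivity)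
      _ = _ := by ring
  have key := hasSum_integral_of_summable_integral_norm hint hsum
  have e1 : (fun n => c n * ∫ x, ∑ i, f x i * ph μ ψ n x i)
      = fun n => ∫ x, c n * ∑ i, f x i * ph μ ψ n x i := by
    funext n
    rw [integral_const_mul]
  have e2 : (∫ x, ∑ i, f x i * v x i) = ∫ x, ∑' n, c n * ∑ i, f x i * ph μ ψ n x i := by
    congr 1
    funext x
    have h1 : ∀ i, HasSum (fun n => c n * ph μ ψ n x i) (v x i) := by
      intro i
      have := Pi.hasSum.1 (hm x) i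
      exact this
    have h2 : HasSum (fun n => ∑ i, f x i * (c n * ph μ ψ n x i)) (∑ i, f x i * v x i) :=
      hasSum_sum fun i _ => (h1 i).mul_left _
    rw [← h2.tsum_eq]
    congr 1
    funext n
    rw [Finset.mul_sum]
    congr 1
    funext i
    ring
  rw [e1, e2]
  exact key

end Pool.Agent.Run7.h407
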