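import Mathlib
import Pool.Agent.Run7.h407.Energy

/-!
The energy equality, the growth of the cubic norm and the pointwise bound.
-/

namespace Pool.Agent.Run7.h407

open Set Filter Topology MeasureTheory
open scoped ContDiff

theorem coef_bound {p : Par} {Tb : ℝ} {A : ℕ → ℝ → ℝ} (S : Sol p Tb A) {μ κ : ℝ}
    (hμ : 2 ≤ μ) {t : ℝ} (ht : t ∈ Ico 0 Tb) :
    ∃ C, 0 ≤ C ∧ ∀ n, |coef μ κ A n t| ≤ C * (1 / 2) ^ n := by
  have hμ0 : 0 < μ := by linarith
  obtain ⟨C, hC⟩ := S.decay t ht.2 1 one_pos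
  have hC' : ∀ j, |A j t| ≤ C := fun j => by
    have := hC j t ⟨ht.1, le_rfl⟩
    rwa [one_pow, mul_one] at this
  have hC0 : 0 ≤ C := (abs_nonneg _).trans (hC' 0)
  have h5 : (32 : ℝ) ≤ μ ^ 5 := by
    calc (32 : ℝ) = 2 ^ 5 := by norm_num
      _ ≤ μ ^ 5 := pow_le_pow_left₀ (by norm_num) hμ 5
  have hr : (μ ^ 5)⁻¹ ≤ 1 / 2 := by
    rw [inv_le_comm₀ (by positivity) (by norm_num)]
    linarith
  have hr0 : 0 < (μ ^ 5)⁻¹ := by positivity
  refine ⟨|1 / κ| * C, by positivity, fun n => ?_⟩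
  unfold coef
  rw [abs_mul, abs_mul, abs_of_pos (by positivity : 0 < ((μ ^ 5)⁻¹) ^ n)]
  have h2 : ((μ ^ 5)⁻¹) ^ n ≤ (1 / 2) ^ n := pow_le_pow_left₀ hr0.le hr n
  have h3 : |1 / κ| * ((μ ^ 5)⁻¹) ^ n ≤ |1 / κ| * (1 / 2) ^ n :=
    mul_le_mul_of_nonneg_left h2 (abs_nonneg _)
  have h4 : |1 / κ| * ((μ ^ 5)⁻¹) ^ n * |A (n + 1) t| ≤ |1 / κ| * (1 / 2) ^ n * C :=
    mul_le_mul h3 (hC' _) (abs_nonneg _) (by positivity)
  linarith

theorem coef_abs_summable {p : Par} {Tb : ℝ} {A : ℕ → ℝ → ℝ} (S : Sol p Tb A) {μ κ : ℝ}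
    (hμ : 2 ≤ μ) {t : ℝ} (ht : t ∈ Ico 0 Tb) : Summable (fun n => |coef μ κ A n t|) := by
  obtain ⟨C, hC0, hC⟩ := coef_bound (κ := κ) S hμ ht
  exact Summable.of_nonneg_of_le (fun n => abs_nonneg _) hC
    ((summable_geometric_of_lt_one (by norm_num) (by norm_num)).mul_left C)

theorem vel_TF {p : Par} {Tb : ℝ} {A : ℕ → ℝ → ℝ} (S : Sol p Tb A) {μ κ ε : ℝ}
    (hμ : 2 ≤ μ) {ψ : V → V} (hF : Fld μ ε ψ) {R : ℝ} (hR : ∀ x, ψ x ≠ 0 → ‖x‖ ≤ R) :
    TF Tb R (vel μ κ ψ A) :=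
  ⟨vel_smooth S hμ hF, fun _ ht _ hx => mem_support hμ hR (vel_mem S hμ hF ht) hx⟩

theorem TF.resid_cont {T R : ℝ} {w : ℝ → V → V} (h : TF T R w) (ν : ℝ) {t : ℝ}
    (ht : t ∈ Ioo 0 T) : Continuous (fun x : V => (fun i => residual ν w t x i : V)) := by
  apply continuous_pi
  intro i
  have ht' : t ∈ Ico 0 T := ⟨ht.1.le, ht.2⟩
  have hs := h.slice_CF ht'
  unfold residual
  apply Continuous.sub
  · apply Continuous.add
    · have h1 : (fun x : V => deriv (fun s => w s x i) t) = fun x => FD T w (t, x) (1, 0) i := by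
        funext x
        exact (h.time_deriv ht x i).deriv
      rw [h1, ← continuousOn_univ]
      exact (h.FDv_cont (1, 0) i).comp (f := fun x : V => (t, x)) (by fun_prop)
        (fun x _ => ⟨ht', mem_univ _⟩)
    · apply continuous_finsetSum
      intro j _
      exact (hs.smc j).continuous.mul ((hs.smc i).pd j).continuous
  · apply continuous_const.mul
    apply continuous_finsetSum
    intro j _
    exact (((hs.smc i).pd j).pd j).continuous

/-- The energy balance at a positive time. -/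
theorem vel_energy_deriv {p : Par} {Tb : ℝ} {A : ℕ → ℝ → ℝ} (S : Sol p Tb A) {μ κ ε β ν : ℝ}
    (hμ : 2 ≤ μ) {ψ : V → V} (hF : Fld μ ε ψ) (hβ1 : tri (dil μ ψ) ψ (dil μ ψ) = -β)
    (hβ2 : tri ψ ψ (dil μ ψ) = -(ε * β)) (hfit : Fit μ ε β ν ψ p κ) {t : ℝ}
    (ht : t ∈ Ioo 0 Tb) :
    HasDerivAt (fun s => ip (vel μ κ ψ A s) (vel μ κ ψ A s))
      (-(2 * ν * Dir (vel μ κ ψ A t) (vel μ κ ψ A t))) t := by
  obtain ⟨R, _, hR⟩ := fld_radius hF
  have hT := vel_TF (κ := κ) S hμ hF hR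
  have ht' : t ∈ Ico 0 Tb := ⟨ht.1.le, ht.2⟩
  set u := vel μ κ ψ A with hu
  have hC : CF (u t) := hT.slice_CF ht'
  have hm : Mem μ ψ (fun n => coef μ κ A n t) (u t) := vel_mem S hμ hF ht'
  have hd : ∀ x, dvg (u t) x = 0 := mem_dvg hF hμ hm hC.sm
  -- the residual is orthogonal to the solution
  have h1 := exchange hF hμ hm (coef_abs_summable S hμ ht') (hT.resid_cont ν ht)
  have h2 : (fun n => coef μ κ A n t * ∫ x, ∑ i, residual ν u t x i * ph μ ψ n x i)
      = fun _ => (0 : ℝ) := by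
    funext n
    rw [vel_galerkin S hμ hF hβ1 hβ2 hfit ht n, mul_zero]
  have h3 : ∫ x, ∑ i, residual ν u t x i * u t x i = 0 := by
    rw [h2] at h1
    exact h1.unique hasSum_zero
  -- split the residual
  have hdt : Continuous (fun x : V => (fun i => FD Tb u (t, x) (1, 0) i : V)) := by
    apply continuous_pi
    intro i
    rw [← continuousOn_univ]
    exact (hT.FDv_cont (1, 0) i).comp (f := fun x : V => (t, x)) (by fun_prop)
      (fun x _ => ⟨ht', mem_univ _⟩)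
  have i1 : Integrable (fun x => ∑ i, FD Tb u (t, x) (1, 0) i * u t x i) volume :=
    ip_int hdt hC
  have i2 : Integrable (fun x => ∑ i, (∑ j, u t x j * pd j (fun y => u t y i) x) * u t x i)
      volume := tri_int hC.sm.continuous hC.sm hC
  have i3 : Integrable (fun x => ∑ i, (∑ j, pd j (pd j (fun y => u t y i)) x) * u t x i)
      volume := by
    have hcn : Continuous (fun x : V => (fun i => ∑ j, pd j (pd j (fun y => u t y i)) x : V)) := by
      apply continuous_pi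
      intro i
      apply continuous_finsetSum
      intro j _
      exact (((hC.smc i).pd j).pd j).continuous
    exact ip_int hcn hC
  have hsplit : ∀ x, (∑ i, residual ν u t x i * u t x i)
      = (∑ i, FD Tb u (t, x) (1, 0) i * u t x i)
        + (∑ i, (∑ j, u t x j * pd j (fun y => u t y i) x) * u t x i)
        - ν * ∑ i, (∑ j, pd j (pd j (fun y => u t y i)) x) * u t x i := by
    intro x
    rw [← Finset.sum_add_distrib, Finset.mul_sum, ← Finset.sum_sub_distrib]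
    congr 1
    funext i
    unfold residual
    rw [(hT.time_deriv ht x i).deriv]
    ring
  have i12 : Integrable (fun x => (∑ i, FD Tb u (t, x) (1, 0) i * u t x i)
      + ∑ i, (∑ j, u t x j * pd j (fun y => u t y i) x) * u t x i) volume := i1.add i2
  simp_rw [hsplit] at h3
  rw [integral_sub i12 (i3.const_mul ν), integral_add i1 i2, integral_const_mul,
    lap_ip hC.sm hC] at h3
  have h4 : ∫ x, ∑ i, (∑ j, u t x j * pd j (fun y => u t y i) x) * u t x i = 0 := by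
    have : ∫ x, ∑ i, (∑ j, u t x j * pd j (fun y => u t y i) x) * u t x i
      = tri (u t) (u t) (u t) := rfl
    rw [this]
    exact tri_self hC hd hC
  rw [h4] at h3
  have h5 := hT.energy_deriv ht
  have e : (∫ x, ∑ i, (FD Tb u (t, x) (1, 0) i * u t x i + u t x i * FD Tb u (t, x) (1, 0) i))
      = -(2 * ν * Dir (u t) (u t)) := by
    have e1 : (fun x => ∑ i, (FD Tb u (t, x) (1, 0) i * u t x i
        + u t x i * FD Tb u (t, x) (1, 0) i))
        = fun x => 2 * ∑ i, FD Tb u (t, x) (1, 0) i * u t x i := by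
      funext x
      rw [Finset.mul_sum]
      congr 1
      funext i
      ring
    rw [e1, integral_const_mul]
    linarith
  rw [← e]
  exact h5

/-- The energy equality. -/
theorem vel_energy {p : Par} {Tb : ℝ} {A : ℕ → ℝ → ℝ} (S : Sol p Tb A) {μ κ ε β ν : ℝ}
    (hμ : 2 ≤ μ) {ψ : V → V} (hF : Fld μ ε ψ) (hβ1 : tri (dil μ ψ) ψ (dil μ ψ) = -β)
    (hβ2 : tri ψ ψ (dil μ ψ) = -(ε * β)) (hfit : Fit μ ε β ν ψ p κ) {t : ℝ}
    (ht : t ∈ Ico 0 Tb) :
    ip (vel μ κ ψ A t) (vel μ κ ψ A t)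
      + 2 * ν * ∫ s in (0 : ℝ)..t, Dir (vel μ κ ψ A s) (vel μ κ ψ A s)
      = ip (vel μ κ ψ A 0) (vel μ κ ψ A 0) := by
  obtain ⟨R, _, hR⟩ := fld_radius hF
  have hT := vel_TF (κ := κ) S hμ hF hR
  have hsub : Icc 0 t ⊆ Ico 0 Tb := fun s hs => ⟨hs.1, hs.2.trans_lt ht.2⟩
  have h1 := intervalIntegral.integral_eq_sub_of_hasDerivAt_of_le ht.1
    (hT.energy_cont.mono hsub)
    (fun s hs => vel_energy_deriv S hμ hF hβ1 hβ2 hfit ⟨hs.1, hs.2.trans ht.2⟩)
    (by
      apply ContinuousOn.intervalIntegrable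
      rw [uIcc_of_le ht.1]
      exact (continuousOn_const.mul (hT.dir_cont.mono hsub)).neg)
  rw [intervalIntegral.integral_neg, intervalIntegral.integral_const_mul] at h1
  linarith

end Pool.Agent.Run7.h407
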