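import Mathlib
import Pool.Agent.Run7.h407.Energy2

/-!
Growth of the cubic norm and the pointwise bound of the velocity field.
-/

namespace Pool.Agent.Run7.h407

open Set Filter Topology MeasureTheory
open scoped ContDiff

variable {μ ε : ℝ} {ψ : V → V}

/-- The slab in which only one dilate counts. -/
def slab : Set V := {z : V | 17 / 16 < z 0 ∧ z 0 < 3}

theorem slab_open : IsOpen slab :=
  (isOpen_lt continuous_const (continuous_apply 0)).inter
    (isOpen_lt (continuous_apply 0) continuous_const)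

/-- The cubic mass of `ψ` in the slab. -/
noncomputable def slabMass (ψ : V → V) : ℝ := ∫ y, slab.indicator (fun z => ‖ψ z‖ ^ 3) y

theorem cube_cont {v : V → V} (hv : Continuous v) : Continuous (fun x => ‖v x‖ ^ 3) :=
  hv.norm.pow 3

theorem cube_cs {v : V → V} (hv : CF v) : HasCompactSupport (fun x => ‖v x‖ ^ 3) := by
  apply HasCompactSupport.intro hv.cs.isCompact
  intro x hx
  rw [image_eq_zero_of_notMem_tsupport hx]
  simp

theorem slabMass_pos (hF : Fld μ ε ψ) : 0 < slabMass ψ := by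
  unfold slabMass
  rw [integral_indicator slab_open.measurableSet]
  have hc := cube_cont hF.cf.sm.continuous
  rw [setIntegral_pos_iff_support_of_nonneg_ae]
  · obtain ⟨x₀, hx0, hψ1, _⟩ := hF.pt
    have ho : IsOpen (Function.support (fun z => ‖ψ z‖ ^ 3) ∩ slab) :=
      hc.isOpen_support.inter slab_open
    refine ho.measure_pos volume ⟨x₀, ?_, ?_⟩
    · intro h
      have h1 : ψ x₀ = 0 := by simpa using h
      rw [h1] at hψ1
      norm_num at hψ1
    · constructor <;> rw [hx0] <;> norm_num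
  · exact Eventually.of_forall fun x => by positivity
  · exact (hc.integrable_of_hasCompactSupport (cube_cs hF.cf)).integrableOn

theorem cubic_lower (hF : Fld μ ε ψ) (hμ : 2 ≤ μ) {c : ℕ → ℝ} {v : V → V} (hm : Mem μ ψ c v)
    (hv : CF v) (n : ℕ) : (|c n| * μ ^ n) ^ 3 * slabMass ψ ≤ ∫ x, ‖v x‖ ^ 3 := by
  have hμ0 : 0 < μ := by linarith
  have hs : 0 < μ ^ n := by positivity
  have h1 : (|c n| * μ ^ n) ^ 3 * slabMass ψ
      = ∫ x, (fun y => (|c n| * (μ ^ n) ^ 3) ^ 3 * slab.indicator (fun z => ‖ψ z‖ ^ 3) y)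
        ((μ ^ n) ^ 2 • x) := by
    rw [integral_scale (fun y => (|c n| * (μ ^ n) ^ 3) ^ 3 * slab.indicator
      (fun z => ‖ψ z‖ ^ 3) y) hs, integral_const_mul]
    unfold slabMass
    field_simp
  rw [h1]
  apply integral_mono_of_nonneg
  · apply Eventually.of_forall
    intro x
    show 0 ≤ (|c n| * (μ ^ n) ^ 3) ^ 3 * slab.indicator (fun z => ‖ψ z‖ ^ 3) ((μ ^ n) ^ 2 • x)
    have h2 : 0 ≤ slab.indicator (fun z => ‖ψ z‖ ^ 3) ((μ ^ n) ^ 2 • x) :=
      indicator_nonneg (fun z _ => by positivity) _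
    positivity
  · exact (cube_cont hv.sm.continuous).integrable_of_hasCompactSupport (cube_cs hv)
  · apply Eventually.of_forall
    intro x
    show (|c n| * (μ ^ n) ^ 3) ^ 3 * slab.indicator (fun z => ‖ψ z‖ ^ 3) ((μ ^ n) ^ 2 • x)
      ≤ ‖v x‖ ^ 3
    by_cases hx : (μ ^ n) ^ 2 • x ∈ slab
    · rw [indicator_of_mem hx]
      have e : (μ ^ n) ^ 2 = μ ^ (2 * n) := by ring
      have h2 : 17 / 16 < μ ^ (2 * n) * x 0 ∧ μ ^ (2 * n) * x 0 < 3 := by
        rw [e] at hx
        exact hx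
      rw [rep_one hF hμ hm n h2.1 h2.2, norm_smul]
      unfold ph dil
      rw [norm_smul, Real.norm_eq_abs, Real.norm_eq_abs, abs_of_pos (by positivity : 0 < (μ ^ n) ^ 3)]
      apply le_of_eq
      ring
    · rw [indicator_of_notMem hx, mul_zero]
      positivity

/-- The critical size of the coefficients grows geometrically. -/
theorem coef_lower {p : Par} {A : ℕ → ℝ → ℝ} {β ν κ : ℝ} (hμ : 2 ≤ μ)
    (hfit : Fit μ ε β ν ψ p κ) {n : ℕ} {t : ℝ}
    (h : p.a0 / 2 * (1.5 * p.Λ) ^ n ≤ A (n + 1) t) :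
    p.a0 / (2 * κ) * 1.5 ^ n ≤ |coef μ κ A n t| * μ ^ n := by
  have hμ0 : 0 < μ := by linarith
  have hκ : 0 < κ := by
    rw [hfit.κe]
    exact div_pos hfit.βp hfit.N
  have h1 : |coef μ κ A n t| * μ ^ n ≥ coef μ κ A n t * μ ^ n :=
    mul_le_mul_of_nonneg_right (le_abs_self _) (by positivity)
  refine le_trans ?_ h1
  unfold coef
  rw [hfit.Λe] at h
  have e1 : 1 / κ * ((μ ^ 5)⁻¹) ^ n * A (n + 1) t * μ ^ n
      = 1 / κ * ((μ ^ 4)⁻¹) ^ n * A (n + 1) t := by
    have e2 : ((μ ^ 5)⁻¹) ^ n * μ ^ n = ((μ ^ 4)⁻¹) ^ n := by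
      rw [← mul_pow]
      congr 1
      field_simp
    rw [← e2]
    ring
  have e3 : p.a0 / (2 * κ) * 1.5 ^ n
      = 1 / κ * ((μ ^ 4)⁻¹) ^ n * (p.a0 / 2 * (1.5 * μ ^ 4) ^ n) := by
    rw [mul_pow, inv_pow]
    field_simp
  rw [e1, e3]
  exact mul_le_mul_of_nonneg_left h (by positivity)

/-- The critical norm tends to infinity. -/
theorem vel_cubic {p : Par} {Tb : ℝ} {A : ℕ → ℝ → ℝ} (S : Sol p Tb A) {β ν κ : ℝ} (hμ : 2 ≤ μ)
    (hF : Fld μ ε ψ) (hfit : Fit μ ε β ν ψ p κ) :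
    Tendsto (fun t => ∫ x, ‖vel μ κ ψ A t x‖ ^ 3) (𝓝[<] Tb) atTop := by
  have hκ : 0 < κ := by
    rw [hfit.κe]
    exact div_pos hfit.βp hfit.N
  have ha0 := p.ha0
  have hm0 := slabMass_pos hF
  obtain ⟨R, _, hR⟩ := fld_radius hF
  have hT := vel_TF (κ := κ) S hμ hF hR
  have ht : Tendsto (fun n : ℕ => p.a0 / (2 * κ) * (1.5 : ℝ) ^ n) atTop atTop := by
    apply Tendsto.const_mul_atTop (by positivity)
    exact tendsto_pow_atTop_atTop_of_one_lt (by norm_num)
  have ht3 : Tendsto (fun n : ℕ => (p.a0 / (2 * κ) * (1.5 : ℝ) ^ n) ^ 3 * slabMass ψ)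
      atTop atTop :=
    ((tendsto_pow_atTop (by norm_num)).comp ht).atTop_mul_const hm0
  rw [tendsto_atTop]
  intro M
  obtain ⟨n, hn⟩ := (ht3.eventually_ge_atTop M).exists
  obtain ⟨σ, h0, h1, h2⟩ := S.low n
  filter_upwards [Ioo_mem_nhdsLT h1] with t ht
  have htm : t ∈ Ico 0 Tb := ⟨h0.trans ht.1.le, ht.2⟩
  refine hn.trans ?_
  refine le_trans ?_ (cubic_lower hF hμ (vel_mem S hμ hF htm) (hT.slice_CF htm) n)
  apply mul_le_mul_of_nonneg_right _ hm0.le
  apply pow_le_pow_left₀ (by positivity)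
  exact coef_lower (A := A) hμ hfit (h2 t ht)

/-- The velocity is unbounded as the blow-up time is approached. -/
theorem vel_sup {p : Par} {Tb : ℝ} {A : ℕ → ℝ → ℝ} (S : Sol p Tb A) {β ν κ : ℝ} (hμ : 2 ≤ μ)
    (hF : Fld μ ε ψ) (hfit : Fit μ ε β ν ψ p κ) (M : ℝ) :
    ∀ᶠ t in 𝓝[<] Tb, ∃ x, M < ‖vel μ κ ψ A t x‖ := by
  obtain ⟨R, _, hR⟩ := fld_radius hF
  have hT := vel_TF (κ := κ) S hμ hF hR
  have h1 := vel_cubic (κ := κ) S hμ hF hfit
  have h2 := h1.eventually_gt_atTop (|M| ^ 3 * (volume : Measure V).real (Metric.closedBall 0 R))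
  filter_upwards [h2, Ioo_mem_nhdsLT S.Tpos] with t ht htI
  by_contra hcon
  push Not at hcon
  have htm : t ∈ Ico 0 Tb := ⟨htI.1.le, htI.2⟩
  have h3 : ∫ x, ‖vel μ κ ψ A t x‖ ^ 3
      ≤ ∫ x, (Metric.closedBall (0 : V) R).indicator (fun _ => |M| ^ 3) x := by
    apply integral_mono_of_nonneg
    · exact Eventually.of_forall fun x => by positivity
    · rw [integrable_indicator_iff measurableSet_closedBall]
      exact integrableOn_const (isCompact_closedBall (0 : V) R).measure_ne_top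
    · apply Eventually.of_forall
      intro x
      by_cases hx : x ∈ Metric.closedBall (0 : V) R
      · rw [indicator_of_mem hx]
        exact pow_le_pow_left₀ (norm_nonneg _) ((hcon x).trans (le_abs_self M)) 3
      · rw [indicator_of_notMem hx]
        have h4 : vel μ κ ψ A t x = 0 := by
          apply hT.sp t htm x
          rw [mem_closedBall_zero_iff, not_le] at hx
          exact hx
        show ‖vel μ κ ψ A t x‖ ^ 3 ≤ 0
        rw [h4]
        simp
  rw [integral_indicator measurableSet_closedBall, setIntegral_const, smul_eq_mul] at h3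
  linarith

/-- The velocity is bounded by `C |x| ^ (-1-δ)` up to the blow-up time. -/
theorem vel_pointwise {p : Par} {Tb : ℝ} {A : ℕ → ℝ → ℝ} (S : Sol p Tb A) {β ν κ : ℝ}
    (hμ : 2 ≤ μ) (hF : Fld μ ε ψ) (hfit : Fit μ ε β ν ψ p κ) {δ : ℝ} (hδ : 0 < δ)
    (h16 : 16 ≤ (μ ^ 2) ^ δ) :
    ∃ C, ∀ t ∈ Ico 0 Tb, ∀ x, ‖vel μ κ ψ A t x‖ * ‖x‖ ^ (1 + δ) ≤ C := by
  have hμ0 : 0 < μ := by linarith
  have hκ : 0 < κ := by
    rw [hfit.κe]
    exact div_pos hfit.βp hfit.N
  have ha0 := p.ha0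
  have hK := p.Kpos
  obtain ⟨R, hR0, hR⟩ := fld_radius hF
  obtain ⟨B, hB⟩ := hF.cf.cs.exists_bound_of_continuous hF.cf.sm.continuous
  have hB0 : 0 ≤ B := (norm_nonneg _).trans (hB 0)
  set C0 : ℝ := 1 / κ * (2 * p.a0 * p.K) * B * (R * R ^ δ) with hC0
  have hC00 : 0 ≤ C0 := by
    rw [hC0]
    positivity
  refine ⟨C0 * 2, fun t ht x => ?_⟩
  have hterm : ∀ n, ‖(‖x‖ ^ (1 + δ)) • (coef μ κ A n t • ph μ ψ n x)‖ ≤ C0 * (1 / 2) ^ n := by
    intro n
    by_cases h : ph μ ψ n x = 0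
    · rw [h]
      simp only [smul_zero, norm_zero]
      positivity
    · have h1 := ph_radius hμ hR h
      have h2 : ‖x‖ ≤ R / (μ ^ 2) ^ n := by
        rw [le_div_iff₀ (by positivity)]
        have e : μ ^ (2 * n) = (μ ^ 2) ^ n := by ring
        rw [e] at h1
        linarith
      have h3 : ‖x‖ ^ δ ≤ R ^ δ * (1 / 16) ^ n := by
        calc ‖x‖ ^ δ ≤ (R / (μ ^ 2) ^ n) ^ δ := Real.rpow_le_rpow (norm_nonneg _) h2 hδ.le
          _ = R ^ δ / ((μ ^ 2) ^ n) ^ δ := Real.div_rpow hR0.le (by positivity) _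
          _ = R ^ δ * (1 / (μ ^ 2) ^ δ) ^ n := by
              rw [← Real.rpow_pow_comm (by positivity), one_div, inv_pow]
              ring
          _ ≤ R ^ δ * (1 / 16) ^ n := by
              apply mul_le_mul_of_nonneg_left _ (by positivity)
              apply pow_le_pow_left₀ (by positivity)
              exact one_div_le_one_div_of_le (by norm_num) h16
      have h4 : |coef μ κ A n t| ≤ 1 / κ * (2 * p.a0 * p.K) * ((8 / μ) ^ n) := by
        have h5 := S.upp n t ht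
        have h6 := S.nonneg (n + 1) t ht
        unfold coef
        rw [abs_mul, abs_of_nonneg h6, abs_of_nonneg (by positivity)]
        rw [hfit.Λe] at h5
        have e : 1 / κ * (2 * p.a0 * p.K) * ((8 / μ) ^ n)
            = 1 / κ * ((μ ^ 5)⁻¹) ^ n * (2 * p.a0 * p.K * (8 * μ ^ 4) ^ n) := by
          have e2 : ((μ ^ 5)⁻¹) ^ n * (8 * μ ^ 4) ^ n = (8 / μ) ^ n := by
            rw [← mul_pow]
            congr 1
            field_simp
          rw [← e2]
          ring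
        rw [e]
        exact mul_le_mul_of_nonneg_left h5 (by positivity)
      have h7 : ‖ph μ ψ n x‖ ≤ (μ ^ 3) ^ n * B := by
        unfold ph dil
        rw [norm_smul, Real.norm_eq_abs, abs_of_pos (by positivity)]
        have e : (μ ^ n) ^ 3 = (μ ^ 3) ^ n := by ring
        rw [e]
        exact mul_le_mul_of_nonneg_left (hB _) (by positivity)
      have h8 : ‖x‖ ^ (1 + δ) = ‖x‖ * ‖x‖ ^ δ := by
        rw [Real.rpow_add' (norm_nonneg _) (by linarith), Real.rpow_one]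
      rw [norm_smul, norm_smul, Real.norm_eq_abs, Real.norm_eq_abs,
        abs_of_nonneg (Real.rpow_nonneg (norm_nonneg _) _), h8]
      calc ‖x‖ * ‖x‖ ^ δ * (|coef μ κ A n t| * ‖ph μ ψ n x‖)
          ≤ (R / (μ ^ 2) ^ n) * (R ^ δ * (1 / 16) ^ n)
            * ((1 / κ * (2 * p.a0 * p.K) * ((8 / μ) ^ n)) * ((μ ^ 3) ^ n * B)) := by
            apply mul_le_mul
            · exact mul_le_mul h2 h3 (Real.rpow_nonneg (norm_nonneg _) _) (by positivity)
            · exact mul_le_mul h4 h7 (norm_nonneg _) (by positivity)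
            · positivity
            · positivity
        _ = C0 * ((1 / (μ ^ 2)) ^ n * (1 / 16) ^ n * ((8 / μ) ^ n) * (μ ^ 3) ^ n) := by
            rw [hC0, one_div (μ ^ 2), inv_pow]
            ring
        _ = C0 * (1 / 2) ^ n := by
            rw [← mul_pow, ← mul_pow, ← mul_pow]
            congr 2
            field_simp
            norm_num
  have h1 : HasSum (fun n => (‖x‖ ^ (1 + δ)) • (coef μ κ A n t • ph μ ψ n x))
      ((‖x‖ ^ (1 + δ)) • vel μ κ ψ A t x) := (vel_mem S hμ hF ht x).const_smul _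
  have h2 : HasSum (fun n : ℕ => C0 * (1 / 2) ^ n) (C0 * 2) := hasSum_geometric_two.mul_left C0
  have h3 := h1.norm_le_of_bounded h2 hterm
  rw [norm_smul, Real.norm_eq_abs, abs_of_nonneg (Real.rpow_nonneg (norm_nonneg _) _)] at h3
  linarith

end Pool.Agent.Run7.h407
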