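import Mathlib
import Pool.Agent.Run7.h407.Growth

/-!
Choice of the parameters and assembly.
-/

namespace Pool.Agent.Run7.h407

open Set Filter Topology MeasureTheory
open scoped ContDiff

theorem cube_exp {x : ℝ} (hx : 0 ≤ x) : x ^ 3 / 6 ≤ Real.exp x := by
  have h := Real.pow_div_factorial_le_exp x hx 3
  have e : ((Nat.factorial 3 : ℕ) : ℝ) = 6 := by norm_num [Nat.factorial]
  rw [e] at h
  exact h

theorem exp_facts {Λ K : ℝ} (h1 : 100000000 ≤ Λ) (hK1 : 100 * Λ ≤ K) (hK2 : K ≤ Λ ^ 2) :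
    Real.exp (-(4 * Λ)) * K ≤ 1 / 1000 ∧
    2 * Λ + Real.exp (-(4 * Λ)) * K ≤ Real.exp (-(4 * Λ)) * K * Real.exp (4 * Λ) ∧
    4 * (Real.exp (-(4 * Λ)) * K) * Real.exp (2.3 * Λ) ≤ 1 / 100 := by
  have hΛ : 0 < Λ := by linarith
  have hK : 0 < K := by linarith
  have a1 : Real.exp (-(4 * Λ)) * K ≤ 1 / 1000 := by
    have h2 := cube_exp (x := 4 * Λ) (by linarith)
    rw [Real.exp_neg, inv_mul_le_iff₀ (Real.exp_pos _)]
    have h3 : K ≤ (4 * Λ) ^ 3 / 6 * (1 / 1000) := by nlinarith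
    calc K ≤ (4 * Λ) ^ 3 / 6 * (1 / 1000) := h3
      _ ≤ Real.exp (4 * Λ) * (1 / 1000) := mul_le_mul_of_nonneg_right h2 (by norm_num)
  refine ⟨a1, ?_, ?_⟩
  · have e : Real.exp (-(4 * Λ)) * K * Real.exp (4 * Λ) = K := by
      rw [mul_right_comm, ← Real.exp_add]
      simp
    rw [e]
    linarith
  · have e : 4 * (Real.exp (-(4 * Λ)) * K) * Real.exp (2.3 * Λ)
        = (Real.exp (1.7 * Λ))⁻¹ * (4 * K) := by
      rw [← Real.exp_neg]
      have : Real.exp (-(1.7 * Λ)) = Real.exp (-(4 * Λ)) * Real.exp (2.3 * Λ) := by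
        rw [← Real.exp_add]
        congr 1
        ring
      rw [this]
      ring
    rw [e, inv_mul_le_iff₀ (Real.exp_pos _)]
    have h2 := cube_exp (x := 1.7 * Λ) (by linarith)
    have h3 : 4 * K ≤ (1.7 * Λ) ^ 3 / 6 * (1 / 100) := by nlinarith
    calc 4 * K ≤ (1.7 * Λ) ^ 3 / 6 * (1 / 100) := h3
      _ ≤ Real.exp (1.7 * Λ) * (1 / 100) := mul_le_mul_of_nonneg_right h2 (by norm_num)

theorem ip_pos {μ ε : ℝ} {ψ : V → V} (hF : Fld μ ε ψ) : 0 < ip ψ ψ := by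
  obtain ⟨x₀, _, hψ1, _⟩ := hF.pt
  unfold ip
  have hc : Continuous (fun x => ∑ i, ψ x i * ψ x i) := by
    apply continuous_finsetSum
    intro i _
    exact (hF.cf.smc i).continuous.mul (hF.cf.smc i).continuous
  have hcs : HasCompactSupport (fun x => ∑ i, ψ x i * ψ x i) := by
    apply HasCompactSupport.intro hF.cf.cs.isCompact
    intro x hx
    rw [image_eq_zero_of_notMem_tsupport hx]
    simp
  apply hc.integral_pos_of_hasCompactSupport_nonneg_nonzero hcs (x := x₀)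
  · intro x
    exact Finset.sum_nonneg fun i _ => mul_self_nonneg _
  · apply ne_of_gt
    rw [Fin.sum_univ_three, hψ1]
    nlinarith [mul_self_nonneg (ψ x₀ 0), mul_self_nonneg (ψ x₀ 1)]

theorem Dir_nonneg (u : V → V) : 0 ≤ Dir u u := by
  unfold Dir
  apply integral_nonneg
  intro x
  exact Finset.sum_nonneg fun i _ => Finset.sum_nonneg fun j _ => mul_self_nonneg _

section orth

variable {μ ε : ℝ} {ψ : V → V}

theorem far_disj (hF : Fld μ ε ψ) (hμ : 2 ≤ μ) (k : ℕ) (x : V) :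
    (∀ᶠ y in 𝓝 x, ψ y = 0) ∨ (∀ᶠ y in 𝓝 x, dil (μ ^ (k + 2)) ψ y = 0) := by
  have hμ0 : 0 < μ := by linarith
  have hμ2 : (4 : ℝ) ≤ μ ^ 2 := by nlinarith
  rcases lt_or_ge (x 0) (3 / 4) with h | h
  · left
    filter_upwards [nhds_lt h] with y hy
    by_contra hcon
    linarith [(hF.supp y hcon).1]
  · right
    filter_upwards [nhds_gt (show 2 / 3 < x 0 by linarith)] with y hy
    by_contra hcon
    have h1 := (dil_ne hF hcon).2
    have e : (μ ^ (k + 2)) ^ 2 * y 0 = μ ^ (2 * k) * (μ ^ 2 * (μ ^ 2 * y 0)) := by ring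
    rw [e] at h1
    have h2 : μ ^ 2 * (8 / 3) ≤ μ ^ 2 * (μ ^ 2 * y 0) := by
      apply mul_le_mul_of_nonneg_left _ (by positivity)
      nlinarith
    have h3 : (1 : ℝ) ≤ μ ^ (2 * k) := one_le_pow₀ (by linarith)
    have h4 : μ ^ 2 * (μ ^ 2 * y 0) ≤ μ ^ (2 * k) * (μ ^ 2 * (μ ^ 2 * y 0)) := by
      have : 0 ≤ μ ^ 2 * (μ ^ 2 * y 0) := by nlinarith
      nlinarith
    nlinarith

theorem far_ip (hF : Fld μ ε ψ) (hμ : 2 ≤ μ) (k : ℕ) : ip ψ (dil (μ ^ (k + 2)) ψ) = 0 := by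
  unfold ip
  have : (fun x => ∑ i, ψ x i * dil (μ ^ (k + 2)) ψ x i) = fun _ => 0 := by
    funext x
    rcases far_disj hF hμ k x with h | h
    · rw [h.self_of_nhds]
      simp
    · rw [h.self_of_nhds]
      simp
  rw [this]
  simp

theorem far_Dir (hF : Fld μ ε ψ) (hμ : 2 ≤ μ) (k : ℕ) : Dir ψ (dil (μ ^ (k + 2)) ψ) = 0 := by
  unfold Dir
  have : (fun x => ∑ i, ∑ j, pd j (fun y => ψ y i) x
      * pd j (fun y => dil (μ ^ (k + 2)) ψ y i) x) = fun _ => 0 := by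
    funext x
    rcases far_disj hF hμ k x with h | h
    · have h3 : ∀ i j, pd j (fun y => ψ y i) x = 0 := by
        intro i j
        have : (fun y => ψ y i) =ᶠ[𝓝 x] fun _ => (0 : ℝ) := by
          filter_upwards [h] with y hy
          rw [hy]
          rfl
        rw [pd_congr this, pd_const]
      simp_rw [h3]
      simp
    · have h3 : ∀ i j, pd j (fun y => dil (μ ^ (k + 2)) ψ y i) x = 0 := by
        intro i j
        have : (fun y => dil (μ ^ (k + 2)) ψ y i) =ᶠ[𝓝 x] fun _ => (0 : ℝ) := by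
          filter_upwards [h] with y hy
          rw [hy]
          rfl
        rw [pd_congr this, pd_const]
      simp_rw [h3]
      simp
  rw [this]
  simp

theorem orth_lt (hF : Fld μ ε ψ) (hμ : 2 ≤ μ) {m n : ℕ} (h : m < n) :
    ip (ph μ ψ m) (ph μ ψ n) = 0 ∧ Dir (ph μ ψ m) (ph μ ψ n) = 0 := by
  have hμ0 : 0 < μ := by linarith
  obtain ⟨k, rfl⟩ : ∃ k, n = m + 1 + k := ⟨n - m - 1, by omega⟩
  have e : ph μ ψ (m + 1 + k) = dil (μ ^ m) (dil (μ ^ (k + 1)) ψ) := by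
    unfold ph
    rw [dil_dil]
    congr 1
    ring
  have c1 : CF (dil (μ ^ (k + 1)) ψ) := dil_CF hF.cf (by positivity)
  rw [e]
  unfold ph
  rw [ip_dil _ _ (by positivity), Dir_dil hF.cf.smc c1.smc (by positivity)]
  cases k with
  | zero =>
    rw [zero_add, pow_one, hF.ip1, hF.Dir1]
    simp
  | succ k =>
    rw [far_ip hF hμ k, far_Dir hF hμ k]
    simp

theorem orth (hF : Fld μ ε ψ) (hμ : 2 ≤ μ) {m n : ℕ} (h : m ≠ n) :
    ip (ph μ ψ m) (ph μ ψ n) = 0 ∧ Dir (ph μ ψ m) (ph μ ψ n) = 0 := by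
  rcases lt_or_gt_of_ne h with h | h
  · exact orth_lt hF hμ h
  · rw [ip_comm, Dir_comm]
    exact orth_lt hF hμ h

end orth

theorem exists_mu {δ : ℝ} (hδ : 0 < δ) : ∃ μ : ℝ, 100 ≤ μ ∧ 16 ≤ (μ ^ 2) ^ δ := by
  have h1 : Tendsto (fun x : ℝ => x ^ δ) atTop atTop := tendsto_rpow_atTop hδ
  have h2 : Tendsto (fun x : ℝ => x ^ 2) atTop atTop := tendsto_pow_atTop (by norm_num)
  obtain ⟨μ, h3, h4⟩ := ((eventually_ge_atTop 100).and ((h1.comp h2).eventually_ge_atTop 16)).exists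
  exact ⟨μ, h3, h4⟩

theorem main (δ : ℝ) (hδ : 0 < δ) : ∃ (μ : ℝ) (ψ : V → V), 1 < μ ∧ ContDiff ℝ ∞ ψ ∧
    HasCompactSupport ψ ∧ (∀ x, dvg ψ x = 0) ∧ 0 < ip ψ ψ ∧
    (∀ m n, m ≠ n → ip (ph μ ψ m) (ph μ ψ n) = 0 ∧ Dir (ph μ ψ m) (ph μ ψ n) = 0) ∧
    ∃ R A₀ : ℝ, 0 < R ∧ 0 < A₀ ∧ ∀ ν ≥ 0, ∀ a > 0, A₀ * ν ≤ a →
      ∃ T, 0 < T ∧ T ≤ A₀ / a ∧ ∃ u : ℝ → V → V, IsGal μ ψ ν T u ∧
        (∀ x, u 0 x = a • ψ x) ∧
        (∀ t ∈ Ico 0 T, ∀ x, R < ‖x‖ → u t x = 0) ∧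
        (∀ t ∈ Ico 0 T, ∀ x, dvg (u t) x = 0) ∧
        (∀ t ∈ Ico 0 T, ip (u t) (u t) + 2 * ν * ∫ s in (0 : ℝ)..t, Dir (u s) (u s)
          = ip (u 0) (u 0)) ∧
        (∃ C, ∀ t ∈ Ico 0 T, ∀ x, ‖u t x‖ * ‖x‖ ^ (1 + δ) ≤ C) ∧
        Tendsto (fun t => ∫ x, ‖u t x‖ ^ 3) (𝓝[<] T) atTop ∧
        (∀ M, ∀ᶠ t in 𝓝[<] T, ∃ x, M < ‖u t x‖) ∧
        ∀ (T' : ℝ) (w : ℝ → V → V), IsGal μ ψ ν T' w → (∀ x, w 0 x = a • ψ x) →
          T' ≤ T ∧ ∀ t ∈ Ico 0 T', w t = u t := by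
  obtain ⟨μ, hμ100, h16⟩ := exists_mu hδ
  have hμ : 2 ≤ μ := by linarith
  have hμ0 : 0 < μ := by linarith
  have hΛ8 : 100000000 ≤ μ ^ 4 := by
    calc (100000000 : ℝ) = 100 ^ 4 := by norm_num
      _ ≤ μ ^ 4 := pow_le_pow_left₀ (by norm_num) hμ100 4
  have hK1 : 100 * μ ^ 4 ≤ μ ^ 5 := by
    have e : μ ^ 5 = μ * μ ^ 4 := by ring
    rw [e]
    exact mul_le_mul_of_nonneg_right hμ100 (by positivity)
  have hK2 : μ ^ 5 ≤ (μ ^ 4) ^ 2 := by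
    rw [← pow_mul]
    exact pow_le_pow_right₀ (by linarith) (by norm_num)
  obtain ⟨x1, x2, x3⟩ := exp_facts hΛ8 hK1 hK2
  obtain ⟨ψ, hF⟩ := exists_fld (μ := μ) (ε := Real.exp (-(4 * μ ^ 4))) hμ (Real.exp_pos _)
  obtain ⟨R, hR0, hR⟩ := fld_radius hF
  obtain ⟨β, hβ0, hβ1, hβ2⟩ := hF.beta
  have hN := ip_pos hF
  have hD := Dir_nonneg ψ
  refine ⟨μ, ψ, by linarith, hF.cf.sm, hF.cf.cs, hF.dv, hN, fun m n h => orth hF hμ h, ?_⟩
  set N := ip ψ ψ with hNdef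
  set D := Dir ψ ψ with hDdef
  have hA0 : 0 < 200 * D * μ ^ 4 / β + 9 * μ ^ 4 * N / β := by positivity
  refine ⟨R, 200 * D * μ ^ 4 / β + 9 * μ ^ 4 * N / β, hR0, hA0, ?_⟩
  intro ν hν a ha haν
  have hd0 : 0 ≤ ν * D / N := by positivity
  have ha0 : 0 < β / N * a := by positivity
  have hda : 200 * (ν * D / N) * μ ^ 4 ≤ β / N * a := by
    have h1 : 200 * D * μ ^ 4 / β * ν ≤ a := by
      have : 0 ≤ 9 * μ ^ 4 * N / β * ν := by positivity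
      nlinarith
    have h2 : 200 * (ν * D / N) * μ ^ 4 = β / N * (200 * D * μ ^ 4 / β * ν) := by
      field_simp
    rw [h2]
    exact mul_le_mul_of_nonneg_left h1 (by positivity)
  set p : Par := ⟨μ ^ 4, μ ^ 5, Real.exp (-(4 * μ ^ 4)), ν * D / N, β / N * a,
    by linarith, hK1, Real.exp_pos _, x1, hd0, ha0, hda, x2, x3⟩ with hp
  have hfit : Fit μ (Real.exp (-(4 * μ ^ 4))) β ν ψ p (β / N) :=
    ⟨rfl, rfl, rfl, hN, hβ0, rfl, rfl⟩
  obtain ⟨Tb, A, S⟩ := exists_sol p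
  have hκ0 : β / N ≠ 0 := by positivity
  have hT := vel_TF (κ := β / N) S hμ hF hR
  have hinit : ∀ x, vel μ (β / N) ψ A 0 x = a • ψ x := by
    intro x
    rw [vel_init S hμ hF x]
    congr 1
    show β / N * a / (β / N) = a
    field_simp
  refine ⟨Tb, S.Tpos, ?_, vel μ (β / N) ψ A, vel_isGal S hμ hF hβ1 hβ2 hfit, hinit,
    hT.sp, ?_, ?_, ?_, vel_cubic S hμ hF hfit, vel_sup S hμ hF hfit, ?_⟩
  · refine S.Tle.trans ?_
    show 9 * μ ^ 4 / (β / N * a) ≤ (200 * D * μ ^ 4 / β + 9 * μ ^ 4 * N / β) / a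
    have h1 : 9 * μ ^ 4 / (β / N * a) = (9 * μ ^ 4 * N / β) / a := by
      field_simp
    rw [h1]
    apply div_le_div_of_nonneg_right _ ha.le
    have : 0 ≤ 200 * D * μ ^ 4 / β := by positivity
    linarith
  · intro t ht x
    exact mem_dvg hF hμ (vel_mem S hμ hF ht) (hT.slice_cont ht) x
  · intro t ht
    exact vel_energy S hμ hF hβ1 hβ2 hfit ht
  · exact vel_pointwise S hμ hF hfit hδ h16
  · intro T' w hw h0
    have h0' : ∀ x, w 0 x = vel μ (β / N) ψ A 0 x := fun x => by rw [h0, hinit]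
    have h1 := max_time S hμ hF hβ1 hβ2 hfit hw h0'
    refine ⟨h1, fun t ht => ?_⟩
    funext x
    exact field_unique S hμ hF hβ1 hβ2 hfit hw h0' ht (ht.2.trans_le h1) x

end Pool.Agent.Run7.h407
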